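import Mathlib

set_option autoImplicit false

/-!
# Definitions for the undecidability of the Post correspondence problem with four pairs

See `proofs` 209 (MP_07c050_lc) for the paper proof.  Letters of words are natural numbers.
-/

namespace Pool.Agent.H28.PCP

/-- the instance `P` (a list of `n` pairs of words) has a nonempty solution -/
def HasSol {n : ℕ} (P : Fin n → List ℕ × List ℕ) : Prop :=
  ∃ w : List (Fin n), w ≠ [] ∧ w.flatMap (fun i => (P i).1) = w.flatMap (fun i => (P i).2)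

/-! ## The four pairs -/

/-- code of a letter (`true` is the letter x): `0 2^(β-1)` for x, `1 2^(β-1)` for y -/
def cd (β : ℕ) (b : Bool) : List ℕ := (if b then 0 else 1) :: List.replicate (β - 1) 2

/-- the word `V` as a list of letters -/
def vl (V : ℕ → Bool) (L : ℕ) : List Bool := (List.range L).map V

/-- the four pairs -/
def inst (V : ℕ → Bool) (L β ε : ℕ) : Fin 4 → List ℕ × List ℕ :=
  ![(((vl V L).flatMap (cd β)).take (L * β - (β - ε - 1)), cd β true),
    ([2], cd β true), ([1], cd β false), ([2], cd β false)]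

/-- number of x-reads before time `T` -/
def cnt (X : ℕ → Bool) : ℕ → ℕ
  | 0 => 0
  | T + 1 => cnt X T + (if X T then 1 else 0)

/-- position of the `T`-th read -/
def pos (β ε : ℕ) (X : ℕ → Bool) : ℕ → ℕ
  | 0 => 0
  | T + 1 => pos β ε X T + (if X T then β - ε else β)

/-- length of the text written before the `T`-th read -/
def len (L : ℕ) (X : ℕ → Bool) : ℕ → ℕ
  | 0 => 0
  | T + 1 => len L X T + (if X T then L else 1)

/-- the letter at position `p` of the text generated by `X` is x -/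
def Txt (V : ℕ → Bool) (L : ℕ) (X : ℕ → Bool) (p : ℕ) : Prop :=
  ∃ T, X T = true ∧ len L X T ≤ p ∧ p < len L X T + L ∧ V (p - len L X T) = true

/-! ## Token systems -/

/-- scan of a list of slots at queue length `c` -/
def sc (Q : ℕ) (e : ℕ → Bool) : ℕ → List ℕ → List ℕ
  | _, [] => []
  | c, j :: js => if e j = true ∧ j % Q = c % Q then j :: sc Q e (c + 1) js else sc Q e c js

/-- the slots pushed by a reader with table row `e` at queue length `c` -/
def outs (J Q : ℕ) (e : ℕ → Bool) (c : ℕ) : List ℕ := sc Q e c (List.range J)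

/-- annotated token: slot, quotient by `Q` of the queue length at its push, the same for its parent -/
structure Tok where
  sl : ℕ
  dl : ℕ
  pi : ℕ

/-- the annotated tokens pushed when `t` is read at queue length `c` -/
def push (J Q : ℕ) (E : ℕ → ℕ → Bool) (t : Tok) (c : ℕ) : List Tok :=
  (outs J Q (E t.sl) c).mapIdx (fun i j => ⟨j, (c + i) / Q, t.dl⟩)

/-- one step of the token system -/
def stepQ (J Q : ℕ) (E : ℕ → ℕ → Bool) : List Tok → List Tok
  | [] => []
  | t :: r => r ++ push J Q E t (r.length + 1)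

/-- the growth condition for the next step -/
def OK (J Q lam : ℕ) (E : ℕ → ℕ → Bool) : List Tok → Prop
  | [] => True
  | t :: r => ∀ s ∈ push J Q E t (r.length + 1), t.pi ≤ s.dl ∧ s.dl + 1 < lam + t.pi

/-- initial queue -/
def q0 : List Tok := [⟨0, 0, 0⟩]

/-- the word `V` built from a token system -/
def Vf (J Q lam ε : ℕ) (E : ℕ → ℕ → Bool) (i : ℕ) : Bool :=
  decide (i = 0 ∨ ∃ t < ε, ∃ j < J, E (t / lam) j = true ∧
    i + t + ε * (j % Q) = Q * ε * (lam * j + ε * ((t / lam) % Q) + 1))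

/-- length of `V` -/
def Lf (Q ε : ℕ) : ℕ := (Q * ε - 1) * (ε * (Q * ε)) + 1 - ε

/-! ## History of a token system -/

/-- The history of a run, tokens numbered by ℕ: `N u` is the number of tokens known before token
`u` is read, `sl w` the slot of token `w`, `par w` the number of its parent. -/
structure Run (J Q lam : ℕ) (E : ℕ → ℕ → Bool) where
  N : ℕ → ℕ
  sl : ℕ → ℕ
  par : ℕ → ℕ
  N0 : N 0 = 1
  sl0 : sl 0 = 0
  par0 : par 0 = 0
  stop : ∀ u, N u ≤ u → N (u + 1) = N u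
  next : ∀ u, u < N u → N (u + 1) = N u + (outs J Q (E (sl u)) (N u - u)).length
  slot : ∀ u, u < N u → ∀ i (h : i < (outs J Q (E (sl u)) (N u - u)).length),
    sl (N u + i) = (outs J Q (E (sl u)) (N u - u))[i]
  parent : ∀ u, u < N u → ∀ i, i < (outs J Q (E (sl u)) (N u - u)).length →
    par (N u + i) = u
  ok : ∀ u, u < N u → ∀ w, N u ≤ w → w < N (u + 1) →
    (par u - par (par u)) / Q ≤ (w - u) / Q ∧
    (w - u) / Q + 1 < lam + (par u - par (par u)) / Q

/-! ## The ring program -/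

/-- word cellular automaton step (`1` is the blank) -/
def stepW (f : ℕ → ℕ → ℕ) (w : List ℕ) : List ℕ := List.zipWith f (1 :: w) (w ++ [1])

/-- modulus -/
def Qr (A n : ℕ) : ℕ := 2 * A + 4 + n

/-- number of slots -/
def Jr (A n : ℕ) : ℕ := Qr A n * (2 * A + 9)

/-- The table of the ring program: reader slot `Q*b+q`, scanned slot `Q*b'+q'`.
`A` = number of symbols (symbol 0 is the end marker), `f` local rule, `hl` halting symbols, `w`
initial word.  Blocks: `0` boot, `1+a` symbols `D_a` (`1 ≤ a < A`), `1+A+a` symbols `P_a`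
(`0 ≤ a < A`), `2A+6` end marker `D_#`, null blocks `2A+1 .. 2A+5`, `2A+7`, `2A+8`. -/
def rule (A : ℕ) (f : ℕ → ℕ → ℕ) (hl : ℕ → Bool) (w : List ℕ) (b q b' q' : ℕ) : Bool :=
  let n := w.length
  let Q := Qr A n
  if b = 0 then
    if q = 0 then decide (b' = 0 ∧ 1 ≤ q' ∧ q' < n + 2)
    else if q ≤ n then
      decide ((b' = 1 + w.getD (q - 1) 1 ∧ q' = n + 2 - q) ∨ (b' = 2 * A + 1 ∧ n + 2 - q + 1 ≤ q') ∨
        (b' = 2 * A + 3 ∧ q' < n + 2 - q))
    else if q = n + 1 then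
      decide ((b' = 2 * A + 6 ∧ q' = 1) ∨ (b' = 2 * A + 7 ∧ 2 ≤ q') ∨ (b' = 2 * A + 8 ∧ q' < 1))
    else false
  else if b ≤ A then
    if hl (b - 1) then decide (b' = 2 * A + 1 ∨ (b' = 2 * A + 3 ∧ q' < 2 * A))
    else
      decide ((b' = A + b ∧ q' % 2 = 0 ∧ q' < 2 * A) ∨ (b' = 2 * A + 1 ∧ 2 * A ≤ q') ∨
        (b' = 2 * A + 2 ∧ 1 ≤ q' ∧ q' < Q - 1) ∨ (b' = 2 * A + 3 ∧ q' < 2 * A) ∨
        (b' = 2 * A + 4 ∧ q' = Q - 1) ∨ (b' = 2 * A + 5 ∧ q' < 2 * (b - 1)))
  else if b = 2 * A + 6 then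
    decide ((b' = 1 + A ∧ q' % 2 = 0 ∧ q' < 2 * A) ∨ (b' = 2 * A + 1 ∧ 2 * A ≤ q') ∨
      (b' = 2 * A + 2 ∧ 1 ≤ q' ∧ q' < Q - 1) ∨ (b' = 2 * A + 3 ∧ q' < 2 * A + 2) ∨
      (b' = 2 * A + 4 ∧ q' = Q - 1) ∨ (b' = 2 * A + 5 ∧ q' < 2 * A))
  else if b = 1 + A then
    if q < 2 * A then
      decide ((b' = 1 + f (q / 2) 1 ∧ q' = 2 * A - q) ∨ (b' = 2 * A + 1 ∧ 2 * A - q + 1 ≤ q') ∨
        (b' = 2 * A + 3 ∧ q' < 2 * A - q) ∨ (b' = 2 * A + 6 ∧ q' = 2 * A - q) ∨
        (b' = 2 * A + 7 ∧ 2 * A - q + 1 ≤ q') ∨ (b' = 2 * A + 8 ∧ q' < 2 * A - q))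
    else false
  else if b < 1 + 2 * A then
    if q < 2 * A then
      decide ((b' = 1 + f (q / 2) (b - 1 - A) ∧ q' = 2 * A - q) ∨
        (b' = 2 * A + 1 ∧ 2 * A - q + 2 ≤ q') ∨
        (b' = 2 * A + 2 ∧ 2 * A - q + 1 ≤ q' ∧ q' < Q - 1) ∨
        (b' = 2 * A + 3 ∧ q' < 2 * A - q + 2) ∨ (b' = 2 * A + 4 ∧ q' = Q - 1) ∨
        (b' = 2 * A + 5 ∧ q' < 2 * A - q))
    else false
  else false

/-- the table of the ring program on slots -/
def Er (A : ℕ) (f : ℕ → ℕ → ℕ) (hl : ℕ → Bool) (w : List ℕ) (r j : ℕ) : Bool :=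
  rule A f hl w (r / Qr A w.length) (r % Qr A w.length) (j / Qr A w.length) (j % Qr A w.length)

/-- null slots -/
def IsNull (A n : ℕ) (j : ℕ) : Prop :=
  2 * A + 1 ≤ j / Qr A n ∧ j / Qr A n ≠ 2 * A + 6 ∧ j / Qr A n < 2 * A + 9

/-- growth constant -/
def lamr (n : ℕ) : ℕ := n + 8

/-- ε of the ring program -/
def epsr (A n : ℕ) : ℕ := (lamr n + 1) * Jr A n + 4

/-- The four pairs of the word cellular automaton `(A, f, hl)` started at `w`. -/
def instW (A : ℕ) (f : ℕ → ℕ → ℕ) (hl : ℕ → Bool) (w : List ℕ) : Fin 4 → List ℕ × List ℕ :=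
  inst (Vf (Jr A w.length) (Qr A w.length) (lamr w.length) (epsr A w.length) (Er A f hl w))
    (Lf (Qr A w.length) (epsr A w.length)) (Qr A w.length * epsr A w.length) (epsr A w.length)

end Pool.Agent.H28.PCP
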