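import Mathlib
import Pool.Agent.H28.PCP.Defs

set_option autoImplicit false

/-!
# Basic lemmas (used by several modules; fully proved)
-/

namespace Pool.Agent.H28.PCP

theorem pos_cnt (β ε : ℕ) (h : ε ≤ β) (X : ℕ → Bool) (T : ℕ) :
    pos β ε X T + ε * cnt X T = β * T := by
  induction T with
  | zero => simp [pos, cnt]
  | succ T ih =>
    simp only [pos, cnt]
    by_cases hX : X T = true
    · simp only [hX, if_true]
      have : ε * (cnt X T + 1) = ε * cnt X T + ε := by ring
      rw [this, Nat.mul_succ]
      omega
    · simp only [hX, if_neg, Bool.false_eq_true, not_false_eq_true]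
      rw [Nat.mul_succ]
      simp only [add_zero]
      omega

theorem len_cnt (L : ℕ) (hL : 1 ≤ L) (X : ℕ → Bool) (T : ℕ) :
    len L X T = T + (L - 1) * cnt X T := by
  induction T with
  | zero => simp [len, cnt]
  | succ T ih =>
    simp only [len, cnt]
    by_cases hX : X T = true
    · simp only [hX, if_true]
      have : (L - 1) * (cnt X T + 1) = (L - 1) * cnt X T + (L - 1) := by ring
      rw [this]
      omega
    · simp only [hX, Bool.false_eq_true, if_false, add_zero]
      omega

theorem len_mono (L : ℕ) (X : ℕ → Bool) {T T' : ℕ} (h : T ≤ T') : len L X T ≤ len L X T' := by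
  induction h with
  | refl => exact le_rfl
  | step _ ih => exact ih.trans (by simp [len])

theorem pos_mono (β ε : ℕ) (X : ℕ → Bool) {T T' : ℕ} (h : T ≤ T') :
    pos β ε X T ≤ pos β ε X T' := by
  induction h with
  | refl => exact le_rfl
  | step _ ih => exact ih.trans (by simp [pos])

theorem cnt_mono (X : ℕ → Bool) {T T' : ℕ} (h : T ≤ T') : cnt X T ≤ cnt X T' := by
  induction h with
  | refl => exact le_rfl
  | step _ ih => exact ih.trans (by simp [cnt])

/-! ## Scans -/

theorem sc_append (Q : ℕ) (e : ℕ → Bool) (c : ℕ) (l₁ l₂ : List ℕ) :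
    sc Q e c (l₁ ++ l₂) = sc Q e c l₁ ++ sc Q e (c + (sc Q e c l₁).length) l₂ := by
  induction l₁ generalizing c with
  | nil => simp [sc]
  | cons j l ih =>
    by_cases h : e j = true ∧ j % Q = c % Q
    · simp only [List.cons_append, sc, if_pos h, ih, List.length_cons]
      congr 3
      omega
    · simp only [List.cons_append, sc, if_neg h, ih]

theorem sc_nil_of (Q : ℕ) (e : ℕ → Bool) (c : ℕ) (l : List ℕ)
    (h : ∀ j ∈ l, ¬ (e j = true ∧ j % Q = c % Q)) : sc Q e c l = [] := by
  induction l with
  | nil => rfl
  | cons j l ih =>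
    rw [sc, if_neg (h j (by simp))]
    exact ih fun j' hj' => h j' (by simp [hj'])

theorem sc_sublist (Q : ℕ) (e : ℕ → Bool) (c : ℕ) (l : List ℕ) : (sc Q e c l).Sublist l := by
  induction l generalizing c with
  | nil => exact List.Sublist.refl _
  | cons j l ih =>
    by_cases h : e j = true ∧ j % Q = c % Q
    · rw [sc, if_pos h]
      exact (ih (c + 1)).cons_cons j
    · rw [sc, if_neg h]
      exact (ih c).cons j

end Pool.Agent.H28.PCP
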