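import Mathlib
import Pool.Agent.H28.PCP.Basic

set_option autoImplicit false

/-!
# TA: scanning block by block (fully proved)

`outs (Q*m) Q e c` is the concatenation of the scans of the blocks `b < m`, block `b` being the
slots `Q*b+q`, `q < Q`.
-/

namespace Pool.Agent.H28.PCP

/-- the slots of block `b` -/
def blk (Q b : ℕ) : List ℕ := (List.range Q).map (fun q => Q * b + q)

/-- scan of the blocks `x, x+1, ..., x+k-1` -/
def scB (Q : ℕ) (e : ℕ → Bool) (c x : ℕ) : ℕ → List ℕ
  | 0 => []
  | k + 1 => sc Q e c (blk Q x) ++ scB Q e (c + (sc Q e c (blk Q x)).length) (x + 1) k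

theorem scB_add (Q : ℕ) (e : ℕ → Bool) (c x k l : ℕ) :
    scB Q e c x (k + l) =
      scB Q e c x k ++ scB Q e (c + (scB Q e c x k).length) (x + k) l := by
  induction k generalizing c x with
  | zero => simp [scB]
  | succ k ih =>
    rw [Nat.succ_add, scB, ih, scB, List.append_assoc, List.length_append]
    congr 3 <;> omega

theorem scB_one (Q : ℕ) (e : ℕ → Bool) (c x : ℕ) : scB Q e c x 1 = sc Q e c (blk Q x) := by
  simp [scB]

theorem sc_flatMap (Q : ℕ) (e : ℕ → Bool) (c x k : ℕ) :
    sc Q e c ((List.range' x k).flatMap (blk Q)) = scB Q e c x k := by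
  induction k generalizing c x with
  | zero => simp [scB, sc]
  | succ k ih =>
    rw [List.range'_succ, List.flatMap_cons, sc_append, ih, scB]

theorem range_mul (Q m : ℕ) : List.range (Q * m) = (List.range m).flatMap (blk Q) := by
  induction m with
  | zero => simp
  | succ m ih =>
    rw [Nat.mul_succ, List.range_add, ih, List.range_succ, List.flatMap_append]
    simp [blk]

theorem outs_eq_scB (Q m : ℕ) (e : ℕ → Bool) (c : ℕ) :
    outs (Q * m) Q e c = scB Q e c 0 m := by
  rw [outs, range_mul, List.range_eq_range', sc_flatMap]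

/-- a block without matches -/
theorem sc_blk_nil (Q : ℕ) (e : ℕ → Bool) (c b : ℕ) (hQ : 0 < Q)
    (h : e (Q * b + c % Q) = false) : sc Q e c (blk Q b) = [] := by
  apply sc_nil_of
  intro j hj
  simp only [blk, List.mem_map, List.mem_range] at hj
  obtain ⟨q, hq, rfl⟩ := hj
  rintro ⟨h1, h2⟩
  rw [Nat.mul_add_mod, Nat.mod_eq_of_lt hq] at h2
  rw [← h2, h1] at h
  exact Bool.noConfusion h

/-- several blocks without matches -/
theorem scB_nil (Q : ℕ) (e : ℕ → Bool) (c x k : ℕ) (hQ : 0 < Q)
    (h : ∀ b, x ≤ b → b < x + k → e (Q * b + c % Q) = false) : scB Q e c x k = [] := by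
  induction k generalizing x with
  | zero => rfl
  | succ k ih =>
    have h0 : sc Q e c (blk Q x) = [] := sc_blk_nil Q e c x hQ (h x le_rfl (by omega))
    rw [scB, h0]
    simp only [List.nil_append, List.length_nil, add_zero]
    exact ih (x + 1) fun b h1 h2 => h b (by omega) (by omega)

/-- scan of a run of consecutive slots of a block that all match successively -/
theorem sc_run (Q : ℕ) (e : ℕ → Bool) (c b p k : ℕ) (hp : p = c % Q) (hk : p + k ≤ Q)
    (he : ∀ q, p ≤ q → q < p + k → e (Q * b + q) = true) :
    sc Q e c ((List.range' p k).map (fun q => Q * b + q)) =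
      (List.range' p k).map (fun q => Q * b + q) := by
  induction k generalizing c p with
  | zero => simp [sc]
  | succ k ih =>
    rw [List.range'_succ, List.map_cons, sc, if_pos]
    · by_cases hk0 : k = 0
      · subst hk0; simp [sc]
      · rw [ih (c + 1) (p + 1) _ (by omega) fun q h1 h2 => he q (by omega) (by omega)]
        have hlt : p + 1 < Q := by omega
        rw [Nat.add_mod, ← hp, Nat.mod_eq_of_lt (a := 1) (by omega), Nat.mod_eq_of_lt hlt]
    · refine ⟨he p le_rfl (by omega), ?_⟩
      rw [Nat.mul_add_mod, ← hp, Nat.mod_eq_of_lt (by omega)]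

theorem sc_nomatch (Q : ℕ) (e : ℕ → Bool) (c b p k : ℕ)
    (he : ∀ q, p ≤ q → q < p + k → e (Q * b + q) = true → q % Q ≠ c % Q) :
    sc Q e c ((List.range' p k).map (fun q => Q * b + q)) = [] := by
  apply sc_nil_of
  intro j hj
  simp only [List.mem_map, List.mem_range'_1] at hj
  obtain ⟨q, hq, rfl⟩ := hj
  rintro ⟨h1, h2⟩
  rw [Nat.mul_add_mod] at h2
  exact he q hq.1 (by omega) h1 h2

/-- **block scan**: at level `p = c % Q` the block pushes the slots `p, p+1, ..., hi-1` when
`e` is true on `[p, hi)` and false at `hi` (or `hi = Q`). -/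
theorem sc_blk_run (Q : ℕ) (e : ℕ → Bool) (c b p hi : ℕ) (hp : p = c % Q) (hpi : p < hi)
    (hiQ : hi ≤ Q) (he : ∀ q, p ≤ q → q < hi → e (Q * b + q) = true)
    (hend : hi < Q → e (Q * b + hi) = false) :
    sc Q e c (blk Q b) = (List.range' p (hi - p)).map (fun q => Q * b + q) := by
  have hsplit : List.range Q = List.range' 0 p ++ (List.range' p (hi - p) ++
      List.range' hi (Q - hi)) := by
    rw [List.range_eq_range']
    have e1 : Q = p + ((hi - p) + (Q - hi)) := by omega
    conv_lhs => rw [e1]
    rw [← List.range'_append_1, ← List.range'_append_1]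
    congr 3 <;> omega
  rw [blk, hsplit, List.map_append, List.map_append, sc_append, sc_append]
  have hc1 : sc Q e c ((List.range' 0 p).map (fun q => Q * b + q)) = [] := by
    apply sc_nomatch
    intro q h1 h2 _
    rw [← hp, Nat.mod_eq_of_lt (by omega)]
    omega
  rw [hc1]
  simp only [List.nil_append, List.length_nil, add_zero]
  have hc2 := sc_run Q e c b p (hi - p) hp (by omega) fun q h1 h2 => he q h1 (by omega)
  rw [hc2]
  have hc3 : sc Q e (c + ((List.range' p (hi - p)).map (fun q => Q * b + q)).length)
      ((List.range' hi (Q - hi)).map (fun q => Q * b + q)) = [] := by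
    apply sc_nomatch
    intro q h1 h2 h3 h4
    rw [List.length_map, List.length_range'] at h4
    rw [Nat.mod_eq_of_lt (by omega : q < Q)] at h4
    have hQ0 : 0 < Q := by omega
    have h5 : (c + (hi - p)) % Q = hi % Q := by
      rw [Nat.add_mod, ← hp, Nat.add_mod_mod]
      congr 1
      omega
    rw [h5] at h4
    by_cases h6 : hi < Q
    · rw [Nat.mod_eq_of_lt h6] at h4
      subst h4
      rw [hend h6] at h3
      exact Bool.noConfusion h3
    · omega
  rw [hc3, List.append_nil]

end Pool.Agent.H28.PCP
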