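import Mathlib
import Pool.Agent.H28.PCP.TA

set_option autoImplicit false

/-!
# Module TB1: what the symbols D_a and the end marker push

`Q = Qr A n = 2A+4+n`, `n = w.length`, `Jr A n = Q * (2A+9)`; reader slot `r`, `r / Q` = its block;
`c % Q` = level.  Use `outs_eq_scB`, split `2A+9` blocks at the relevant blocks with `scB_add`,
skip blocks without matches with `scB_nil`, and evaluate the relevant ones with `sc_blk_run` /
`sc_blk_nil`.  After pushing `k` slots the queue length is `c + k`.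

D_a (`a` not halting) at level `2s`, `s < A`: block `1+A+a` pushes the single slot with level `2s`
(level becomes `2s+1`, odd); block `2A+1` (`q' ≥ 2A`): no match; block `2A+2` (`1 ≤ q' < Q-1`):
pushes levels `2s+1 .. Q-2`; block `2A+3` (`q' < 2A`): no match at `Q-1`; block `2A+4` (`q' = Q-1`):
one push, level becomes 0; block `2A+5` (`q' < 2a`): levels `0 .. 2a-1`; then nothing.
At level `2A`: block `1+A+a` no match; `2A+1`: levels `2A .. Q-1`, level becomes 0; `2A+2` no match
at 0; `2A+3`: `0 .. 2A-1`; `2A+4`, `2A+5`: no match at level `2A`.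
D_a halting at level `2s`: block `2A+1` pushes `2s .. Q-1`, block `2A+3` pushes `0 .. 2A-1`.
The end marker (block `2A+6`): like D_a, with `2A+3`: `q' < 2A+2`, and `2A+5`: `q' < 2A`.
-/

namespace Pool.Agent.H28.PCP

theorem skipB (Q : ℕ) (e : ℕ → Bool) (c x k l : ℕ) (hQ : 0 < Q)
    (h : ∀ b, x ≤ b → b < x + k → e (Q * b + c % Q) = false) :
    scB Q e c x (k + l) = scB Q e c (x + k) l := by
  rw [scB_add, scB_nil Q e c x k hQ h]
  simp

theorem runB (Q : ℕ) (e : ℕ → Bool) (c x p hi l : ℕ) (hp : p = c % Q) (hpi : p < hi)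
    (hiQ : hi ≤ Q) (he : ∀ q, p ≤ q → q < hi → e (Q * x + q) = true)
    (hend : hi < Q → e (Q * x + hi) = false) :
    scB Q e c x (l + 1) = (List.range' p (hi - p)).map (fun q => Q * x + q) ++
      scB Q e (c + (hi - p)) (x + 1) l := by
  rw [scB, sc_blk_run Q e c x p hi hp hpi hiQ he hend]
  simp

theorem mod_step (Q c p k : ℕ) (hp : c % Q = p) (hk : p + k < Q) : (c + k) % Q = p + k := by
  rw [Nat.add_mod, hp, Nat.add_mod_mod, Nat.mod_eq_of_lt hk]

theorem mod_wrap (Q c p k : ℕ) (hp : c % Q = p) (hk : p + k = Q) : (c + k) % Q = 0 := by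
  rw [Nat.add_mod, hp, Nat.add_mod_mod, hk, Nat.mod_self]

theorem Er_slot (A : ℕ) (f : ℕ → ℕ → ℕ) (hl : ℕ → Bool) (w : List ℕ) (r b q : ℕ)
    (hq : q < Qr A w.length) :
    Er A f hl w r (Qr A w.length * b + q) =
      rule A f hl w (r / Qr A w.length) (r % Qr A w.length) b q := by
  have h0 : 0 < Qr A w.length := by omega
  rw [Er, Nat.mul_add_div h0, Nat.div_eq_of_lt hq, Nat.mul_add_mod, Nat.mod_eq_of_lt hq, add_zero]

theorem isNull_blk (A n b q : ℕ) (hq : q < Qr A n) (h1 : 2 * A + 1 ≤ b) (h2 : b ≠ 2 * A + 6)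
    (h3 : b < 2 * A + 9) : IsNull A n (Qr A n * b + q) := by
  have h0 : 0 < Qr A n := by omega
  have hd : (Qr A n * b + q) / Qr A n = b := by
    rw [Nat.mul_add_div h0, Nat.div_eq_of_lt hq, add_zero]
  rw [IsNull, hd]
  exact ⟨h1, h2, h3⟩

theorem isNull_run (A n b p k x : ℕ) (hk : p + k ≤ Qr A n) (h1 : 2 * A + 1 ≤ b)
    (h2 : b ≠ 2 * A + 6) (h3 : b < 2 * A + 9)
    (hx : x ∈ (List.range' p k).map (fun q => Qr A n * b + q)) : IsNull A n x := by
  rw [List.mem_map] at hx
  obtain ⟨q, hq, rfl⟩ := hx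
  rw [List.mem_range'_1] at hq
  exact isNull_blk A n b q (by omega) h1 h2 h3

theorem Er_D (A : ℕ) (f : ℕ → ℕ → ℕ) (hl : ℕ → Bool) (w : List ℕ) (r a b q : ℕ)
    (haA : a < A) (hr : r / Qr A w.length = 1 + a) (hh : hl a = false)
    (hq : q < Qr A w.length) :
    Er A f hl w r (Qr A w.length * b + q) =
      decide ((b = A + (1 + a) ∧ q % 2 = 0 ∧ q < 2 * A) ∨ (b = 2 * A + 1 ∧ 2 * A ≤ q) ∨
        (b = 2 * A + 2 ∧ 1 ≤ q ∧ q < Qr A w.length - 1) ∨ (b = 2 * A + 3 ∧ q < 2 * A) ∨
        (b = 2 * A + 4 ∧ q = Qr A w.length - 1) ∨ (b = 2 * A + 5 ∧ q < 2 * a)) := by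
  rw [Er_slot A f hl w r b q hq, hr, rule]
  have h1 : ¬ (1 + a = 0) := by omega
  have h2 : 1 + a ≤ A := by omega
  have h3 : 1 + a - 1 = a := by omega
  simp only [h1, h2, h3, hh, if_true, if_false, Bool.false_eq_true]

theorem outs_null (A : ℕ) (f : ℕ → ℕ → ℕ) (hl : ℕ → Bool) (w : List ℕ) (r c : ℕ)
    (hr : IsNull A w.length r) :
    outs (Jr A w.length) (Qr A w.length) (Er A f hl w r) c = [] := by
  apply sc_nil_of
  intro j _
  rintro ⟨h, _⟩
  obtain ⟨h1, h2, h3⟩ := hr
  rw [Er, rule] at h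
  have e0 : ¬ (r / Qr A w.length = 0) := by omega
  have e1 : ¬ (r / Qr A w.length ≤ A) := by omega
  have e2 : ¬ (r / Qr A w.length < 1 + 2 * A) := by omega
  simp only [e0, e1, h2, e2, if_false] at h
  by_cases e3 : r / Qr A w.length = 1 + A
  · have e4 : ¬ (r % Qr A w.length < 2 * A) := by omega
    simp [e3, e4] at h
  · simp [e3] at h

theorem outs_D (A : ℕ) (f : ℕ → ℕ → ℕ) (hl : ℕ → Bool) (w : List ℕ) (r c a s : ℕ)
    (ha1 : 1 ≤ a) (haA : a < A) (hr : r / Qr A w.length = 1 + a) (hh : hl a = false)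
    (hs : s < A) (hc : c % Qr A w.length = 2 * s) :
    ∃ nl : List ℕ, outs (Jr A w.length) (Qr A w.length) (Er A f hl w r) c
        = (Qr A w.length * (1 + A + a) + 2 * s) :: nl ∧
      (∀ x ∈ nl, IsNull A w.length x) ∧ nl.length + 1 + 2 * s = Qr A w.length + 2 * a := by
  have hQ : Qr A w.length = 2 * A + 4 + w.length := rfl
  have hE := fun b q hq => Er_D A f hl w r a b q haA hr hh hq
  have hn := isNull_run A w.length
  rw [Jr, outs_eq_scB]
  generalize Er A f hl w r = e at hE ⊢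
  generalize Qr A w.length = Q at hQ hE hc hn ⊢
  -- blocks 0 .. A + a
  have e1 : 2 * A + 9 = (1 + A + a) + ((A - 1 - a) + 8 + 1) := by omega
  rw [e1, skipB Q e c 0 (1 + A + a) _ (by omega)]
  swap
  · intro b _ hb
    rw [hE b _ (by omega), decide_eq_false_iff_not]
    omega
  -- block 1 + A + a
  rw [runB Q e c _ (2 * s) (2 * s + 1) _ hc.symm (by omega) (by omega)]
  rotate_left
  · intro q h1 h2
    rw [hE _ q (by omega), decide_eq_true_eq]
    omega
  · intro h1
    rw [hE _ _ h1, decide_eq_false_iff_not]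
    omega
  have hl1 : 2 * s + 1 - 2 * s = 1 := by omega
  have hc1 : (c + 1) % Q = 2 * s + 1 := mod_step Q c _ 1 hc (by omega)
  rw [hl1]
  -- blocks up to 2A+1
  have e2 : (A - 1 - a) + 8 = (A - a) + (6 + 1) := by omega
  rw [e2, skipB Q e (c + 1) _ (A - a) _ (by omega)]
  swap
  · intro b hb1 hb
    rw [hE b _ (by omega), decide_eq_false_iff_not]
    omega
  have e3 : 0 + (1 + A + a) + 1 + (A - a) = 2 * A + 2 := by omega
  rw [e3]
  -- block 2A+2
  rw [runB Q e (c + 1) _ (2 * s + 1) (Q - 1) _ hc1.symm (by omega) (by omega)]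
  rotate_left
  · intro q h1 h2
    rw [hE _ q (by omega), decide_eq_true_eq]
    omega
  · intro h1
    rw [hE _ _ h1, decide_eq_false_iff_not]
    omega
  have hc2 : (c + 1 + (Q - 1 - (2 * s + 1))) % Q = Q - 1 := by
    rw [mod_step Q (c + 1) _ _ hc1 (by omega)]
    omega
  -- block 2A+3
  have e4 : (6 : ℕ) = 1 + (4 + 1) := rfl
  rw [e4, skipB Q e _ _ 1 _ (by omega)]
  swap
  · intro b hb1 hb
    rw [hE b _ (by omega), decide_eq_false_iff_not]
    omega
  have e5 : 2 * A + 2 + 1 + 1 = 2 * A + 4 := by omega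
  rw [e5]
  -- block 2A+4
  rw [runB Q e _ _ (Q - 1) Q _ hc2.symm (by omega) (by omega)]
  rotate_left
  · intro q h1 h2
    rw [hE _ q (by omega), decide_eq_true_eq]
    omega
  · intro h1
    omega
  have hc3 : (c + 1 + (Q - 1 - (2 * s + 1)) + (Q - (Q - 1))) % Q = 0 :=
    mod_wrap Q _ _ _ hc2 (by omega)
  -- block 2A+5
  have e6 : (4 : ℕ) = 3 + 1 := rfl
  rw [e6, runB Q e _ _ 0 (2 * a) _ hc3.symm (by omega) (by omega)]
  rotate_left
  · intro q h1 h2
    rw [hE _ q (by omega), decide_eq_true_eq]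
    omega
  · intro h1
    rw [hE _ _ h1, decide_eq_false_iff_not]
    omega
  rw [scB_nil Q e _ _ 3 (by omega)]
  swap
  · intro b hb1 hb
    rw [hE b _ (Nat.mod_lt _ (by omega)), decide_eq_false_iff_not]
    omega
  refine ⟨(List.range' (2 * s + 1) (Q - 1 - (2 * s + 1))).map (fun q => Q * (2 * A + 2) + q) ++
    ((List.range' (Q - 1) (Q - (Q - 1))).map (fun q => Q * (2 * A + 4) + q) ++
      (List.range' 0 (2 * a - 0)).map (fun q => Q * (2 * A + 4 + 1) + q)), ?_, ?_, ?_⟩
  · simp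
  · intro x hx
    rw [List.mem_append, List.mem_append] at hx
    rcases hx with hx | hx | hx
    · exact hn _ _ _ x (by omega) (by omega) (by omega) (by omega) hx
    · exact hn _ _ _ x (by omega) (by omega) (by omega) (by omega) hx
    · exact hn _ _ _ x (by omega) (by omega) (by omega) (by omega) hx
  · simp only [List.length_append, List.length_map, List.length_range']
    omega

theorem outs_D_kill (A : ℕ) (f : ℕ → ℕ → ℕ) (hl : ℕ → Bool) (w : List ℕ) (r c a : ℕ)
    (ha1 : 1 ≤ a) (haA : a < A) (hr : r / Qr A w.length = 1 + a) (hh : hl a = false)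
    (hc : c % Qr A w.length = 2 * A) :
    (∀ x ∈ outs (Jr A w.length) (Qr A w.length) (Er A f hl w r) c, IsNull A w.length x) ∧
      (outs (Jr A w.length) (Qr A w.length) (Er A f hl w r) c).length = Qr A w.length := by
  have hQ : Qr A w.length = 2 * A + 4 + w.length := rfl
  have hE := fun b q hq => Er_D A f hl w r a b q haA hr hh hq
  have hn := isNull_run A w.length
  rw [Jr, outs_eq_scB]
  generalize Er A f hl w r = e at hE ⊢
  generalize Qr A w.length = Q at hQ hE hc hn ⊢
  have e1 : 2 * A + 9 = (2 * A + 1) + (7 + 1) := by omega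
  rw [e1, skipB Q e c 0 (2 * A + 1) _ (by omega)]
  swap
  · intro b _ hb
    rw [hE b _ (by omega), decide_eq_false_iff_not]
    omega
  have e2 : 0 + (2 * A + 1) = 2 * A + 1 := by omega
  rw [e2, runB Q e c _ (2 * A) Q _ hc.symm (by omega) (by omega)]
  rotate_left
  · intro q h1 h2
    rw [hE _ q (by omega), decide_eq_true_eq]
    omega
  · intro h1
    omega
  have hc1 : (c + (Q - 2 * A)) % Q = 0 := mod_wrap Q _ _ _ hc (by omega)
  have e3 : (7 : ℕ) = 1 + (5 + 1) := rfl
  rw [e3, skipB Q e _ _ 1 _ (by omega)]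
  swap
  · intro b hb1 hb
    rw [hE b _ (by omega), decide_eq_false_iff_not]
    omega
  have e4 : 2 * A + 1 + 1 + 1 = 2 * A + 3 := by omega
  rw [e4, runB Q e _ _ 0 (2 * A) _ hc1.symm (by omega) (by omega)]
  rotate_left
  · intro q h1 h2
    rw [hE _ q (by omega), decide_eq_true_eq]
    omega
  · intro h1
    rw [hE _ _ h1, decide_eq_false_iff_not]
    omega
  have hc2 : (c + (Q - 2 * A) + (2 * A - 0)) % Q = 2 * A := by
    rw [mod_step Q _ 0 _ hc1 (by omega)]
    omega
  rw [scB_nil Q e _ _ 5 (by omega)]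
  swap
  · intro b hb1 hb
    rw [hE b _ (Nat.mod_lt _ (by omega)), decide_eq_false_iff_not, hc2]
    omega
  refine ⟨?_, ?_⟩
  · intro x hx
    rw [List.append_nil, List.mem_append] at hx
    rcases hx with hx | hx
    · exact hn _ _ _ x (by omega) (by omega) (by omega) (by omega) hx
    · exact hn _ _ _ x (by omega) (by omega) (by omega) (by omega) hx
  · simp only [List.length_append, List.length_map, List.length_range', List.append_nil]
    omega

end Pool.Agent.H28.PCP
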