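import Mathlib
import Pool.Agent.H28.PCP.TB1

set_option autoImplicit false

/-!
# Module TB2: what the tokens P_a push

See module TB1 for the method.  Reader slot `r = Q*(1+A+a) + 2s` (so `r / Q = 1+A+a`, `r % Q = 2s`),
`p = 2A - 2s ≥ 2`.
`a ≥ 1`, level `p`: block `1 + f s a` (`≤ A`, before all other relevant blocks) pushes the slot with
level `p`; block `2A+1` (`q' ≥ p+2`): no match at `p+1`; `2A+2` (`p+1 ≤ q' < Q-1`): `p+1 .. Q-2`;
`2A+3` (`q' < p+2`): no match at `Q-1`; `2A+4`: one push at `Q-1`; `2A+5` (`q' < p`): `0 .. p-1`.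
`a ≥ 1`, level `p+2`: block `1 + f s a`: no match; `2A+1`: `p+2 .. Q-1`; `2A+2`: no match at 0;
`2A+3`: `0 .. p+1`; `2A+4`, `2A+5`: no match at `p+2`.
`a = 0`, level `p`: block `1 + f s 1`: slot with level `p`; `2A+1`: `p+1 .. Q-1`; `2A+3`: `0 .. p-1`;
`2A+6`: slot with level `p`; `2A+7`: `p+1 .. Q-1`; `2A+8`: `0 .. p-1`.
-/

namespace Pool.Agent.H28.PCP

theorem Er_P (A : ℕ) (f : ℕ → ℕ → ℕ) (hl : ℕ → Bool) (w : List ℕ) (a s b q : ℕ)
    (ha1 : 1 ≤ a) (haA : a < A) (hs : s < A) (hq : q < Qr A w.length) :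
    Er A f hl w (Qr A w.length * (1 + A + a) + 2 * s) (Qr A w.length * b + q) =
      decide ((b = 1 + f s a ∧ q = 2 * A - 2 * s) ∨
        (b = 2 * A + 1 ∧ 2 * A - 2 * s + 2 ≤ q) ∨
        (b = 2 * A + 2 ∧ 2 * A - 2 * s + 1 ≤ q ∧ q < Qr A w.length - 1) ∨
        (b = 2 * A + 3 ∧ q < 2 * A - 2 * s + 2) ∨ (b = 2 * A + 4 ∧ q = Qr A w.length - 1) ∨
        (b = 2 * A + 5 ∧ q < 2 * A - 2 * s)) := by
  have hQ : Qr A w.length = 2 * A + 4 + w.length := rfl
  have h2s : 2 * s < Qr A w.length := by omega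
  rw [Er_slot A f hl w _ b q hq, Nat.mul_add_div (by omega), Nat.div_eq_of_lt h2s,
    Nat.mul_add_mod, Nat.mod_eq_of_lt h2s, rule]
  have h1 : ¬ (1 + A + a + 0 = 0) := by omega
  have h2 : ¬ (1 + A + a + 0 ≤ A) := by omega
  have h3 : ¬ (1 + A + a + 0 = 2 * A + 6) := by omega
  have h4 : ¬ (1 + A + a + 0 = 1 + A) := by omega
  have h5 : 1 + A + a + 0 < 1 + 2 * A := by omega
  have h6 : 2 * s < 2 * A := by omega
  have h7 : 1 + A + a + 0 - 1 - A = a := by omega
  have h8 : 2 * s / 2 = s := by omega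
  simp only [h1, h2, h3, h4, h5, h6, h7, h8, if_true, if_false]

theorem Er_P0 (A : ℕ) (f : ℕ → ℕ → ℕ) (hl : ℕ → Bool) (w : List ℕ) (s b q : ℕ)
    (hs : s < A) (hq : q < Qr A w.length) :
    Er A f hl w (Qr A w.length * (1 + A) + 2 * s) (Qr A w.length * b + q) =
      decide ((b = 1 + f s 1 ∧ q = 2 * A - 2 * s) ∨ (b = 2 * A + 1 ∧ 2 * A - 2 * s + 1 ≤ q) ∨
        (b = 2 * A + 3 ∧ q < 2 * A - 2 * s) ∨ (b = 2 * A + 6 ∧ q = 2 * A - 2 * s) ∨
        (b = 2 * A + 7 ∧ 2 * A - 2 * s + 1 ≤ q) ∨ (b = 2 * A + 8 ∧ q < 2 * A - 2 * s)) := by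
  have hQ : Qr A w.length = 2 * A + 4 + w.length := rfl
  have h2s : 2 * s < Qr A w.length := by omega
  rw [Er_slot A f hl w _ b q hq, Nat.mul_add_div (by omega), Nat.div_eq_of_lt h2s,
    Nat.mul_add_mod, Nat.mod_eq_of_lt h2s, rule]
  have h1 : ¬ (1 + A + 0 = 0) := by omega
  have h2 : ¬ (1 + A + 0 ≤ A) := by omega
  have h3 : ¬ (1 + A + 0 = 2 * A + 6) := by omega
  have h4 : 1 + A + 0 = 1 + A := by omega
  have h6 : 2 * s < 2 * A := by omega
  have h8 : 2 * s / 2 = s := by omega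
  rw [if_neg h1, if_neg h2, if_neg h3, if_pos h4, if_pos h6, h8]

theorem outs_P (A : ℕ) (f : ℕ → ℕ → ℕ) (hl : ℕ → Bool) (w : List ℕ) (c a s : ℕ)
    (ha1 : 1 ≤ a) (haA : a < A) (hs : s < A) (hf1 : 1 ≤ f s a) (hf2 : f s a < A)
    (hc : c % Qr A w.length = 2 * A - 2 * s) :
    ∃ nl : List ℕ, outs (Jr A w.length) (Qr A w.length)
        (Er A f hl w (Qr A w.length * (1 + A + a) + 2 * s)) c
        = (Qr A w.length * (1 + f s a) + (2 * A - 2 * s)) :: nl ∧
      (∀ x ∈ nl, IsNull A w.length x) ∧ nl.length + 1 = Qr A w.length := by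
  have hQ : Qr A w.length = 2 * A + 4 + w.length := rfl
  have hE := fun b q hq => Er_P A f hl w a s b q ha1 haA hs hq
  have hn := isNull_run A w.length
  rw [Jr, outs_eq_scB]
  generalize Er A f hl w (Qr A w.length * (1 + A + a) + 2 * s) = e at hE ⊢
  generalize Qr A w.length = Q at hQ hE hc hn ⊢
  obtain ⟨g, hg⟩ : ∃ g, f s a = g := ⟨_, rfl⟩
  rw [hg] at hf1 hf2 hE ⊢
  obtain ⟨p, hp⟩ : ∃ p, 2 * A - 2 * s = p := ⟨_, rfl⟩
  rw [hp] at hc hE ⊢
  have hp2 : 2 ≤ p := by omega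
  have hp3 : p ≤ 2 * A := by omega
  have e1 : 2 * A + 9 = (1 + g) + ((2 * A - g) + 7 + 1) := by omega
  rw [e1, skipB Q e c 0 (1 + g) _ (by omega)]
  swap
  · intro b _ hb
    rw [hE b _ (by omega), decide_eq_false_iff_not]
    omega
  rw [runB Q e c _ p (p + 1) _ hc.symm (by omega) (by omega)]
  rotate_left
  · intro q h1 h2
    rw [hE _ q (by omega), decide_eq_true_eq]
    omega
  · intro h1
    rw [hE _ _ h1, decide_eq_false_iff_not]
    omega
  have hl1 : p + 1 - p = 1 := by omega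
  have hc1 : (c + 1) % Q = p + 1 := mod_step Q c _ 1 hc (by omega)
  rw [hl1]
  -- up to block 2A+1
  have e2 : (2 * A - g) + 7 = (2 * A - g) + (6 + 1) := by omega
  rw [e2, skipB Q e (c + 1) _ (2 * A - g) _ (by omega)]
  swap
  · intro b hb1 hb
    rw [hE b _ (by omega), decide_eq_false_iff_not]
    omega
  have e3 : 0 + (1 + g) + 1 + (2 * A - g) = 2 * A + 2 := by omega
  rw [e3, runB Q e (c + 1) _ (p + 1) (Q - 1) _ hc1.symm (by omega) (by omega)]
  rotate_left
  · intro q h1 h2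
    rw [hE _ q (by omega), decide_eq_true_eq]
    omega
  · intro h1
    rw [hE _ _ h1, decide_eq_false_iff_not]
    omega
  have hc2 : (c + 1 + (Q - 1 - (p + 1))) % Q = Q - 1 := by
    rw [mod_step Q (c + 1) _ _ hc1 (by omega)]
    omega
  have e4 : (6 : ℕ) = 1 + (4 + 1) := rfl
  rw [e4, skipB Q e _ _ 1 _ (by omega)]
  swap
  · intro b hb1 hb
    rw [hE b _ (by omega), decide_eq_false_iff_not]
    omega
  have e5 : 2 * A + 2 + 1 + 1 = 2 * A + 4 := by omega
  rw [e5]
  rw [runB Q e _ _ (Q - 1) Q _ hc2.symm (by omega) (by omega)]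
  rotate_left
  · intro q h1 h2
    rw [hE _ q (by omega), decide_eq_true_eq]
    omega
  · intro h1
    omega
  have hc3 : (c + 1 + (Q - 1 - (p + 1)) + (Q - (Q - 1))) % Q = 0 :=
    mod_wrap Q _ _ _ hc2 (by omega)
  have e6 : (4 : ℕ) = 3 + 1 := rfl
  rw [e6, runB Q e _ _ 0 p _ hc3.symm (by omega) (by omega)]
  rotate_left
  · intro q h1 h2
    rw [hE _ q (by omega), decide_eq_true_eq]
    omega
  · intro h1
    rw [hE _ _ h1, decide_eq_false_iff_not]
    omega
  rw [scB_nil Q e _ _ 3 (by omega)]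
  swap
  · intro b hb1 hb
    rw [hE b _ (Nat.mod_lt _ (by omega)), decide_eq_false_iff_not]
    omega
  refine ⟨(List.range' (p + 1) (Q - 1 - (p + 1))).map (fun q => Q * (2 * A + 2) + q) ++
    ((List.range' (Q - 1) (Q - (Q - 1))).map (fun q => Q * (2 * A + 4) + q) ++
      (List.range' 0 (p - 0)).map (fun q => Q * (2 * A + 4 + 1) + q)), ?_, ?_, ?_⟩
  · simp
  · intro x hx
    rw [List.mem_append, List.mem_append] at hx
    rcases hx with hx | hx | hx
    · exact hn _ _ _ x (by omega) (by omega) (by omega) (by omega) hx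
    · exact hn _ _ _ x (by omega) (by omega) (by omega) (by omega) hx
    · exact hn _ _ _ x (by omega) (by omega) (by omega) (by omega) hx
  · simp only [List.length_append, List.length_map, List.length_range']
    omega

theorem outs_P_kill (A : ℕ) (f : ℕ → ℕ → ℕ) (hl : ℕ → Bool) (w : List ℕ) (c a s : ℕ)
    (ha1 : 1 ≤ a) (haA : a < A) (hs : s < A) (hf1 : 1 ≤ f s a) (hf2 : f s a < A)
    (hc : c % Qr A w.length = 2 * A + 2 - 2 * s) :
    (∀ x ∈ outs (Jr A w.length) (Qr A w.length)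
        (Er A f hl w (Qr A w.length * (1 + A + a) + 2 * s)) c, IsNull A w.length x) ∧
      (outs (Jr A w.length) (Qr A w.length)
        (Er A f hl w (Qr A w.length * (1 + A + a) + 2 * s)) c).length = Qr A w.length := by
  have hQ : Qr A w.length = 2 * A + 4 + w.length := rfl
  have hE := fun b q hq => Er_P A f hl w a s b q ha1 haA hs hq
  have hn := isNull_run A w.length
  rw [Jr, outs_eq_scB]
  generalize Er A f hl w (Qr A w.length * (1 + A + a) + 2 * s) = e at hE ⊢
  generalize Qr A w.length = Q at hQ hE hc hn ⊢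
  obtain ⟨g, hg⟩ : ∃ g, f s a = g := ⟨_, rfl⟩
  rw [hg] at hf1 hf2 hE
  obtain ⟨p, hp⟩ : ∃ p, 2 * A - 2 * s = p := ⟨_, rfl⟩
  rw [hp] at hE
  have hc' : c % Q = p + 2 := by omega
  have hp2 : 2 ≤ p := by omega
  have hp3 : p ≤ 2 * A := by omega
  have e1 : 2 * A + 9 = (2 * A + 1) + (7 + 1) := by omega
  rw [e1, skipB Q e c 0 (2 * A + 1) _ (by omega)]
  swap
  · intro b _ hb
    rw [hE b _ (by omega), decide_eq_false_iff_not]
    omega
  rcases Nat.lt_or_eq_of_le (show p + 2 ≤ Q by omega) with hpQ | hpQ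
  · rw [runB Q e c _ (p + 2) Q _ hc'.symm (by omega) (by omega)]
    rotate_left
    · intro q h1 h2
      rw [hE _ q (by omega), decide_eq_true_eq]
      omega
    · intro h1
      omega
    have hc1 : (c + (Q - (p + 2))) % Q = 0 := mod_wrap Q c _ _ hc' (by omega)
    have e4 : (7 : ℕ) = 1 + (5 + 1) := rfl
    rw [e4, skipB Q e _ _ 1 _ (by omega)]
    swap
    · intro b hb1 hb
      rw [hE b _ (by omega), decide_eq_false_iff_not]
      omega
    have e5 : 0 + (2 * A + 1) + 1 + 1 = 2 * A + 3 := by omega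
    rw [e5, runB Q e _ _ 0 (p + 2) _ hc1.symm (by omega) (by omega)]
    rotate_left
    · intro q h1 h2
      rw [hE _ q (by omega), decide_eq_true_eq]
      omega
    · intro h1
      rw [hE _ _ h1, decide_eq_false_iff_not]
      omega
    have hc2 : (c + (Q - (p + 2)) + (p + 2 - 0)) % Q = p + 2 := by
      rw [mod_step Q _ _ _ hc1 (by omega)]
      omega
    rw [scB_nil Q e _ _ 5 (by omega)]
    swap
    · intro b hb1 hb
      rw [hE b _ (Nat.mod_lt _ (by omega)), hc2, decide_eq_false_iff_not]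
      omega
    constructor
    · intro x hx
      rw [List.append_nil, List.mem_append] at hx
      rcases hx with hx | hx
      · exact hn _ _ _ x (by omega) (by omega) (by omega) (by omega) hx
      · exact hn _ _ _ x (by omega) (by omega) (by omega) (by omega) hx
    · simp only [List.length_append, List.length_map, List.length_range', List.append_nil]
      omega
  · omega

theorem outs_P0 (A : ℕ) (f : ℕ → ℕ → ℕ) (hl : ℕ → Bool) (w : List ℕ) (c s : ℕ)
    (hs : s < A) (hf1 : 1 ≤ f s 1) (hf2 : f s 1 < A)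
    (hc : c % Qr A w.length = 2 * A - 2 * s) :
    ∃ nl₁ nl₂ : List ℕ, outs (Jr A w.length) (Qr A w.length)
        (Er A f hl w (Qr A w.length * (1 + A) + 2 * s)) c
        = (Qr A w.length * (1 + f s 1) + (2 * A - 2 * s)) :: nl₁ ++
          (Qr A w.length * (2 * A + 6) + (2 * A - 2 * s)) :: nl₂ ∧
      (∀ x ∈ nl₁, IsNull A w.length x) ∧ nl₁.length + 1 = Qr A w.length ∧
      (∀ x ∈ nl₂, IsNull A w.length x) ∧ nl₂.length + 1 = Qr A w.length := by
  have hQ : Qr A w.length = 2 * A + 4 + w.length := rfl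
  have hE := fun b q hq => Er_P0 A f hl w s b q hs hq
  have hn := isNull_run A w.length
  rw [Jr, outs_eq_scB]
  generalize Er A f hl w (Qr A w.length * (1 + A) + 2 * s) = e at hE ⊢
  generalize Qr A w.length = Q at hQ hE hc hn ⊢
  obtain ⟨g, hg⟩ : ∃ g, f s 1 = g := ⟨_, rfl⟩
  rw [hg] at hf1 hf2 hE ⊢
  obtain ⟨p, hp⟩ : ∃ p, 2 * A - 2 * s = p := ⟨_, rfl⟩
  rw [hp] at hc hE ⊢
  have hp2 : 2 ≤ p := by omega
  have hp3 : p ≤ 2 * A := by omega
  have e1 : 2 * A + 9 = (1 + g) + ((2 * A - 1 - g) + 8 + 1) := by omega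
  rw [e1, skipB Q e c 0 (1 + g) _ (by omega)]
  swap
  · intro b _ hb
    rw [hE b _ (by omega), decide_eq_false_iff_not]
    omega
  rw [runB Q e c _ p (p + 1) _ hc.symm (by omega) (by omega)]
  rotate_left
  · intro q h1 h2
    rw [hE _ q (by omega), decide_eq_true_eq]
    omega
  · intro h1
    rw [hE _ _ h1, decide_eq_false_iff_not]
    omega
  have hl1 : p + 1 - p = 1 := by omega
  have hc1 : (c + 1) % Q = p + 1 := mod_step Q c _ 1 hc (by omega)
  rw [hl1]
  have e2 : (2 * A - 1 - g) + 8 = (2 * A - 1 - g) + (7 + 1) := by omega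
  rw [e2, skipB Q e (c + 1) _ (2 * A - 1 - g) _ (by omega)]
  swap
  · intro b hb1 hb
    rw [hE b _ (by omega), decide_eq_false_iff_not]
    omega
  have e3 : 0 + (1 + g) + 1 + (2 * A - 1 - g) = 2 * A + 1 := by omega
  rw [e3, runB Q e (c + 1) _ (p + 1) Q _ hc1.symm (by omega) (by omega)]
  rotate_left
  · intro q h1 h2
    rw [hE _ q (by omega), decide_eq_true_eq]
    omega
  · intro h1
    omega
  have hc2 : (c + 1 + (Q - (p + 1))) % Q = 0 := mod_wrap Q _ _ _ hc1 (by omega)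
  -- block 2A+2
  have e4 : (7 : ℕ) = 1 + (5 + 1) := rfl
  rw [e4, skipB Q e _ _ 1 _ (by omega)]
  swap
  · intro b hb1 hb
    rw [hE b _ (by omega), decide_eq_false_iff_not]
    omega
  have e5 : 2 * A + 1 + 1 + 1 = 2 * A + 3 := by omega
  rw [e5, runB Q e _ _ 0 p _ hc2.symm (by omega) (by omega)]
  rotate_left
  · intro q h1 h2
    rw [hE _ q (by omega), decide_eq_true_eq]
    omega
  · intro h1
    rw [hE _ _ h1, decide_eq_false_iff_not]
    omega
  have hc3 : (c + 1 + (Q - (p + 1)) + (p - 0)) % Q = p := by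
    rw [mod_step Q _ _ _ hc2 (by omega)]
    omega
  -- blocks 2A+4, 2A+5
  have e6 : (5 : ℕ) = 2 + (2 + 1) := rfl
  rw [e6, skipB Q e _ _ 2 _ (by omega)]
  swap
  · intro b hb1 hb
    rw [hE b _ (by omega), decide_eq_false_iff_not]
    omega
  have e7 : 2 * A + 3 + 1 + 2 = 2 * A + 6 := by omega
  rw [e7, runB Q e _ _ p (p + 1) _ hc3.symm (by omega) (by omega)]
  rotate_left
  · intro q h1 h2
    rw [hE _ q (by omega), decide_eq_true_eq]
    omega
  · intro h1
    rw [hE _ _ h1, decide_eq_false_iff_not]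
    omega
  have hc4 : (c + 1 + (Q - (p + 1)) + (p - 0) + (p + 1 - p)) % Q = p + 1 := by
    rw [mod_step Q _ _ _ hc3 (by omega)]
    omega
  have e8 : (2 : ℕ) = 1 + 1 := rfl
  rw [e8, runB Q e _ _ (p + 1) Q _ hc4.symm (by omega) (by omega)]
  rotate_left
  · intro q h1 h2
    rw [hE _ q (by omega), decide_eq_true_eq]
    omega
  · intro h1
    omega
  have hc5 : (c + 1 + (Q - (p + 1)) + (p - 0) + (p + 1 - p) + (Q - (p + 1))) % Q = 0 :=
    mod_wrap Q _ _ _ hc4 (by omega)
  have e9 : (1 : ℕ) = 0 + 1 := rfl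
  rw [e9, runB Q e _ _ 0 p _ hc5.symm (by omega) (by omega)]
  rotate_left
  · intro q h1 h2
    rw [hE _ q (by omega), decide_eq_true_eq]
    omega
  · intro h1
    rw [hE _ _ h1, decide_eq_false_iff_not]
    omega
  refine ⟨(List.range' (p + 1) (Q - (p + 1))).map (fun q => Q * (2 * A + 1) + q) ++
      (List.range' 0 (p - 0)).map (fun q => Q * (2 * A + 3) + q),
    (List.range' (p + 1) (Q - (p + 1))).map (fun q => Q * (2 * A + 6 + 1) + q) ++
      (List.range' 0 (p - 0)).map (fun q => Q * (2 * A + 6 + 1 + 1) + q), ?_, ?_, ?_, ?_, ?_⟩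
  · simp [scB]
  · intro x hx
    rw [List.mem_append] at hx
    rcases hx with hx | hx
    · exact hn _ _ _ x (by omega) (by omega) (by omega) (by omega) hx
    · exact hn _ _ _ x (by omega) (by omega) (by omega) (by omega) hx
  · simp only [List.length_append, List.length_map, List.length_range']
    omega
  · intro x hx
    rw [List.mem_append] at hx
    rcases hx with hx | hx
    · exact hn _ _ _ x (by omega) (by omega) (by omega) (by omega) hx
    · exact hn _ _ _ x (by omega) (by omega) (by omega) (by omega) hx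
  · simp only [List.length_append, List.length_map, List.length_range']
    omega

end Pool.Agent.H28.PCP
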