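import Mathlib
import Pool.Agent.H28.PCP.TB1

set_option autoImplicit false

/-!
# Module TB3: the boot tokens

See module TB1 for the method.  Slot 0 (start), read at queue length 1: block 0 pushes the slots
`1, ..., n+1` (rule `1 ≤ q' < n+2`, `n+2 < Q`), nothing else.
Slot `q` (`1 ≤ q ≤ n`, block 0) read at level `p = n+2-q`: block `1 + w[q-1]` pushes the slot with
level `p`; block `2A+1` (`q' ≥ p+1`): `p+1 .. Q-1`; block `2A+3` (`q' < p`): `0 .. p-1`.
Slot `n+1` at level 1: block `2A+6`: slot with level 1; `2A+7`: `2 .. Q-1`; `2A+8`: level 0.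
-/

namespace Pool.Agent.H28.PCP

theorem Er_slot0 (A : ℕ) (f : ℕ → ℕ → ℕ) (hl : ℕ → Bool) (w : List ℕ) (r b q : ℕ)
    (hr : r < Qr A w.length) (hq : q < Qr A w.length) :
    Er A f hl w r (Qr A w.length * b + q) = rule A f hl w 0 r b q := by
  rw [Er_slot A f hl w r b q hq, Nat.div_eq_of_lt hr, Nat.mod_eq_of_lt hr]

theorem outs_start (A : ℕ) (f : ℕ → ℕ → ℕ) (hl : ℕ → Bool) (w : List ℕ) :
    outs (Jr A w.length) (Qr A w.length) (Er A f hl w 0) 1 = List.range' 1 (w.length + 1) := by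
  have hQ : Qr A w.length = 2 * A + 4 + w.length := rfl
  have hE : ∀ b q, q < Qr A w.length → Er A f hl w 0 (Qr A w.length * b + q) =
      decide (b = 0 ∧ 1 ≤ q ∧ q < w.length + 2) := by
    intro b q hq
    rw [Er_slot0 A f hl w 0 b q (by omega) hq, rule]
    simp only [if_true]
  rw [Jr, outs_eq_scB]
  generalize Er A f hl w 0 = e at hE ⊢
  generalize Qr A w.length = Q at hQ hE ⊢
  have hc : 1 % Q = 1 := Nat.mod_eq_of_lt (by omega)
  have e1 : 2 * A + 9 = (2 * A + 8) + 1 := by omega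
  rw [e1, runB Q e 1 0 1 (w.length + 2) _ hc.symm (by omega) (by omega)]
  rotate_left
  · intro q h1 h2
    rw [hE _ q (by omega), decide_eq_true_eq]
    omega
  · intro h1
    rw [hE _ _ h1, decide_eq_false_iff_not]
    omega
  rw [scB_nil Q e _ _ (2 * A + 8) (by omega)]
  swap
  · intro b hb1 hb
    rw [hE b _ (Nat.mod_lt _ (by omega)), decide_eq_false_iff_not]
    omega
  have e2 : w.length + 2 - 1 = w.length + 1 := by omega
  rw [e2]
  simp

theorem outs_boot (A : ℕ) (f : ℕ → ℕ → ℕ) (hl : ℕ → Bool) (w : List ℕ) (c q : ℕ)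
    (h : q < w.length) (hw1 : 1 ≤ w[q]) (hwA : w[q] < A)
    (hc : c % Qr A w.length = w.length + 1 - q) :
    ∃ nl : List ℕ, outs (Jr A w.length) (Qr A w.length) (Er A f hl w (q + 1)) c
        = (Qr A w.length * (1 + w[q]) + (w.length + 1 - q)) :: nl ∧
      (∀ x ∈ nl, IsNull A w.length x) ∧ nl.length + 1 = Qr A w.length := by
  have hQ : Qr A w.length = 2 * A + 4 + w.length := rfl
  have hg : w.getD q 1 = w[q] := by simp [h]
  have hE : ∀ b q', q' < Qr A w.length → Er A f hl w (q + 1) (Qr A w.length * b + q') =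
      decide ((b = 1 + w[q] ∧ q' = w.length + 2 - (q + 1)) ∨
        (b = 2 * A + 1 ∧ w.length + 2 - (q + 1) + 1 ≤ q') ∨
        (b = 2 * A + 3 ∧ q' < w.length + 2 - (q + 1))) := by
    intro b q' hq
    rw [Er_slot0 A f hl w (q + 1) b q' (by omega) hq, rule]
    have h1 : ¬ (q + 1 = 0) := by omega
    have h2 : q + 1 ≤ w.length := by omega
    have h3 : q + 1 - 1 = q := by omega
    simp only [if_true, h1, h2, h3, if_false, hg]
  have hn := isNull_run A w.length
  rw [Jr, outs_eq_scB]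
  generalize Er A f hl w (q + 1) = e at hE ⊢
  generalize Qr A w.length = Q at hQ hE hc hn ⊢
  generalize w[q] = v at hw1 hwA hE ⊢
  obtain ⟨p, hp⟩ : ∃ p, p = w.length + 1 - q := ⟨_, rfl⟩
  rw [← hp] at hc ⊢
  have e1 : 2 * A + 9 = (1 + v) + ((2 * A - 1 - v) + 8 + 1) := by omega
  rw [e1, skipB Q e c 0 (1 + v) _ (by omega)]
  swap
  · intro b _ hb
    rw [hE b _ (by omega), decide_eq_false_iff_not]
    omega
  rw [runB Q e c _ p (p + 1) _ hc.symm (by omega) (by omega)]
  rotate_left
  · intro q' h1 h2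
    rw [hE _ q' (by omega), decide_eq_true_eq]
    omega
  · intro h1
    rw [hE _ _ h1, decide_eq_false_iff_not]
    omega
  have hl1 : p + 1 - p = 1 := by omega
  have hc1 : (c + 1) % Q = p + 1 := mod_step Q c _ 1 hc (by omega)
  rw [hl1]
  rw [show (2 * A - 1 - v) + 8 = (2 * A - 1 - v) + (7 + 1) from rfl,
    skipB Q e (c + 1) _ (2 * A - 1 - v) _ (by omega)]
  swap
  · intro b hb1 hb
    rw [hE b _ (by omega), decide_eq_false_iff_not]
    omega
  have e3 : 0 + (1 + v) + 1 + (2 * A - 1 - v) = 2 * A + 1 := by omega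
  rw [e3, runB Q e (c + 1) _ (p + 1) Q _ hc1.symm (by omega) (by omega)]
  rotate_left
  · intro q' h1 h2
    rw [hE _ q' (by omega), decide_eq_true_eq]
    omega
  · intro h1
    omega
  have hc2 : (c + 1 + (Q - (p + 1))) % Q = 0 := mod_wrap Q _ _ _ hc1 (by omega)
  rw [show (7 : ℕ) = 1 + (5 + 1) from rfl, skipB Q e _ _ 1 _ (by omega)]
  swap
  · intro b hb1 hb
    rw [hE b _ (by omega), decide_eq_false_iff_not]
    omega
  have e4 : 2 * A + 1 + 1 + 1 = 2 * A + 3 := by omega
  rw [e4, runB Q e _ _ 0 p _ hc2.symm (by omega) (by omega)]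
  rotate_left
  · intro q' h1 h2
    rw [hE _ q' (by omega), decide_eq_true_eq]
    omega
  · intro h1
    rw [hE _ _ h1, decide_eq_false_iff_not]
    omega
  rw [scB_nil Q e _ _ 5 (by omega)]
  swap
  · intro b hb1 hb
    rw [hE b _ (Nat.mod_lt _ (by omega)), decide_eq_false_iff_not]
    omega
  refine ⟨(List.range' (p + 1) (Q - (p + 1))).map (fun q => Q * (2 * A + 1) + q) ++
    (List.range' 0 (p - 0)).map (fun q => Q * (2 * A + 3) + q), ?_, ?_, ?_⟩
  · simp
  · intro x hx
    rw [List.mem_append] at hx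
    rcases hx with hx | hx
    · exact hn _ _ _ x (by omega) (by omega) (by omega) (by omega) hx
    · exact hn _ _ _ x (by omega) (by omega) (by omega) (by omega) hx
  · simp only [List.length_append, List.length_map, List.length_range']
    omega

theorem outs_boot_last (A : ℕ) (f : ℕ → ℕ → ℕ) (hl : ℕ → Bool) (w : List ℕ) (c : ℕ)
    (hA : 1 ≤ A) (hc : c % Qr A w.length = 1) :
    ∃ nl : List ℕ, outs (Jr A w.length) (Qr A w.length) (Er A f hl w (w.length + 1)) c
        = (Qr A w.length * (2 * A + 6) + 1) :: nl ∧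
      (∀ x ∈ nl, IsNull A w.length x) ∧ nl.length + 1 = Qr A w.length := by
  have hQ : Qr A w.length = 2 * A + 4 + w.length := rfl
  have hE : ∀ b q', q' < Qr A w.length → Er A f hl w (w.length + 1) (Qr A w.length * b + q') =
      decide ((b = 2 * A + 6 ∧ q' = 1) ∨ (b = 2 * A + 7 ∧ 2 ≤ q') ∨
        (b = 2 * A + 8 ∧ q' < 1)) := by
    intro b q' hq
    rw [Er_slot0 A f hl w (w.length + 1) b q' (by omega) hq, rule]
    have h1 : ¬ (w.length + 1 = 0) := by omega
    have h2 : ¬ (w.length + 1 ≤ w.length) := by omega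
    simp only [if_true, h1, h2, if_false]
  have hn := isNull_run A w.length
  rw [Jr, outs_eq_scB]
  generalize Er A f hl w (w.length + 1) = e at hE ⊢
  generalize Qr A w.length = Q at hQ hE hc hn ⊢
  have e1 : 2 * A + 9 = (2 * A + 6) + (2 + 1) := by omega
  rw [e1, skipB Q e c 0 (2 * A + 6) _ (by omega)]
  swap
  · intro b _ hb
    rw [hE b _ (by omega), decide_eq_false_iff_not]
    omega
  have e2 : 0 + (2 * A + 6) = 2 * A + 6 := by omega
  rw [e2, runB Q e c _ 1 2 _ hc.symm (by omega) (by omega)]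
  rotate_left
  · intro q' h1 h2
    rw [hE _ q' (by omega), decide_eq_true_eq]
    omega
  · intro h1
    rw [hE _ _ h1, decide_eq_false_iff_not]
    omega
  have hl1 : 2 - 1 = 1 := rfl
  have hc1 : (c + 1) % Q = 2 := mod_step Q c _ 1 hc (by omega)
  rw [hl1, show (2 : ℕ) * A + 6 + 1 = 2 * A + 7 from rfl]
  rw [show scB Q e (c + 1) (2 * A + 7) 2 = scB Q e (c + 1) (2 * A + 7) (1 + 1) from rfl,
    runB Q e (c + 1) _ 2 Q _ hc1.symm (by omega) (by omega)]
  rotate_left
  · intro q' h1 h2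
    rw [hE _ q' (by omega), decide_eq_true_eq]
    omega
  · intro h1
    omega
  have hc2 : (c + 1 + (Q - 2)) % Q = 0 := mod_wrap Q _ _ _ hc1 (by omega)
  rw [show scB Q e (c + 1 + (Q - 2)) (2 * A + 7 + 1) 1 =
    scB Q e (c + 1 + (Q - 2)) (2 * A + 7 + 1) (0 + 1) from rfl,
    runB Q e _ _ 0 1 _ hc2.symm (by omega) (by omega)]
  rotate_left
  · intro q' h1 h2
    rw [hE _ q' (by omega), decide_eq_true_eq]
    omega
  · intro h1
    rw [hE _ _ h1, decide_eq_false_iff_not]
    omega
  refine ⟨(List.range' 2 (Q - 2)).map (fun q => Q * (2 * A + 7) + q) ++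
    (List.range' 0 (1 - 0)).map (fun q => Q * (2 * A + 7 + 1) + q), ?_, ?_, ?_⟩
  · simp [scB]
  · intro x hx
    rw [List.mem_append] at hx
    rcases hx with hx | hx
    · exact hn _ _ _ x (by omega) (by omega) (by omega) (by omega) hx
    · exact hn _ _ _ x (by omega) (by omega) (by omega) (by omega) hx
  · simp only [List.length_append, List.length_map, List.length_range']
    omega

end Pool.Agent.H28.PCP
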