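import Mathlib
import Pool.Agent.H28.PCP.TB1

set_option autoImplicit false

/-!
# Module TB4 (same header as TB1): what the symbols D_a and the end marker push

`Q = Qr A n = 2A+4+n`, `n = w.length`, `Jr A n = Q * (2A+9)`; reader slot `r`, `r / Q` = its block;
`c % Q` = level.  Use `outs_eq_scB`, split `2A+9` blocks at the relevant blocks with `scB_add`,
skip blocks without matches with `scB_nil`, and evaluate the relevant ones with `sc_blk_run` /
`sc_blk_nil`.  After pushing `k` slots the queue length is `c + k`.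

D_a (`a` not halting) at level `2s`, `s < A`: block `1+A+a` pushes the single slot with level `2s`
(level becomes `2s+1`, odd); block `2A+1` (`q' ≥ 2A`): no match; block `2A+2` (`1 ≤ q' < Q-1`):
pushes levels `2s+1 .. Q-2`; block `2A+3` (`q' < 2A`): no match at `Q-1`; block `2A+4` (`q' = Q-1`):
one push, level becomes 0; block `2A+5` (`q' < 2a`): levels `0 .. 2a-1`; then nothing.
At level `2A`: block `1+A+a` no match; `2A+1`: levels `2A .. Q-1`, level becomes 0; `2A+2` no match
at 0; `2A+3`: `0 .. 2A-1`; `2A+4`, `2A+5`: no match at level `2A`.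
D_a halting at level `2s`: block `2A+1` pushes `2s .. Q-1`, block `2A+3` pushes `0 .. 2A-1`.
The end marker (block `2A+6`): like D_a, with `2A+3`: `q' < 2A+2`, and `2A+5`: `q' < 2A`.
-/

namespace Pool.Agent.H28.PCP

theorem Er_D_halt (A : ℕ) (f : ℕ → ℕ → ℕ) (hl : ℕ → Bool) (w : List ℕ) (r a b q : ℕ)
    (haA : a < A) (hr : r / Qr A w.length = 1 + a) (hh : hl a = true)
    (hq : q < Qr A w.length) :
    Er A f hl w r (Qr A w.length * b + q) =
      decide (b = 2 * A + 1 ∨ (b = 2 * A + 3 ∧ q < 2 * A)) := by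
  rw [Er_slot A f hl w r b q hq, hr, rule]
  have h1 : ¬ (1 + a = 0) := by omega
  have h2 : 1 + a ≤ A := by omega
  have h3 : 1 + a - 1 = a := by omega
  simp only [h1, h2, h3, hh, if_true, if_false]

theorem Er_H (A : ℕ) (f : ℕ → ℕ → ℕ) (hl : ℕ → Bool) (w : List ℕ) (r b q : ℕ)
    (hr : r / Qr A w.length = 2 * A + 6) (hq : q < Qr A w.length) :
    Er A f hl w r (Qr A w.length * b + q) =
      decide ((b = 1 + A ∧ q % 2 = 0 ∧ q < 2 * A) ∨ (b = 2 * A + 1 ∧ 2 * A ≤ q) ∨
      (b = 2 * A + 2 ∧ 1 ≤ q ∧ q < Qr A w.length - 1) ∨ (b = 2 * A + 3 ∧ q < 2 * A + 2) ∨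
      (b = 2 * A + 4 ∧ q = Qr A w.length - 1) ∨ (b = 2 * A + 5 ∧ q < 2 * A)) := by
  rw [Er_slot A f hl w r b q hq, hr, rule]
  have h1 : ¬ (2 * A + 6 = 0) := by omega
  have h2 : ¬ (2 * A + 6 ≤ A) := by omega
  simp only [h1, h2, if_true, if_false]

theorem outs_D_halt (A : ℕ) (f : ℕ → ℕ → ℕ) (hl : ℕ → Bool) (w : List ℕ) (r c a s : ℕ)
    (ha1 : 1 ≤ a) (haA : a < A) (hr : r / Qr A w.length = 1 + a) (hh : hl a = true)
    (hs : s ≤ A) (hc : c % Qr A w.length = 2 * s) :
    (∀ x ∈ outs (Jr A w.length) (Qr A w.length) (Er A f hl w r) c, IsNull A w.length x) ∧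
      (outs (Jr A w.length) (Qr A w.length) (Er A f hl w r) c).length + 2 * s
        = Qr A w.length + 2 * A := by
  have hQ : Qr A w.length = 2 * A + 4 + w.length := rfl
  have hE := fun b q hq => Er_D_halt A f hl w r a b q haA hr hh hq
  have hn := isNull_run A w.length
  rw [Jr, outs_eq_scB]
  generalize Er A f hl w r = e at hE ⊢
  generalize Qr A w.length = Q at hQ hE hc hn ⊢
  have e1 : 2 * A + 9 = (2 * A + 1) + (7 + 1) := by omega
  rw [e1, skipB Q e c 0 (2 * A + 1) _ (by omega)]
  swap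
  · intro b _ hb
    rw [hE b _ (by omega), decide_eq_false_iff_not]
    omega
  rw [runB Q e c _ (2 * s) Q _ hc.symm (by omega) (by omega)]
  rotate_left
  · intro q h1 h2
    rw [hE _ q (by omega), decide_eq_true_eq]
    omega
  · intro h1
    omega
  have hc1 : (c + (Q - 2 * s)) % Q = 0 := mod_wrap Q c _ _ hc (by omega)
  have e4 : (7 : ℕ) = 1 + (5 + 1) := rfl
  rw [e4, skipB Q e _ _ 1 _ (by omega)]
  swap
  · intro b hb1 hb
    rw [hE b _ (by omega), decide_eq_false_iff_not]
    omega
  have e5 : 0 + (2 * A + 1) + 1 + 1 = 2 * A + 3 := by omega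
  rw [e5, runB Q e _ _ 0 (2 * A) _ hc1.symm (by omega) (by omega)]
  rotate_left
  · intro q h1 h2
    rw [hE _ q (by omega), decide_eq_true_eq]
    omega
  · intro h1
    rw [hE _ _ h1, decide_eq_false_iff_not]
    omega
  rw [scB_nil Q e _ _ 5 (by omega)]
  swap
  · intro b hb1 hb
    rw [hE b _ (Nat.mod_lt _ (by omega)), decide_eq_false_iff_not]
    omega
  constructor
  · intro x hx
    rw [List.append_nil, List.mem_append] at hx
    rcases hx with hx | hx
    · exact hn _ _ _ x (by omega) (by omega) (by omega) (by omega) hx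
    · exact hn _ _ _ x (by omega) (by omega) (by omega) (by omega) hx
  · simp only [List.length_append, List.length_map, List.length_range', List.append_nil]
    omega

theorem outs_H (A : ℕ) (f : ℕ → ℕ → ℕ) (hl : ℕ → Bool) (w : List ℕ) (r c s : ℕ)
    (hr : r / Qr A w.length = 2 * A + 6) (hs : s < A) (hc : c % Qr A w.length = 2 * s) :
    ∃ nl : List ℕ, outs (Jr A w.length) (Qr A w.length) (Er A f hl w r) c
        = (Qr A w.length * (1 + A) + 2 * s) :: nl ∧
      (∀ x ∈ nl, IsNull A w.length x) ∧ nl.length + 1 + 2 * s = Qr A w.length + 2 * A := by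
  have hQ : Qr A w.length = 2 * A + 4 + w.length := rfl
  have hE := fun b q hq => Er_H A f hl w r b q hr hq
  have hn := isNull_run A w.length
  rw [Jr, outs_eq_scB]
  generalize Er A f hl w r = e at hE ⊢
  generalize Qr A w.length = Q at hQ hE hc hn ⊢
  -- blocks 0 .. A
  have e1 : 2 * A + 9 = (1 + A) + ((A - 1) + 8 + 1) := by omega
  rw [e1, skipB Q e c 0 (1 + A) _ (by omega)]
  swap
  · intro b _ hb
    rw [hE b _ (by omega), decide_eq_false_iff_not]
    omega
  -- block 1 + A
  rw [runB Q e c _ (2 * s) (2 * s + 1) _ hc.symm (by omega) (by omega)]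
  rotate_left
  · intro q h1 h2
    rw [hE _ q (by omega), decide_eq_true_eq]
    omega
  · intro h1
    rw [hE _ _ h1, decide_eq_false_iff_not]
    omega
  have hl1 : 2 * s + 1 - 2 * s = 1 := by omega
  have hc1 : (c + 1) % Q = 2 * s + 1 := mod_step Q c _ 1 hc (by omega)
  rw [hl1]
  -- blocks up to 2A+1
  have e2 : (A - 1) + 8 = A + (6 + 1) := by omega
  rw [e2, skipB Q e (c + 1) _ A _ (by omega)]
  swap
  · intro b hb1 hb
    rw [hE b _ (by omega), decide_eq_false_iff_not]
    omega
  have e3 : 0 + (1 + A) + 1 + A = 2 * A + 2 := by omega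
  rw [e3]
  -- block 2A+2
  rw [runB Q e (c + 1) _ (2 * s + 1) (Q - 1) _ hc1.symm (by omega) (by omega)]
  rotate_left
  · intro q h1 h2
    rw [hE _ q (by omega), decide_eq_true_eq]
    omega
  · intro h1
    rw [hE _ _ h1, decide_eq_false_iff_not]
    omega
  have hc2 : (c + 1 + (Q - 1 - (2 * s + 1))) % Q = Q - 1 := by
    rw [mod_step Q (c + 1) _ _ hc1 (by omega)]
    omega
  -- block 2A+3
  have e4 : (6 : ℕ) = 1 + (4 + 1) := rfl
  rw [e4, skipB Q e _ _ 1 _ (by omega)]
  swap
  · intro b hb1 hb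
    rw [hE b _ (by omega), decide_eq_false_iff_not]
    omega
  have e5 : 2 * A + 2 + 1 + 1 = 2 * A + 4 := by omega
  rw [e5]
  -- block 2A+4
  rw [runB Q e _ _ (Q - 1) Q _ hc2.symm (by omega) (by omega)]
  rotate_left
  · intro q h1 h2
    rw [hE _ q (by omega), decide_eq_true_eq]
    omega
  · intro h1
    omega
  have hc3 : (c + 1 + (Q - 1 - (2 * s + 1)) + (Q - (Q - 1))) % Q = 0 :=
    mod_wrap Q _ _ _ hc2 (by omega)
  -- block 2A+5
  have e6 : (4 : ℕ) = 3 + 1 := rfl
  rw [e6, runB Q e _ _ 0 (2 * A) _ hc3.symm (by omega) (by omega)]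
  rotate_left
  · intro q h1 h2
    rw [hE _ q (by omega), decide_eq_true_eq]
    omega
  · intro h1
    rw [hE _ _ h1, decide_eq_false_iff_not]
    omega
  rw [scB_nil Q e _ _ 3 (by omega)]
  swap
  · intro b hb1 hb
    rw [hE b _ (Nat.mod_lt _ (by omega)), decide_eq_false_iff_not]
    omega
  refine ⟨(List.range' (2 * s + 1) (Q - 1 - (2 * s + 1))).map (fun q => Q * (2 * A + 2) + q) ++
    ((List.range' (Q - 1) (Q - (Q - 1))).map (fun q => Q * (2 * A + 4) + q) ++
      (List.range' 0 (2 * A - 0)).map (fun q => Q * (2 * A + 4 + 1) + q)), ?_, ?_, ?_⟩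
  · simp
  · intro x hx
    rw [List.mem_append, List.mem_append] at hx
    rcases hx with hx | hx | hx
    · exact hn _ _ _ x (by omega) (by omega) (by omega) (by omega) hx
    · exact hn _ _ _ x (by omega) (by omega) (by omega) (by omega) hx
    · exact hn _ _ _ x (by omega) (by omega) (by omega) (by omega) hx
  · simp only [List.length_append, List.length_map, List.length_range']
    omega

theorem outs_H_kill (A : ℕ) (f : ℕ → ℕ → ℕ) (hl : ℕ → Bool) (w : List ℕ) (r c : ℕ)
    (hr : r / Qr A w.length = 2 * A + 6) (hA : 1 ≤ A) (hc : c % Qr A w.length = 2 * A) :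
    (∀ x ∈ outs (Jr A w.length) (Qr A w.length) (Er A f hl w r) c, IsNull A w.length x) ∧
      (outs (Jr A w.length) (Qr A w.length) (Er A f hl w r) c).length
        = Qr A w.length + 2 := by
  have hQ : Qr A w.length = 2 * A + 4 + w.length := rfl
  have hE := fun b q hq => Er_H A f hl w r b q hr hq
  have hn := isNull_run A w.length
  rw [Jr, outs_eq_scB]
  generalize Er A f hl w r = e at hE ⊢
  generalize Qr A w.length = Q at hQ hE hc hn ⊢
  have e1 : 2 * A + 9 = (2 * A + 1) + (7 + 1) := by omega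
  rw [e1, skipB Q e c 0 (2 * A + 1) _ (by omega)]
  swap
  · intro b _ hb
    rw [hE b _ (by omega), decide_eq_false_iff_not]
    omega
  rw [runB Q e c _ (2 * A) Q _ hc.symm (by omega) (by omega)]
  rotate_left
  · intro q h1 h2
    rw [hE _ q (by omega), decide_eq_true_eq]
    omega
  · intro h1
    omega
  have hc1 : (c + (Q - 2 * A)) % Q = 0 := mod_wrap Q c _ _ hc (by omega)
  have e4 : (7 : ℕ) = 1 + (5 + 1) := rfl
  rw [e4, skipB Q e _ _ 1 _ (by omega)]
  swap
  · intro b hb1 hb
    rw [hE b _ (by omega), decide_eq_false_iff_not]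
    omega
  have e5 : 0 + (2 * A + 1) + 1 + 1 = 2 * A + 3 := by omega
  rw [e5, runB Q e _ _ 0 (2 * A + 2) _ hc1.symm (by omega) (by omega)]
  rotate_left
  · intro q h1 h2
    rw [hE _ q (by omega), decide_eq_true_eq]
    omega
  · intro h1
    rw [hE _ _ h1, decide_eq_false_iff_not]
    omega
  have hc2 : (c + (Q - 2 * A) + (2 * A + 2 - 0)) % Q = 2 * A + 2 := by
    rw [mod_step Q _ _ _ hc1 (by omega)]
    omega
  rw [scB_nil Q e _ _ 5 (by omega)]
  swap
  · intro b hb1 hb
    rw [hE b _ (Nat.mod_lt _ (by omega)), hc2, decide_eq_false_iff_not]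
    omega
  constructor
  · intro x hx
    rw [List.append_nil, List.mem_append] at hx
    rcases hx with hx | hx
    · exact hn _ _ _ x (by omega) (by omega) (by omega) (by omega) hx
    · exact hn _ _ _ x (by omega) (by omega) (by omega) (by omega) hx
  · simp only [List.length_append, List.length_map, List.length_range', List.append_nil]
    omega

end Pool.Agent.H28.PCP
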