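import Mathlib
import Pool.Agent.H28.PCP.TB1
import Pool.Agent.H28.PCP.TB2
import Pool.Agent.H28.PCP.TB3
import Pool.Agent.H28.PCP.TB4

set_option autoImplicit false

/-!
# TC: macro steps of the ring program (definitions; the lemmas here are fully proved)
-/

namespace Pool.Agent.H28.PCP

/-- `q` leads to `q'` in `k` steps, all of them valid and with nonempty queue -/
def Rch (J Q lam : ℕ) (E : ℕ → ℕ → Bool) (k : ℕ) (q q' : List Tok) : Prop :=
  (stepQ J Q E)^[k] q = q' ∧
    ∀ i < k, OK J Q lam E ((stepQ J Q E)^[i] q) ∧ (stepQ J Q E)^[i] q ≠ []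

theorem Rch.refl (J Q lam : ℕ) (E : ℕ → ℕ → Bool) (q : List Tok) : Rch J Q lam E 0 q q :=
  ⟨rfl, fun i hi => absurd hi (Nat.not_lt_zero i)⟩

theorem Rch.trans {J Q lam : ℕ} {E : ℕ → ℕ → Bool} {k l : ℕ} {q q' q'' : List Tok}
    (h1 : Rch J Q lam E k q q') (h2 : Rch J Q lam E l q' q'') : Rch J Q lam E (k + l) q q'' := by
  refine ⟨?_, fun i hi => ?_⟩
  · rw [Nat.add_comm, Function.iterate_add_apply, h1.1, h2.1]
  · by_cases h : i < k
    · exact h1.2 i h
    · obtain ⟨j, rfl⟩ : ∃ j, i = k + j := ⟨i - k, by omega⟩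
      rw [Nat.add_comm k j, Function.iterate_add_apply, h1.1]
      exact h2.2 j (by omega)

/-- one step -/
theorem Rch.single {J Q lam : ℕ} {E : ℕ → ℕ → Bool} {t : Tok} {r : List Tok}
    (h : OK J Q lam E (t :: r)) :
    Rch J Q lam E 1 (t :: r) (r ++ push J Q E t (r.length + 1)) := by
  refine ⟨rfl, fun i hi => ?_⟩
  have : i = 0 := by omega
  subst this
  exact ⟨h, by simp⟩

/-- reading tokens that push nothing -/
theorem Rch.nulls {J Q lam : ℕ} {E : ℕ → ℕ → Bool} (r rest : List Tok)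
    (h : ∀ x ∈ r, ∀ c, outs J Q (E x.sl) c = []) :
    Rch J Q lam E r.length (r ++ rest) rest := by
  induction r with
  | nil => exact Rch.refl J Q lam E rest
  | cons t r ih =>
    have hp : ∀ c, push J Q E t c = [] := by
      intro c
      rw [push, h t (by simp) c]
      rfl
    have h1 : Rch J Q lam E 1 (t :: (r ++ rest)) ((r ++ rest) ++
        push J Q E t ((r ++ rest).length + 1)) := by
      apply Rch.single
      rw [OK, hp]
      intro s hs
      simp at hs
    rw [hp, List.append_nil] at h1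
    have h2 := h1.trans (ih fun x hx => h x (by simp [hx]))
    rw [List.length_cons, Nat.add_comm]
    exact h2

/-- tokens produced by a reader -/
theorem mem_push {J Q : ℕ} {E : ℕ → ℕ → Bool} {t s : Tok} {c : ℕ} (h : s ∈ push J Q E t c) :
    ∃ i, i < (outs J Q (E t.sl) c).length ∧ s.dl = (c + i) / Q ∧ s.pi = t.dl := by
  rw [push, List.mem_mapIdx] at h
  obtain ⟨i, hi, rfl⟩ := h
  exact ⟨i, hi, rfl, rfl⟩

theorem push_length (J Q : ℕ) (E : ℕ → ℕ → Bool) (t : Tok) (c : ℕ) :
    (push J Q E t c).length = (outs J Q (E t.sl) c).length := by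
  simp [push]

/-- validity of a step: `M = c / Q` is the size of the ring -/
theorem ok_of {J Q lam : ℕ} {E : ℕ → ℕ → Bool} {t : Tok} {r : List Tok} {M K : ℕ}
    (hc : Q * M ≤ r.length + 1) (hK : r.length + 1 + (outs J Q (E t.sl) (r.length + 1)).length
      ≤ Q * K) (h1 : t.pi ≤ M) (h2 : K < lam + t.pi) (hQ : 0 < Q) : OK J Q lam E (t :: r) := by
  rw [OK]
  intro s hs
  obtain ⟨i, hi, h3, -⟩ := mem_push hs
  rw [h3]
  constructor
  · refine h1.trans ((Nat.le_div_iff_mul_le hQ).2 ?_)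
    calc M * Q = Q * M := by ring
      _ ≤ r.length + 1 + i := by omega
  · have : (r.length + 1 + i) / Q < K := by
      rw [Nat.div_lt_iff_lt_mul hQ]
      calc r.length + 1 + i < Q * K := by omega
        _ = K * Q := by ring
    omega

/-- processing one cell: an info token `t` followed by its null tokens `r` -/
theorem Rch.cell {J Q lam : ℕ} {E : ℕ → ℕ → Bool} (t : Tok) (r rest : List Tok)
    (hr : ∀ x ∈ r, ∀ c, outs J Q (E x.sl) c = []) (hok : OK J Q lam E (t :: (r ++ rest))) :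
    Rch J Q lam E (r.length + 1) (t :: r ++ rest)
      (rest ++ push J Q E t ((r ++ rest).length + 1)) := by
  have h1 := Rch.single hok
  rw [List.append_assoc] at h1
  have h2 := h1.trans (Rch.nulls (lam := lam) r (rest ++ push J Q E t ((r ++ rest).length + 1)) hr)
  rw [Nat.add_comm]
  exact h2

/-- annotations of the info tokens read while the ring has `M` cells -/
def TokOK (M C : ℕ) (t : Tok) : Prop :=
  t.dl ≤ M ∧ M ≤ t.dl + C ∧ t.pi ≤ M ∧ M ≤ t.pi + C + 1

/-- cell of the symbol `a` (`a = 0`: the end marker), length `Q` -/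
def ACell (A n M a : ℕ) (q : List Tok) : Prop :=
  ∃ t r, q = t :: r ∧ t.sl / Qr A n = (if a = 0 then 2 * A + 6 else 1 + a) ∧
    TokOK M (n + 1) t ∧ (∀ x ∈ r, IsNull A n x.sl) ∧ r.length + 1 = Qr A n

/-- cell of the token `(P_a, 2s)`, length `Q - 2s + 2a` (`Q - 2s + 2A` for the end marker `a = 0`) -/
def PCell (A n M s a : ℕ) (q : List Tok) : Prop :=
  ∃ t r, q = t :: r ∧ t.sl = Qr A n * (1 + A + a) + 2 * s ∧
    TokOK M (n + 1) t ∧ (∀ x ∈ r, IsNull A n x.sl) ∧
    r.length + 1 + 2 * s = Qr A n + 2 * (if a = 0 then A else a)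

/-- concatenation of A-cells -/
def ACells (A n M : ℕ) : List ℕ → List Tok → Prop
  | [], q => q = []
  | a :: l, q => ∃ q₁ q₂, q = q₁ ++ q₂ ∧ ACell A n M a q₁ ∧ ACells A n M l q₂

/-- concatenation of P-cells, `s` = symbol to the left of the first one -/
def PCells (A n M : ℕ) : ℕ → List ℕ → List Tok → Prop
  | _, [], q => q = []
  | s, a :: l, q => ∃ q₁ q₂, q = q₁ ++ q₂ ∧ PCell A n M s a q₁ ∧ PCells A n M a l q₂

theorem ACells_append (A n M : ℕ) (l l' : List ℕ) (q q' : List Tok) (h : ACells A n M l q)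
    (h' : ACells A n M l' q') : ACells A n M (l ++ l') (q ++ q') := by
  induction l generalizing q with
  | nil =>
    simp only [ACells] at h
    subst h
    exact h'
  | cons a l ih =>
    obtain ⟨q₁, q₂, rfl, h1, h2⟩ := h
    exact ⟨q₁, q₂ ++ q', by rw [List.append_assoc], h1, ih q₂ h2⟩

/-- the hypotheses on the automaton -/
structure Hyp (A : ℕ) (f : ℕ → ℕ → ℕ) : Prop where
  hA : 2 ≤ A
  hf : ∀ s < A, ∀ a, 1 ≤ a → a < A → 1 ≤ f s a ∧ f s a < A
  hf0 : ∀ a, f 0 a = f 1 a

/-- the parameters of the ring program, abbreviated -/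
abbrev RchR (A : ℕ) (f : ℕ → ℕ → ℕ) (hl : ℕ → Bool) (w : List ℕ) (k : ℕ) (q q' : List Tok) :
    Prop :=
  Rch (Jr A w.length) (Qr A w.length) (lamr w.length) (Er A f hl w) k q q'

end Pool.Agent.H28.PCP
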