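import Mathlib
import Pool.Agent.H28.PCP.TC

set_option autoImplicit false

/-!
# TD0: helper lemmas for TD, TD2 (reading one cell, shape of the pushed list)
-/

namespace Pool.Agent.H28.PCP

/-- reading one cell when the queue has length `c` -/
theorem cell_step {J Q lam : ℕ} {E : ℕ → ℕ → Bool} (t : Tok) (r rest : List Tok) (c M K : ℕ)
    (hr : ∀ x ∈ r, ∀ c, outs J Q (E x.sl) c = []) (hc : (t :: r ++ rest).length = c)
    (hM : Q * M ≤ c) (hK : c + (outs J Q (E t.sl) c).length ≤ Q * K) (h1 : t.pi ≤ M)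
    (h2 : K < lam + t.pi) (hQ : 0 < Q) :
    Rch J Q lam E (r.length + 1) (t :: r ++ rest) (rest ++ push J Q E t c) := by
  have hc' : (r ++ rest).length + 1 = c := by
    rw [← hc]
    simp
  have h := Rch.cell (lam := lam) t r rest hr
    (ok_of (M := M) (K := K) (by rw [hc']; exact hM) (by rw [hc']; exact hK) h1 h2 hQ)
  rw [hc'] at h
  exact h

/-- the pushed tokens: head -/
theorem push_eq_cons {J Q : ℕ} {E : ℕ → ℕ → Bool} {t : Tok} {c j : ℕ} {nl : List ℕ}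
    (h : outs J Q (E t.sl) c = j :: nl) :
    ∃ r' : List Tok, push J Q E t c = ⟨j, c / Q, t.dl⟩ :: r' ∧ r'.length = nl.length ∧
      ∀ x ∈ r', x.sl ∈ nl := by
  refine ⟨nl.mapIdx (fun i j => ⟨j, (c + (i + 1)) / Q, t.dl⟩), ?_, by simp, ?_⟩
  · rw [push, h, List.mapIdx_cons]
    rfl
  · intro x hx
    rw [List.mem_mapIdx] at hx
    obtain ⟨i, hi, rfl⟩ := hx
    exact List.getElem_mem hi

/-- the pushed tokens: two blocks -/
theorem push_eq_two {J Q : ℕ} {E : ℕ → ℕ → Bool} {t : Tok} {c j j' : ℕ} {nl nl' : List ℕ}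
    (h : outs J Q (E t.sl) c = j :: nl ++ j' :: nl') :
    ∃ r₁ r₂ : List Tok, push J Q E t c =
        (⟨j, c / Q, t.dl⟩ :: r₁) ++ (⟨j', (c + (nl.length + 1)) / Q, t.dl⟩ :: r₂) ∧
      r₁.length = nl.length ∧ (∀ x ∈ r₁, x.sl ∈ nl) ∧
      r₂.length = nl'.length ∧ (∀ x ∈ r₂, x.sl ∈ nl') := by
  refine ⟨nl.mapIdx (fun i j => ⟨j, (c + (i + 1)) / Q, t.dl⟩),
    nl'.mapIdx (fun i j => ⟨j, (c + ((i + 1) + (nl.length + 1))) / Q, t.dl⟩), ?_, by simp, ?_,
    by simp, ?_⟩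
  · rw [push, h, List.mapIdx_append, List.mapIdx_cons, List.mapIdx_cons]
    simp only [List.length_cons, Nat.zero_add]
    rfl
  · intro x hx
    rw [List.mem_mapIdx] at hx
    obtain ⟨i, hi, rfl⟩ := hx
    exact List.getElem_mem hi
  · intro x hx
    rw [List.mem_mapIdx] at hx
    obtain ⟨i, hi, rfl⟩ := hx
    exact List.getElem_mem hi

theorem Qr_pos (A n : ℕ) : 0 < Qr A n := by
  unfold Qr
  omega

/-- level and quotient of a length `Q * M + x`, `x < Q` -/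
theorem lvl {Q M x c : ℕ} (hx : x < Q) (hc : c = Q * M + x) : c % Q = x ∧ c / Q = M := by
  subst hc
  have hQ : 0 < Q := by omega
  constructor
  · rw [Nat.mul_add_mod, Nat.mod_eq_of_lt hx]
  · rw [Nat.mul_add_div hQ, Nat.div_eq_of_lt hx, Nat.add_zero]

/-- null tokens of a cell push nothing -/
theorem null_outs {A : ℕ} (f : ℕ → ℕ → ℕ) (hl : ℕ → Bool) (w : List ℕ) {r : List Tok}
    (hr : ∀ x ∈ r, IsNull A w.length x.sl) :
    ∀ x ∈ r, ∀ c, outs (Jr A w.length) (Qr A w.length) (Er A f hl w x.sl) c = [] :=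
  fun x hx c => outs_null A f hl w x.sl c (hr x hx)

end Pool.Agent.H28.PCP
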