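import Mathlib
import Pool.Agent.H28.PCP.TC
import Pool.Agent.H28.PCP.TD0

set_option autoImplicit false

/-!
# Module TD: one cell of pass A (see also TD2, TD3)

Ring with `M` cells, `Q = Qr A n`, `n = w.length`.

`passA`: the queue is `q ++ rest`, `q` = A-cells of `l ++ [0]` (`0` = end marker), total length
`Q*M + 2s`, `s < A` the symbol to the left.  Induction on `l` (generalizing `s`, `q`, `rest`).
One cell `a` (`ACell`, `q₁ = t :: r`): level is `2s`; `outs_D` (or `outs_H` for `a = 0`); use
`Rch.cell` (`outs_null` for the null tokens), `ok_of` with `K = M + 2`: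
`Q*M + 2s + (Q - 2s + 2a) ≤ Q*(M+2)`, `M + 2 < n + 8 + t.pi` from `TokOK`.  The pushed list is a
`PCell A n M s a`: its info token has slot `Q*(1+A+a)+2s`, `dl = (Q*M+2s)/Q = M`, `pi = t.dl`
(`push` is a `mapIdx`), the rest are null slots.  New total length `Q*M + 2a`
(`Q*M + 2A` after the end marker).

`passB`: the queue is `p ++ rest`, `p` = P-cells of `l ++ [0]` with left symbol `s`, total length
`Q*M + 2A - 2s`.  `outs_P` for `a ≥ 1`, `outs_P0` for the end marker (gives two A-cells, the second
one with info token `dl = (Q*M + 2A - 2s + Q)/Q = M+1`).  New annotations w.r.t. `M+1`.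
-/

namespace Pool.Agent.H28.PCP

/-- one cell of pass A -/
theorem cellA {A : ℕ} {f : ℕ → ℕ → ℕ} (hyp : Hyp A f) (hl : ℕ → Bool) (w : List ℕ)
    (M a s : ℕ) (ha : a < A) (hh : a ≠ 0 → hl a = false) (hs : s < A) (q rest : List Tok)
    (hq : ACell A w.length M a q) (hlen : (q ++ rest).length = Qr A w.length * M + 2 * s) :
    ∃ k p, 0 < k ∧ RchR A f hl w k (q ++ rest) (rest ++ p) ∧ PCell A w.length M s a p ∧
      (rest ++ p).length = Qr A w.length * M + 2 * (if a = 0 then A else a) := by
  obtain ⟨t, r, rfl, hsl, ⟨ht1, ht2, ht3, ht4⟩, hr, hrl⟩ := hq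
  have hQ : 0 < Qr A w.length := Qr_pos A w.length
  have hQv : Qr A w.length = 2 * A + 4 + w.length := rfl
  have hlam : lamr w.length = w.length + 8 := rfl
  have hb : (if a = 0 then A else a) ≤ A := by
    split_ifs <;> omega
  have hlv := lvl (Q := Qr A w.length) (M := M) (x := 2 * s) (by omega) hlen
  -- what is pushed
  have hout : ∃ nl : List ℕ, outs (Jr A w.length) (Qr A w.length) (Er A f hl w t.sl)
      (t :: r ++ rest).length = (Qr A w.length * (1 + A + a) + 2 * s) :: nl ∧
      (∀ x ∈ nl, IsNull A w.length x) ∧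
      nl.length + 1 + 2 * s = Qr A w.length + 2 * (if a = 0 then A else a) := by
    by_cases ha0 : a = 0
    · subst ha0
      have h := outs_H A f hl w t.sl (t :: r ++ rest).length s (by simpa using hsl) hs hlv.1
      simpa using h
    · have h := outs_D A f hl w t.sl (t :: r ++ rest).length a s (by omega) ha
        (by simpa [ha0] using hsl) (hh ha0) hs hlv.1
      simpa [ha0] using h
  obtain ⟨nl, ho, hnull, hnl⟩ := hout
  obtain ⟨r', hp, hr'l, hr'⟩ := push_eq_cons ho
  have hQM2 : Qr A w.length * (M + 2) = Qr A w.length * M + 2 * Qr A w.length := by ring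
  have hstep := cell_step (lam := lamr w.length) (E := Er A f hl w) t r rest
    (t :: r ++ rest).length M (M + 2) (null_outs f hl w hr) rfl (by rw [hlen]; omega)
    (by rw [ho, List.length_cons, hlen, hQM2]; omega) ht3 (by omega) hQ
  refine ⟨r.length + 1, _, by omega, hstep, ?_, ?_⟩
  · rw [hp, hlv.2]
    refine ⟨_, r', rfl, rfl, ⟨?_, ?_, ?_, ?_⟩, fun x hx => hnull _ (hr' x hx), ?_⟩
    · exact le_rfl
    · exact Nat.le_add_right _ _
    · exact ht1
    · show M ≤ t.dl + (w.length + 1) + 1
      omega
    · rw [hr'l]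
      exact hnl
  · rw [List.length_append, hp, List.length_cons, hr'l]
    have : (t :: r ++ rest).length = r.length + 1 + rest.length := by
      simp
      omega
    rw [this] at hlen
    omega

end Pool.Agent.H28.PCP
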