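import Mathlib
import Pool.Agent.H28.PCP.TC
import Pool.Agent.H28.PCP.TD0

set_option autoImplicit false

/-!
# Module TD2: cells of pass B

Ring with `M` cells, `Q = Qr A n`, `n = w.length`.

`passA`: the queue is `q ++ rest`, `q` = A-cells of `l ++ [0]` (`0` = end marker), total length
`Q*M + 2s`, `s < A` the symbol to the left.  Induction on `l` (generalizing `s`, `q`, `rest`).
One cell `a` (`ACell`, `q₁ = t :: r`): level is `2s`; `outs_D` (or `outs_H` for `a = 0`); use
`Rch.cell` (`outs_null` for the null tokens), `ok_of` with `K = M + 2`: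
`Q*M + 2s + (Q - 2s + 2a) ≤ Q*(M+2)`, `M + 2 < n + 8 + t.pi` from `TokOK`.  The pushed list is a
`PCell A n M s a`: its info token has slot `Q*(1+A+a)+2s`, `dl = (Q*M+2s)/Q = M`, `pi = t.dl`
(`push` is a `mapIdx`), the rest are null slots.  New total length `Q*M + 2a`
(`Q*M + 2A` after the end marker).

`passB`: the queue is `p ++ rest`, `p` = P-cells of `l ++ [0]` with left symbol `s`, total length
`Q*M + 2A - 2s`.  `outs_P` for `a ≥ 1`, `outs_P0` for the end marker (gives two A-cells, the second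
one with info token `dl = (Q*M + 2A - 2s + Q)/Q = M+1`).  New annotations w.r.t. `M+1`.
-/

namespace Pool.Agent.H28.PCP

/-- one P-cell with `a ≥ 1` in pass B -/
theorem cellB {A : ℕ} {f : ℕ → ℕ → ℕ} (hyp : Hyp A f) (hl : ℕ → Bool) (w : List ℕ)
    (M a s : ℕ) (ha1 : 1 ≤ a) (ha : a < A) (hs : s < A) (q rest : List Tok)
    (hq : PCell A w.length M s a q)
    (hlen : (q ++ rest).length + 2 * s = Qr A w.length * M + 2 * A) :
    ∃ k p, 0 < k ∧ RchR A f hl w k (q ++ rest) (rest ++ p) ∧
      ACell A w.length (M + 1) (f s a) p ∧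
      (rest ++ p).length + 2 * a = Qr A w.length * M + 2 * A := by
  obtain ⟨t, r, rfl, hsl, ⟨ht1, ht2, ht3, ht4⟩, hr, hrl⟩ := hq
  have hQ : 0 < Qr A w.length := Qr_pos A w.length
  have hQv : Qr A w.length = 2 * A + 4 + w.length := rfl
  have hlam : lamr w.length = w.length + 8 := rfl
  have ha0 : a ≠ 0 := by omega
  rw [if_neg ha0] at hrl
  have hf := hyp.hf s hs a ha1 ha
  have hlen' : (t :: r ++ rest).length = Qr A w.length * M + (2 * A - 2 * s) := by omega
  have hlv := lvl (Q := Qr A w.length) (M := M) (x := 2 * A - 2 * s) (by omega) hlen'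
  obtain ⟨nl, ho, hnull, hnl⟩ := outs_P A f hl w (t :: r ++ rest).length a s ha1 ha hs hf.1 hf.2
    hlv.1
  rw [← hsl] at ho
  obtain ⟨r', hp, hr'l, hr'⟩ := push_eq_cons ho
  have hQM2 : Qr A w.length * (M + 2) = Qr A w.length * M + 2 * Qr A w.length := by ring
  have hstep := cell_step (lam := lamr w.length) (E := Er A f hl w) t r rest
    (t :: r ++ rest).length M (M + 2) (null_outs f hl w hr) rfl (by omega)
    (by rw [ho, List.length_cons, hlen', hQM2]; omega) ht3 (by omega) hQ
  refine ⟨r.length + 1, _, by omega, hstep, ?_, ?_⟩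
  · rw [hp, hlv.2]
    refine ⟨_, r', rfl, ?_, ⟨?_, ?_, ?_, ?_⟩, fun x hx => hnull _ (hr' x hx), ?_⟩
    · show (Qr A w.length * (1 + f s a) + (2 * A - 2 * s)) / Qr A w.length = _
      rw [if_neg (by omega), Nat.mul_add_div hQ, Nat.div_eq_of_lt (by omega), Nat.add_zero]
    · show M ≤ M + 1
      omega
    · show M + 1 ≤ M + (w.length + 1)
      omega
    · show t.dl ≤ M + 1
      omega
    · show M + 1 ≤ t.dl + (w.length + 1) + 1
      omega
    · rw [hr'l]
      exact hnl
  · rw [List.length_append, hp, List.length_cons, hr'l]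
    have : (t :: r ++ rest).length = r.length + 1 + rest.length := by
      simp
      omega
    rw [this] at hlen'
    omega

/-- the end marker in pass B -/
theorem cellB0 {A : ℕ} {f : ℕ → ℕ → ℕ} (hyp : Hyp A f) (hl : ℕ → Bool) (w : List ℕ)
    (M s : ℕ) (hs : s < A) (q rest : List Tok)
    (hq : PCell A w.length M s 0 q)
    (hlen : (q ++ rest).length + 2 * s = Qr A w.length * M + 2 * A) :
    ∃ k p, 0 < k ∧ RchR A f hl w k (q ++ rest) (rest ++ p) ∧
      ACells A w.length (M + 1) [f s 1, 0] p ∧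
      (rest ++ p).length = Qr A w.length * (M + 1) := by
  obtain ⟨t, r, rfl, hsl, ⟨ht1, ht2, ht3, ht4⟩, hr, hrl⟩ := hq
  have hQ : 0 < Qr A w.length := Qr_pos A w.length
  have hQv : Qr A w.length = 2 * A + 4 + w.length := rfl
  have hlam : lamr w.length = w.length + 8 := rfl
  rw [if_pos rfl] at hrl
  have hA := hyp.hA
  have hf := hyp.hf s hs 1 le_rfl (by omega)
  have hlen' : (t :: r ++ rest).length = Qr A w.length * M + (2 * A - 2 * s) := by omega
  have hlv := lvl (Q := Qr A w.length) (M := M) (x := 2 * A - 2 * s) (by omega) hlen'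
  obtain ⟨nl₁, nl₂, ho, hnull₁, hnl₁, hnull₂, hnl₂⟩ :=
    outs_P0 A f hl w (t :: r ++ rest).length s hs hf.1 hf.2 hlv.1
  have hsl' : t.sl = Qr A w.length * (1 + A) + 2 * s := by simpa using hsl
  rw [← hsl'] at ho
  obtain ⟨r₁, r₂, hp, hr1l, hr1, hr2l, hr2⟩ := push_eq_two ho
  have hQM3 : Qr A w.length * (M + 3) = Qr A w.length * M + 3 * Qr A w.length := by ring
  have hQM1 : Qr A w.length * (M + 1) = Qr A w.length * M + Qr A w.length := by ring
  have hstep := cell_step (lam := lamr w.length) (E := Er A f hl w) t r rest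
    (t :: r ++ rest).length M (M + 3) (null_outs f hl w hr) rfl (by omega)
    (by rw [ho, hlen', hQM3]; simp only [List.length_append, List.length_cons]; omega)
    ht3 (by omega) hQ
  have hlv2 := lvl (Q := Qr A w.length) (M := M + 1) (x := 2 * A - 2 * s)
    (c := (t :: r ++ rest).length + (nl₁.length + 1)) (by omega) (by rw [hlen', hQM1]; omega)
  refine ⟨r.length + 1, _, by omega, hstep, ?_, ?_⟩
  · rw [hp, hlv.2, hlv2.2]
    refine ⟨_, _, rfl, ⟨_, r₁, rfl, ?_, ⟨?_, ?_, ?_, ?_⟩, fun x hx => hnull₁ _ (hr1 x hx), ?_⟩,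
      ⟨_, [], (List.append_nil _).symm,
        ⟨_, r₂, rfl, ?_, ⟨?_, ?_, ?_, ?_⟩, fun x hx => hnull₂ _ (hr2 x hx), ?_⟩, rfl⟩⟩
    · show (Qr A w.length * (1 + f s 1) + (2 * A - 2 * s)) / Qr A w.length = _
      rw [if_neg (by omega), Nat.mul_add_div hQ, Nat.div_eq_of_lt (by omega), Nat.add_zero]
    · show M ≤ M + 1
      omega
    · show M + 1 ≤ M + (w.length + 1)
      omega
    · show t.dl ≤ M + 1
      omega
    · show M + 1 ≤ t.dl + (w.length + 1) + 1
      omega
    · rw [hr1l]
      exact hnl₁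
    · show (Qr A w.length * (2 * A + 6) + (2 * A - 2 * s)) / Qr A w.length = _
      rw [if_pos rfl, Nat.mul_add_div hQ, Nat.div_eq_of_lt (by omega), Nat.add_zero]
    · show M + 1 ≤ M + 1
      omega
    · show M + 1 ≤ M + 1 + (w.length + 1)
      omega
    · show t.dl ≤ M + 1
      omega
    · show M + 1 ≤ t.dl + (w.length + 1) + 1
      omega
    · rw [hr2l]
      exact hnl₂
  · rw [List.length_append, hp, List.length_append, List.length_cons, List.length_cons, hr1l,
      hr2l, hQM1]
    have : (t :: r ++ rest).length = r.length + 1 + rest.length := by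
      simp
      omega
    rw [this] at hlen'
    omega

end Pool.Agent.H28.PCP
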