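import Mathlib
import Pool.Agent.H28.PCP.TD
import Pool.Agent.H28.PCP.TD2

set_option autoImplicit false

/-!
# Module TD3: the two normal passes (inductions, from TD and TD2)

Ring with `M` cells, `Q = Qr A n`, `n = w.length`.

`passA`: the queue is `q ++ rest`, `q` = A-cells of `l ++ [0]` (`0` = end marker), total length
`Q*M + 2s`, `s < A` the symbol to the left.  Induction on `l` (generalizing `s`, `q`, `rest`).
One cell `a` (`ACell`, `q₁ = t :: r`): level is `2s`; `outs_D` (or `outs_H` for `a = 0`); use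
`Rch.cell` (`outs_null` for the null tokens), `ok_of` with `K = M + 2`:
`Q*M + 2s + (Q - 2s + 2a) ≤ Q*(M+2)`, `M + 2 < n + 8 + t.pi` from `TokOK`.  The pushed list is a
`PCell A n M s a`: its info token has slot `Q*(1+A+a)+2s`, `dl = (Q*M+2s)/Q = M`, `pi = t.dl`
(`push` is a `mapIdx`), the rest are null slots.  New total length `Q*M + 2a`
(`Q*M + 2A` after the end marker).

`passB`: the queue is `p ++ rest`, `p` = P-cells of `l ++ [0]` with left symbol `s`, total length
`Q*M + 2A - 2s`.  `outs_P` for `a ≥ 1`, `outs_P0` for the end marker (gives two A-cells, the second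
one with info token `dl = (Q*M + 2A - 2s + Q)/Q = M+1`).  New annotations w.r.t. `M+1`.
-/

namespace Pool.Agent.H28.PCP

theorem passA {A : ℕ} {f : ℕ → ℕ → ℕ} (hyp : Hyp A f) (hl : ℕ → Bool) (w : List ℕ)
    (M s : ℕ) (l : List ℕ) (hlA : ∀ a ∈ l, 1 ≤ a ∧ a < A ∧ hl a = false) (hs : s < A)
    (q rest : List Tok) (hq : ACells A w.length M (l ++ [0]) q)
    (hlen : (q ++ rest).length = Qr A w.length * M + 2 * s) :
    ∃ k p, 0 < k ∧ RchR A f hl w k (q ++ rest) (rest ++ p) ∧
      PCells A w.length M s (l ++ [0]) p ∧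
      (rest ++ p).length = Qr A w.length * M + 2 * A := by
  induction l generalizing s q rest with
  | nil =>
    obtain ⟨q₁, q₂, rfl, h1, h2⟩ := hq
    have h2' : q₂ = [] := h2
    subst h2'
    rw [List.append_nil] at hlen ⊢
    have hA := hyp.hA
    obtain ⟨k, p, hk, hR, hP, hL⟩ := cellA hyp hl w M 0 s (by omega) (fun h => absurd rfl h) hs
      q₁ rest h1 hlen
    refine ⟨k, p, hk, hR, ⟨p, [], (List.append_nil p).symm, hP, rfl⟩, ?_⟩
    simpa using hL
  | cons a l ih =>
    obtain ⟨q₁, q₂, rfl, h1, h2⟩ := hq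
    have ha := hlA a (by simp)
    rw [List.append_assoc] at hlen ⊢
    obtain ⟨k, p, hk, hR, hP, hL⟩ := cellA hyp hl w M a s ha.2.1 (fun _ => ha.2.2) hs
      q₁ (q₂ ++ rest) h1 hlen
    rw [if_neg (by omega)] at hL
    rw [List.append_assoc] at hR hL
    obtain ⟨k', p', hk', hR', hP', hL'⟩ := ih a (fun x hx => hlA x (by simp [hx])) ha.2.1 q₂
      (rest ++ p) h2 hL
    rw [List.append_assoc] at hR' hL'
    refine ⟨k + k', p ++ p', by omega, hR.trans hR', ⟨p, p', rfl, hP, hP'⟩, hL'⟩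

theorem passB {A : ℕ} {f : ℕ → ℕ → ℕ} (hyp : Hyp A f) (hl : ℕ → Bool) (w : List ℕ)
    (M s : ℕ) (l : List ℕ) (hlA : ∀ a ∈ l, 1 ≤ a ∧ a < A) (hs : s < A)
    (q rest : List Tok) (hq : PCells A w.length M s (l ++ [0]) q)
    (hlen : (q ++ rest).length + 2 * s = Qr A w.length * M + 2 * A) :
    ∃ k p, 0 < k ∧ RchR A f hl w k (q ++ rest) (rest ++ p) ∧
      ACells A w.length (M + 1) (List.zipWith f (s :: l) (l ++ [1]) ++ [0]) p ∧
      (rest ++ p).length = Qr A w.length * (M + 1) := by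
  induction l generalizing s q rest with
  | nil =>
    obtain ⟨q₁, q₂, rfl, h1, h2⟩ := hq
    have h2' : q₂ = [] := h2
    subst h2'
    rw [List.append_nil] at hlen ⊢
    obtain ⟨k, p, hk, hR, hP, hL⟩ := cellB0 hyp hl w M s hs q₁ rest h1 hlen
    exact ⟨k, p, hk, hR, hP, hL⟩
  | cons a l ih =>
    obtain ⟨q₁, q₂, rfl, h1, h2⟩ := hq
    have ha := hlA a (by simp)
    rw [List.append_assoc] at hlen ⊢
    obtain ⟨k, p, hk, hR, hP, hL⟩ := cellB hyp hl w M a s ha.1 ha.2 hs q₁ (q₂ ++ rest) h1 hlen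
    rw [List.append_assoc] at hR hL
    obtain ⟨k', p', hk', hR', hP', hL'⟩ := ih a (fun x hx => hlA x (by simp [hx])) ha.2 q₂
      (rest ++ p) h2 hL
    rw [List.append_assoc] at hR' hL'
    refine ⟨k + k', p ++ p', by omega, hR.trans hR', ⟨p, p', rfl, hP, hP'⟩, hL'⟩

end Pool.Agent.H28.PCP
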