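import Mathlib
import Pool.Agent.H28.PCP.TD0

set_option autoImplicit false

/-!
# Module TE: boot

`q0 = [⟨0,0,0⟩]`.  `outs_start`: after one step the queue is `⟨1,0,0⟩, ..., ⟨n+1,0,0⟩` (queue lengths
at the pushes are `1..n+1 < Q`, so `dl = 0`).  By induction on `i ≤ n`: after reading the boot tokens
`1, ..., i` the queue is `⟨i+1,0,0⟩, ..., ⟨n+1,0,0⟩` followed by the A-cells of `w.take i`
(w.r.t. `M = n+1`), total length `(n+1-i) + Q*i`.  Reading `⟨i+1,0,0⟩` at this length: level
`n+1-i < Q`, `outs_boot`, the info token gets `dl = ((n+1-i) + Q*i)/Q = i`, `pi = 0`; `TokOK (n+1)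
(n+1)` holds.  Validity: `t.pi = 0`, all `dl + 1 ≤ i + 2 < n + 8`.  Last: `outs_boot_last` at length
`1 + Q*n`.
-/

namespace Pool.Agent.H28.PCP

/-- boot tokens `i+1, ..., n+1` -/
def bootQ (n i : ℕ) : List Tok := (List.range' (i + 1) (n + 1 - i)).map (fun j => ⟨j, 0, 0⟩)

theorem bootQ_length (n i : ℕ) : (bootQ n i).length = n + 1 - i := by
  simp [bootQ]

theorem bootQ_succ (n i : ℕ) (h : i ≤ n) : bootQ n i = ⟨i + 1, 0, 0⟩ :: bootQ n (i + 1) := by
  rw [bootQ, bootQ]
  have : n + 1 - i = (n + 1 - (i + 1)) + 1 := by omega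
  rw [this, List.range'_succ, List.map_cons]

theorem push_start (A : ℕ) (f : ℕ → ℕ → ℕ) (hl : ℕ → Bool) (w : List ℕ) :
    push (Jr A w.length) (Qr A w.length) (Er A f hl w) ⟨0, 0, 0⟩ 1 = bootQ w.length 0 := by
  rw [push, outs_start, bootQ]
  apply List.ext_getElem
  · simp
  · intro i h1 h2
    simp only [List.length_mapIdx, List.length_range'] at h1
    have hQ : Qr A w.length = 2 * A + 4 + w.length := rfl
    simp only [List.getElem_mapIdx, List.getElem_map, List.getElem_range']
    have h3 : (1 + i) / Qr A w.length = 0 := Nat.div_eq_of_lt (by omega)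
    rw [h3]

theorem boot {A : ℕ} {f : ℕ → ℕ → ℕ} (hyp : Hyp A f) (hl : ℕ → Bool) (w : List ℕ)
    (hw : ∀ a ∈ w, 1 ≤ a ∧ a < A) :
    ∃ k q, 0 < k ∧ RchR A f hl w k q0 q ∧ ACells A w.length (w.length + 1) (w ++ [0]) q ∧
      q.length = Qr A w.length * (w.length + 1) := by
  have hQ : Qr A w.length = 2 * A + 4 + w.length := rfl
  have hQ0 : 0 < Qr A w.length := by omega
  have hA := hyp.hA
  have hlam : lamr w.length = w.length + 8 := rfl
  -- induction
  have main : ∀ i, i ≤ w.length → ∃ k q, 0 < k ∧
      RchR A f hl w k q0 (bootQ w.length i ++ q) ∧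
      ACells A w.length (w.length + 1) (w.take i) q ∧
      (bootQ w.length i ++ q).length = (w.length + 1 - i) + Qr A w.length * i := by
    intro i
    induction i with
    | zero =>
      intro _
      refine ⟨1, [], Nat.one_pos, ?_, by simp [ACells], by simp [bootQ_length]⟩
      have hok : OK (Jr A w.length) (Qr A w.length) (lamr w.length) (Er A f hl w) q0 := by
        refine ok_of (M := 0) (K := 1) (by simp) ?_ le_rfl (by rw [hlam]; omega) hQ0
        simp only [List.length_nil, Nat.zero_add]
        rw [outs_start, List.length_range']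
        omega
      have h1 := Rch.single hok
      rw [List.nil_append] at h1
      have h2 : push (Jr A w.length) (Qr A w.length) (Er A f hl w) ⟨0, 0, 0⟩
          (([] : List Tok).length + 1) = bootQ w.length 0 := push_start A f hl w
      rw [h2] at h1
      rw [List.append_nil]
      exact h1
    | succ i ih =>
      intro hi
      obtain ⟨k, q, hk, h1, h2, h3⟩ := ih (by omega)
      have hi' : i < w.length := by omega
      obtain ⟨hw1, hwA⟩ := hw w[i] (List.getElem_mem hi')
      rw [bootQ_succ _ _ (by omega)] at h1 h3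
      set t : Tok := ⟨i + 1, 0, 0⟩ with ht
      set c := (w.length + 1 - i) + Qr A w.length * i with hc
      have hlv := lvl (Q := Qr A w.length) (M := i) (x := w.length + 1 - i) (c := c) (by omega)
        (by omega)
      obtain ⟨nl, ho, hnull, hnl⟩ := outs_boot A f hl w c i hi' hw1 hwA hlv.1
      obtain ⟨r', hp, hr'l, hr'⟩ := push_eq_cons (t := t) ho
      have hlen : (outs (Jr A w.length) (Qr A w.length) (Er A f hl w t.sl) c).length =
          Qr A w.length := by
        rw [ho, List.length_cons, hnl]
      have hmul : Qr A w.length * (i + 2) = Qr A w.length * i + Qr A w.length + Qr A w.length := by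
        ring
      have hstep := cell_step (lam := lamr w.length) t [] (bootQ w.length (i + 1) ++ q) c 0 (i + 2)
        (by simp) (by simpa using h3) (by simp) (by rw [hlen]; omega) (Nat.zero_le _)
        (by rw [hlam]; simp only [ht]; omega) hQ0
      have h4 := h1.trans hstep
      refine ⟨k + 1, q ++ push (Jr A w.length) (Qr A w.length) (Er A f hl w) t c, by omega, ?_, ?_,
        ?_⟩
      · rw [← List.append_assoc]
        exact h4
      · rw [List.take_succ_eq_append_getElem hi']
        refine ACells_append _ _ _ _ _ _ _ h2 ?_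
        refine ⟨push (Jr A w.length) (Qr A w.length) (Er A f hl w) t c, [], by simp, ?_, rfl⟩
        refine ⟨_, r', hp, ?_, ?_, fun x hx => hnull _ (hr' x hx), by omega⟩
        · have : w[i] ≠ 0 := by omega
          rw [if_neg this]
          simp only
          rw [Nat.mul_add_div hQ0, Nat.div_eq_of_lt (by omega), add_zero]
        · have h5 := hlv.2
          refine ⟨?_, ?_, ?_, ?_⟩ <;> simp only [ht, h5] <;> omega
      · have h5 : (push (Jr A w.length) (Qr A w.length) (Er A f hl w) t c).length =
            Qr A w.length := by rw [push_length, hlen]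
        have h6 : Qr A w.length * (i + 1) = Qr A w.length * i + Qr A w.length := by ring
        simp only [List.length_append, List.length_cons, bootQ_length] at h3 ⊢
        omega
  obtain ⟨k, q, hk, h1, h2, h3⟩ := main w.length le_rfl
  rw [bootQ_succ _ _ le_rfl] at h1 h3
  have hb : bootQ w.length (w.length + 1) = [] := by simp [bootQ]
  rw [hb] at h1 h3
  rw [List.take_length] at h2
  set t : Tok := ⟨w.length + 1, 0, 0⟩ with ht
  set c := (w.length + 1 - w.length) + Qr A w.length * w.length with hc
  have hlv := lvl (Q := Qr A w.length) (M := w.length) (x := 1) (c := c) (by omega) (by omega)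
  obtain ⟨nl, ho, hnull, hnl⟩ := outs_boot_last A f hl w c (by omega) hlv.1
  obtain ⟨r', hp, hr'l, hr'⟩ := push_eq_cons (t := t) ho
  have hlen : (outs (Jr A w.length) (Qr A w.length) (Er A f hl w t.sl) c).length =
      Qr A w.length := by
    rw [ho, List.length_cons, hnl]
  have hmul : Qr A w.length * (w.length + 2) =
      Qr A w.length * w.length + Qr A w.length + Qr A w.length := by ring
  have hstep := cell_step (lam := lamr w.length) t [] q c 0 (w.length + 2)
    (by simp) (by simpa using h3) (by simp) (by rw [hlen]; omega) (Nat.zero_le _)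
    (by rw [hlam]; simp only [ht]; omega) hQ0
  have h4 := h1.trans hstep
  refine ⟨k + 1, q ++ push (Jr A w.length) (Qr A w.length) (Er A f hl w) t c, by omega, h4, ?_, ?_⟩
  · refine ACells_append _ _ _ _ _ _ _ h2 ?_
    refine ⟨push (Jr A w.length) (Qr A w.length) (Er A f hl w) t c, [], by simp, ?_, rfl⟩
    refine ⟨_, r', hp, ?_, ?_, fun x hx => hnull _ (hr' x hx), by omega⟩
    · rw [if_pos rfl]
      simp only
      rw [Nat.mul_add_div hQ0, Nat.div_eq_of_lt (by omega), add_zero]
    · have h5 := hlv.2
      refine ⟨?_, ?_, ?_, ?_⟩ <;> simp only [ht, h5] <;> omega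
  · have h5 : (push (Jr A w.length) (Qr A w.length) (Er A f hl w) t c).length =
        Qr A w.length := by rw [push_length, hlen]
    have h6 : Qr A w.length * (w.length + 1) = Qr A w.length * w.length + Qr A w.length := by ring
    simp only [List.length_append, List.length_cons, List.length_nil] at h3 ⊢
    omega

end Pool.Agent.H28.PCP
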