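import Mathlib
import Pool.Agent.H28.PCP.TD0

set_option autoImplicit false

/-!
# TF0: helper lemmas for TF1, TF2, TF
-/

namespace Pool.Agent.H28.PCP

theorem push_null {A J Q n : ℕ} {E : ℕ → ℕ → Bool} {t : Tok} {c : ℕ}
    (h : ∀ x ∈ outs J Q (E t.sl) c, IsNull A n x) : ∀ x ∈ push J Q E t c, IsNull A n x.sl := by
  intro x hx
  rw [push, List.mem_mapIdx] at hx
  obtain ⟨i, hi, rfl⟩ := hx
  exact h _ (List.getElem_mem hi)

theorem ACells_split (A n M : ℕ) (l l' : List ℕ) (q : List Tok) (h : ACells A n M (l ++ l') q) :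
    ∃ q₁ q₂, q = q₁ ++ q₂ ∧ ACells A n M l q₁ ∧ ACells A n M l' q₂ := by
  induction l generalizing q with
  | nil => exact ⟨[], q, rfl, rfl, h⟩
  | cons a l ih =>
    obtain ⟨q₁, q₂, rfl, h1, h2⟩ := h
    obtain ⟨q₃, q₄, rfl, h3, h4⟩ := ih q₂ h2
    exact ⟨q₁ ++ q₃, q₄, (List.append_assoc _ _ _).symm, ⟨q₁, q₃, rfl, h1, h3⟩, h4⟩

theorem split_first (hl : ℕ → Bool) (l : List ℕ) (h : ∃ a ∈ l, hl a = true) :
    ∃ l₁ b l₂, l = l₁ ++ b :: l₂ ∧ hl b = true ∧ ∀ a ∈ l₁, hl a = false := by
  induction l with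
  | nil =>
    obtain ⟨a, ha, _⟩ := h
    simp at ha
  | cons a l ih =>
    by_cases ha : hl a = true
    · exact ⟨[], a, l, rfl, ha, fun x hx => by simp at hx⟩
    · have h' : ∃ a ∈ l, hl a = true := by
        obtain ⟨b, hb, hb'⟩ := h
        rcases List.mem_cons.1 hb with rfl | hb
        · exact absurd hb' ha
        · exact ⟨b, hb, hb'⟩
      obtain ⟨l₁, b, l₂, rfl, hb, hl₁⟩ := ih h'
      refine ⟨a :: l₁, b, l₂, rfl, hb, fun x hx => ?_⟩
      rcases List.mem_cons.1 hx with rfl | hx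
      · simpa using ha
      · exact hl₁ x hx

/-- reading one A-cell all of whose pushes are null -/
theorem cellA_null {A : ℕ} (f : ℕ → ℕ → ℕ) (hl : ℕ → Bool) (w : List ℕ)
    (M a y : ℕ) (q rest : List Tok) (hq : ACell A w.length M a q)
    (hM : Qr A w.length * M ≤ (q ++ rest).length)
    (hy : (q ++ rest).length + y ≤ Qr A w.length * (M + 2))
    (ho : ∀ r, r / Qr A w.length = (if a = 0 then 2 * A + 6 else 1 + a) →
      (∀ x ∈ outs (Jr A w.length) (Qr A w.length) (Er A f hl w r) (q ++ rest).length,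
        IsNull A w.length x) ∧
      (outs (Jr A w.length) (Qr A w.length) (Er A f hl w r) (q ++ rest).length).length = y) :
    ∃ k p, RchR A f hl w k (q ++ rest) (rest ++ p) ∧ (∀ x ∈ p, IsNull A w.length x.sl) ∧
      (rest ++ p).length + Qr A w.length = (q ++ rest).length + y := by
  obtain ⟨t, r, rfl, hsl, ⟨ht1, ht2, ht3, ht4⟩, hr, hrl⟩ := hq
  have hQ : 0 < Qr A w.length := Qr_pos A w.length
  have hlam : lamr w.length = w.length + 8 := rfl
  obtain ⟨ho1, ho2⟩ := ho t.sl hsl
  have hstep := cell_step (lam := lamr w.length) (E := Er A f hl w) t r rest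
    (t :: r ++ rest).length M (M + 2) (null_outs f hl w hr) rfl hM
    (by rw [ho2]; exact hy) ht3 (by omega) hQ
  refine ⟨r.length + 1, _, hstep, push_null ho1, ?_⟩
  rw [List.length_append, push_length, ho2, ← hrl]
  simp only [List.length_append, List.length_cons]
  omega

/-- reading one P-cell all of whose pushes are null -/
theorem cellP_null {A : ℕ} (f : ℕ → ℕ → ℕ) (hl : ℕ → Bool) (w : List ℕ)
    (M s a y : ℕ) (q rest : List Tok) (hq : PCell A w.length M s a q)
    (hM : Qr A w.length * M ≤ (q ++ rest).length)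
    (hy : (q ++ rest).length + y ≤ Qr A w.length * (M + 2))
    (ho : (∀ x ∈ outs (Jr A w.length) (Qr A w.length)
        (Er A f hl w (Qr A w.length * (1 + A + a) + 2 * s)) (q ++ rest).length,
        IsNull A w.length x) ∧
      (outs (Jr A w.length) (Qr A w.length)
        (Er A f hl w (Qr A w.length * (1 + A + a) + 2 * s)) (q ++ rest).length).length = y) :
    ∃ k p, RchR A f hl w k (q ++ rest) (rest ++ p) ∧ (∀ x ∈ p, IsNull A w.length x.sl) ∧
      (rest ++ p).length + (Qr A w.length + 2 * (if a = 0 then A else a)) =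
        (q ++ rest).length + y + 2 * s := by
  obtain ⟨t, r, rfl, hsl, ⟨ht1, ht2, ht3, ht4⟩, hr, hrl⟩ := hq
  have hQ : 0 < Qr A w.length := Qr_pos A w.length
  have hlam : lamr w.length = w.length + 8 := rfl
  rw [← hsl] at ho
  obtain ⟨ho1, ho2⟩ := ho
  have hstep := cell_step (lam := lamr w.length) (E := Er A f hl w) t r rest
    (t :: r ++ rest).length M (M + 2) (null_outs f hl w hr) rfl hM
    (by rw [ho2]; exact hy) ht3 (by omega) hQ
  refine ⟨r.length + 1, _, hstep, push_null ho1, ?_⟩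
  rw [List.length_append, push_length, ho2, ← hrl]
  simp only [List.length_append, List.length_cons]
  omega

end Pool.Agent.H28.PCP
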