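import Mathlib
import Pool.Agent.H28.PCP.TC
import Pool.Agent.H28.PCP.TF0

set_option autoImplicit false

/-!
# Module TF1: kill phase, pass A (killA)

`killA`: A-cells of `l ++ [0]` (any symbols `1 ≤ a < A`, halting or not) read at total length
`Q*M + 2A` (level `2A`): `outs_D_kill`, `outs_D_halt` with `s = A`: `Q` nulls per cell, length
unchanged; the end marker (`outs_H_kill`): `Q + 2` nulls, total `Q*M + 2A + 2`.
`killB`: P-cells of a list `l` of symbols `1 ≤ a < A` (no end marker), left symbol `s`, read at total
length `Q*M + 2A + 2 - 2s`: `outs_P_kill`: `Q` nulls; total length after the cell `a` is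
`Q*M + 2A + 2 - 2a`.
`kill`: pass A with a halting symbol: split `l = l₁ ++ h :: l₂` at the first halting symbol; process
`l₁` as in `passA` (use `cellA` and induction; get P-cells of `l₁`), then the halting cell at level
`2s` (`outs_D_halt`, `Q - 2s + 2A` nulls, total `Q*M + 2A`), then `killA` for `l₂ ++ [0]`, then `killB`
for the P-cells of `l₁` (the rest of the queue consists of nulls), then `Rch.nulls`.
Validity of all steps by `ok_of` with `K = M + 2` (as in module TD).
-/

namespace Pool.Agent.H28.PCP

theorem killA {A : ℕ} {f : ℕ → ℕ → ℕ} (hyp : Hyp A f) (hl : ℕ → Bool) (w : List ℕ)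
    (M : ℕ) (l : List ℕ) (hlA : ∀ a ∈ l, 1 ≤ a ∧ a < A)
    (q rest : List Tok) (hq : ACells A w.length M (l ++ [0]) q)
    (hlen : (q ++ rest).length = Qr A w.length * M + 2 * A) :
    ∃ k p, RchR A f hl w k (q ++ rest) (rest ++ p) ∧
      (∀ x ∈ p, IsNull A w.length x.sl) ∧
      (rest ++ p).length = Qr A w.length * M + 2 * A + 2 := by
  have hQ : 0 < Qr A w.length := Qr_pos A w.length
  have hQv : Qr A w.length = 2 * A + 4 + w.length := rfl
  have hA := hyp.hA
  have hQM2 : Qr A w.length * (M + 2) = Qr A w.length * M + 2 * Qr A w.length := by ring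
  induction l generalizing q rest with
  | nil =>
    obtain ⟨q₁, q₂, rfl, h1, h2⟩ := hq
    have h2' : q₂ = [] := h2
    subst h2'
    rw [List.append_nil] at hlen ⊢
    have hlv := lvl (Q := Qr A w.length) (M := M) (x := 2 * A) (by omega) hlen
    obtain ⟨k, p, hR, hP, hL⟩ := cellA_null f hl w M 0 (Qr A w.length + 2) q₁ rest h1
      (by omega) (by omega) (fun r hr => outs_H_kill A f hl w r _ (by simpa using hr) (by omega)
        hlv.1)
    exact ⟨k, p, hR, hP, by omega⟩
  | cons a l ih =>
    obtain ⟨q₁, q₂, rfl, h1, h2⟩ := hq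
    have ha := hlA a (by simp)
    rw [List.append_assoc] at hlen ⊢
    have hlv := lvl (Q := Qr A w.length) (M := M) (x := 2 * A) (by omega) hlen
    obtain ⟨k, p, hR, hP, hL⟩ := cellA_null f hl w M a (Qr A w.length) q₁ (q₂ ++ rest) h1
      (by omega) (by omega) (fun r hr => by
        rw [if_neg (by omega)] at hr
        by_cases hh : hl a = true
        · have h := outs_D_halt A f hl w r (q₁ ++ (q₂ ++ rest)).length a A ha.1 ha.2 hr hh le_rfl
            hlv.1
          exact ⟨h.1, by omega⟩
        · exact outs_D_kill A f hl w r (q₁ ++ (q₂ ++ rest)).length a ha.1 ha.2 hr (by simpa using hh)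
            hlv.1)
    rw [List.append_assoc] at hR hL
    obtain ⟨k', p', hR', hP', hL'⟩ := ih (fun x hx => hlA x (by simp [hx])) q₂
      (rest ++ p) h2 (by omega)
    rw [List.append_assoc] at hR' hL'
    refine ⟨k + k', p ++ p', hR.trans hR', ?_, hL'⟩
    intro x hx
    rcases List.mem_append.1 hx with hx | hx
    · exact hP x hx
    · exact hP' x hx

end Pool.Agent.H28.PCP
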