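import Mathlib
import Pool.Agent.H28.PCP.TC
import Pool.Agent.H28.PCP.TF0

set_option autoImplicit false

/-!
# Module TF2: kill phase, pass B (killB)

`killA`: A-cells of `l ++ [0]` (any symbols `1 ≤ a < A`, halting or not) read at total length
`Q*M + 2A` (level `2A`): `outs_D_kill`, `outs_D_halt` with `s = A`: `Q` nulls per cell, length
unchanged; the end marker (`outs_H_kill`): `Q + 2` nulls, total `Q*M + 2A + 2`.
`killB`: P-cells of a list `l` of symbols `1 ≤ a < A` (no end marker), left symbol `s`, read at total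
length `Q*M + 2A + 2 - 2s`: `outs_P_kill`: `Q` nulls; total length after the cell `a` is
`Q*M + 2A + 2 - 2a`.
`kill`: pass A with a halting symbol: split `l = l₁ ++ h :: l₂` at the first halting symbol; process
`l₁` as in `passA` (use `cellA` and induction; get P-cells of `l₁`), then the halting cell at level
`2s` (`outs_D_halt`, `Q - 2s + 2A` nulls, total `Q*M + 2A`), then `killA` for `l₂ ++ [0]`, then `killB`
for the P-cells of `l₁` (the rest of the queue consists of nulls), then `Rch.nulls`.
Validity of all steps by `ok_of` with `K = M + 2` (as in module TD).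
-/

namespace Pool.Agent.H28.PCP

theorem killB {A : ℕ} {f : ℕ → ℕ → ℕ} (hyp : Hyp A f) (hl : ℕ → Bool) (w : List ℕ)
    (M s : ℕ) (l : List ℕ) (hlA : ∀ a ∈ l, 1 ≤ a ∧ a < A) (hs : s < A)
    (q rest : List Tok) (hq : PCells A w.length M s l q)
    (hlen : (q ++ rest).length + 2 * s = Qr A w.length * M + 2 * A + 2) :
    ∃ k p, RchR A f hl w k (q ++ rest) (rest ++ p) ∧
      (∀ x ∈ p, IsNull A w.length x.sl) := by
  have hQ : 0 < Qr A w.length := Qr_pos A w.length
  have hQv : Qr A w.length = 2 * A + 4 + w.length := rfl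
  have hA := hyp.hA
  have hQM2 : Qr A w.length * (M + 2) = Qr A w.length * M + 2 * Qr A w.length := by ring
  induction l generalizing s q rest with
  | nil =>
    have hq' : q = [] := hq
    subst hq'
    refine ⟨0, [], ?_, fun x hx => by simp at hx⟩
    rw [List.append_nil, List.nil_append]
    exact Rch.refl _ _ _ _ _
  | cons a l ih =>
    obtain ⟨q₁, q₂, rfl, h1, h2⟩ := hq
    have ha := hlA a (by simp)
    rw [List.append_assoc] at hlen ⊢
    have hlen' : (q₁ ++ (q₂ ++ rest)).length = Qr A w.length * M + (2 * A + 2 - 2 * s) := by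
      omega
    have hlv := lvl (Q := Qr A w.length) (M := M) (x := 2 * A + 2 - 2 * s) (by omega) hlen'
    have hf := hyp.hf s hs a ha.1 ha.2
    obtain ⟨k, p, hR, hP, hL⟩ := cellP_null f hl w M s a (Qr A w.length) q₁ (q₂ ++ rest) h1
      (by omega) (by omega) (outs_P_kill A f hl w _ a s ha.1 ha.2 hs hf.1 hf.2 hlv.1)
    rw [if_neg (by omega)] at hL
    rw [List.append_assoc] at hR hL
    obtain ⟨k', p', hR', hP'⟩ := ih a (fun x hx => hlA x (by simp [hx])) ha.2 q₂
      (rest ++ p) h2 (by omega)
    rw [List.append_assoc] at hR'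
    refine ⟨k + k', p ++ p', hR.trans hR', ?_⟩
    intro x hx
    rcases List.mem_append.1 hx with hx | hx
    · exact hP x hx
    · exact hP' x hx

end Pool.Agent.H28.PCP
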