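import Mathlib
import Pool.Agent.H28.PCP.TD
import Pool.Agent.H28.PCP.TF1
import Pool.Agent.H28.PCP.TF2

set_option autoImplicit false

/-!
# Module TF: kill phase (passA', kill; from TD, TF1, TF2)

`killA`: A-cells of `l ++ [0]` (any symbols `1 ≤ a < A`, halting or not) read at total length
`Q*M + 2A` (level `2A`): `outs_D_kill`, `outs_D_halt` with `s = A`: `Q` nulls per cell, length
unchanged; the end marker (`outs_H_kill`): `Q + 2` nulls, total `Q*M + 2A + 2`.
`killB`: P-cells of a list `l` of symbols `1 ≤ a < A` (no end marker), left symbol `s`, read at total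
length `Q*M + 2A + 2 - 2s`: `outs_P_kill`: `Q` nulls; total length after the cell `a` is
`Q*M + 2A + 2 - 2a`.
`kill`: pass A with a halting symbol: split `l = l₁ ++ h :: l₂` at the first halting symbol; process
`l₁` as in `passA` (use `cellA` and induction; get P-cells of `l₁`), then the halting cell at level
`2s` (`outs_D_halt`, `Q - 2s + 2A` nulls, total `Q*M + 2A`), then `killA` for `l₂ ++ [0]`, then `killB`
for the P-cells of `l₁` (the rest of the queue consists of nulls), then `Rch.nulls`.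
Validity of all steps by `ok_of` with `K = M + 2` (as in module TD).
-/

namespace Pool.Agent.H28.PCP

/-- pass A on cells without end marker -/
theorem passA' {A : ℕ} {f : ℕ → ℕ → ℕ} (hyp : Hyp A f) (hl : ℕ → Bool) (w : List ℕ)
    (M s : ℕ) (l : List ℕ) (hlA : ∀ a ∈ l, 1 ≤ a ∧ a < A ∧ hl a = false) (hs : s < A)
    (q rest : List Tok) (hq : ACells A w.length M l q)
    (hlen : (q ++ rest).length = Qr A w.length * M + 2 * s) :
    ∃ k p s', s' < A ∧ RchR A f hl w k (q ++ rest) (rest ++ p) ∧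
      PCells A w.length M s l p ∧ (rest ++ p).length = Qr A w.length * M + 2 * s' := by
  induction l generalizing s q rest with
  | nil =>
    have hq' : q = [] := hq
    subst hq'
    refine ⟨0, [], s, hs, ?_, rfl, ?_⟩
    · rw [List.append_nil, List.nil_append]
      exact Rch.refl _ _ _ _ _
    · simpa using hlen
  | cons a l ih =>
    obtain ⟨q₁, q₂, rfl, h1, h2⟩ := hq
    have ha := hlA a (by simp)
    rw [List.append_assoc] at hlen ⊢
    obtain ⟨k, p, hk, hR, hP, hL⟩ := cellA hyp hl w M a s ha.2.1 (fun _ => ha.2.2) hs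
      q₁ (q₂ ++ rest) h1 hlen
    rw [if_neg (by omega)] at hL
    rw [List.append_assoc] at hR hL
    obtain ⟨k', p', s', hs', hR', hP', hL'⟩ := ih a (fun x hx => hlA x (by simp [hx])) ha.2.1 q₂
      (rest ++ p) h2 hL
    rw [List.append_assoc] at hR' hL'
    exact ⟨k + k', p ++ p', s', hs', hR.trans hR', ⟨p, p', rfl, hP, hP'⟩, hL'⟩

theorem kill {A : ℕ} {f : ℕ → ℕ → ℕ} (hyp : Hyp A f) (hl : ℕ → Bool) (w : List ℕ)
    (M : ℕ) (l : List ℕ) (hlA : ∀ a ∈ l, 1 ≤ a ∧ a < A) (hh : ∃ a ∈ l, hl a = true)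
    (q : List Tok) (hq : ACells A w.length M (l ++ [0]) q)
    (hlen : q.length = Qr A w.length * M) :
    ∃ k, RchR A f hl w k q [] := by
  have hQ : 0 < Qr A w.length := Qr_pos A w.length
  have hQv : Qr A w.length = 2 * A + 4 + w.length := rfl
  have hA := hyp.hA
  have hQM2 : Qr A w.length * (M + 2) = Qr A w.length * M + 2 * Qr A w.length := by ring
  obtain ⟨l₁, b, l₂, rfl, hb, hl₁⟩ := split_first hl l hh
  rw [List.append_assoc] at hq
  obtain ⟨q₁, q₂, rfl, hq1, hq2⟩ := ACells_split A w.length M _ _ _ hq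
  rw [List.cons_append] at hq2
  obtain ⟨q₃, q₄, rfl, hq3, hq4⟩ := hq2
  have hbA := hlA b (by simp)
  obtain ⟨k, p, s', hs', hR, hP, hL⟩ := passA' hyp hl w M 0 l₁
    (fun a ha => ⟨(hlA a (by simp [ha])).1, (hlA a (by simp [ha])).2, hl₁ a ha⟩) (by omega)
    q₁ (q₃ ++ q₄) hq1 (by rw [hlen]; omega)
  rw [List.append_assoc] at hR hL
  -- the halting cell
  have hlv := lvl (Q := Qr A w.length) (M := M) (x := 2 * s') (by omega) hL
  obtain ⟨k₂, p₂, hR2, hP2, hL2⟩ := cellA_null f hl w M b (Qr A w.length + 2 * A - 2 * s') q₃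
    (q₄ ++ p) hq3 (by omega) (by omega) (fun r hr => by
      rw [if_neg (by omega)] at hr
      have h := outs_D_halt A f hl w r (q₃ ++ (q₄ ++ p)).length b s' hbA.1 hbA.2 hr hb
        (by omega) hlv.1
      exact ⟨h.1, by omega⟩)
  rw [List.append_assoc] at hR2 hL2
  obtain ⟨k₃, p₃, hR3, hP3, hL3⟩ := killA hyp hl w M l₂
    (fun a ha => hlA a (by simp [ha])) q₄ (p ++ p₂) hq4 (by omega)
  rw [List.append_assoc] at hR3 hL3
  obtain ⟨k₄, p₄, hR4, hP4⟩ := killB hyp hl w M 0 l₁
    (fun a ha => hlA a (by simp [ha])) (by omega) p (p₂ ++ p₃) hP (by omega)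
  have hR5 := Rch.nulls (lam := lamr w.length) (p₂ ++ p₃ ++ p₄) [] (null_outs f hl w (r := p₂ ++ p₃ ++ p₄)
    (fun x hx => by
      rcases List.mem_append.1 hx with hx | hx
      · rcases List.mem_append.1 hx with hx | hx
        · exact hP2 x hx
        · exact hP3 x hx
      · exact hP4 x hx))
  rw [List.append_nil] at hR5
  exact ⟨_, (((hR.trans hR2).trans hR3).trans hR4).trans hR5⟩

end Pool.Agent.H28.PCP
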