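import Mathlib
import Pool.Agent.H28.PCP.TD3
import Pool.Agent.H28.PCP.TE
import Pool.Agent.H28.PCP.TF

set_option autoImplicit false

/-!
# Module TG: the ring program simulates the word automaton

`boot`, then `passA` + `passB` (with `s = 0`; `zipWith f (0 :: l) (l ++ [1]) = stepW f l` by `hf0`)
as long as no halting symbol occurs, `kill` when one occurs.  All symbols stay in `[1, A)`.
If the automaton halts (at time `t`): `q0` leads to `[]` in finitely many valid steps and after that
`stepQ [] = []`, `OK [] = True`.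
If not: for every `K` there are `k ≥ K` and a ring `q` (nonempty, since it has cells) with
`Rch k q0 q` (each macro step has `k ≥ 1`), so all steps are valid and the queue never is empty.
-/

namespace Pool.Agent.H28.PCP

theorem stepW_eq {A : ℕ} {f : ℕ → ℕ → ℕ} (hyp : Hyp A f) (l : List ℕ) :
    List.zipWith f (0 :: l) (l ++ [1]) = stepW f l := by
  cases l with
  | nil => simp [stepW, hyp.hf0]
  | cons a l => simp [stepW, hyp.hf0]

theorem stepW_mem {A : ℕ} {f : ℕ → ℕ → ℕ} (hyp : Hyp A f) (l : List ℕ)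
    (h : ∀ a ∈ l, 1 ≤ a ∧ a < A) : ∀ a ∈ stepW f l, 1 ≤ a ∧ a < A := by
  intro a ha
  have hA := hyp.hA
  rw [stepW, List.mem_iff_getElem] at ha
  obtain ⟨i, hi, rfl⟩ := ha
  rw [List.getElem_zipWith]
  rw [List.length_zipWith, lt_min_iff] at hi
  have h1 : (1 :: l)[i]'hi.1 < A := by
    have hm := List.getElem_mem (l := 1 :: l) hi.1
    rw [List.mem_cons] at hm
    rcases hm with hm | hm
    · omega
    · exact (h _ hm).2
  have h2 : 1 ≤ (l ++ [1])[i]'hi.2 ∧ (l ++ [1])[i]'hi.2 < A := by
    have hm := List.getElem_mem (l := l ++ [1]) hi.2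
    rw [List.mem_append, List.mem_singleton] at hm
    rcases hm with hm | hm
    · exact h _ hm
    · omega
  exact hyp.hf _ h1 _ h2.1 h2.2

theorem stepW_iter_mem {A : ℕ} {f : ℕ → ℕ → ℕ} (hyp : Hyp A f) (w : List ℕ)
    (h : ∀ a ∈ w, 1 ≤ a ∧ a < A) (t : ℕ) : ∀ a ∈ (stepW f)^[t] w, 1 ≤ a ∧ a < A := by
  induction t with
  | zero => exact h
  | succ t ih =>
    rw [Function.iterate_succ_apply']
    exact stepW_mem hyp _ ih

/-- as long as no halting symbol occurs the ring simulates the automaton -/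
theorem ts_run {A : ℕ} {f : ℕ → ℕ → ℕ} (hyp : Hyp A f) (hl : ℕ → Bool) (w : List ℕ)
    (hw : ∀ a ∈ w, 1 ≤ a ∧ a < A) (t : ℕ)
    (ht : ∀ i < t, ∀ a ∈ (stepW f)^[i] w, hl a = false) :
    ∃ k q, t ≤ k ∧ RchR A f hl w k q0 q ∧
      ACells A w.length (w.length + 1 + t) ((stepW f)^[t] w ++ [0]) q ∧
      q.length = Qr A w.length * (w.length + 1 + t) := by
  induction t with
  | zero =>
    obtain ⟨k, q, -, h1, h2, h3⟩ := boot hyp hl w hw
    exact ⟨k, q, Nat.zero_le _, h1, h2, h3⟩
  | succ t ih =>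
    obtain ⟨k, q, hk, h1, h2, h3⟩ := ih fun i hi => ht i (by omega)
    have hA := hyp.hA
    have hmem := stepW_iter_mem hyp w hw t
    obtain ⟨k1, p, hk1, a1, a2, a3⟩ := passA hyp hl w (w.length + 1 + t) 0 ((stepW f)^[t] w)
      (fun a ha => ⟨(hmem a ha).1, (hmem a ha).2, ht t (by omega) a ha⟩) (by omega) q [] h2
      (by rw [List.append_nil, h3]; rfl)
    rw [List.append_nil, List.nil_append] at a1
    rw [List.nil_append] at a3
    obtain ⟨k2, p2, hk2, b1, b2, b3⟩ := passB hyp hl w (w.length + 1 + t) 0 ((stepW f)^[t] w)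
      hmem (by omega) p [] a2 (by rw [List.append_nil, a3, Nat.mul_zero, Nat.add_zero])
    rw [List.append_nil, List.nil_append] at b1
    rw [List.nil_append] at b3
    rw [stepW_eq hyp, ← Function.iterate_succ_apply' (stepW f) t w] at b2
    exact ⟨k + k1 + k2, p2, by omega, (h1.trans a1).trans b1, b2, b3⟩

theorem ts_halt {A : ℕ} {f : ℕ → ℕ → ℕ} (hyp : Hyp A f) (hl : ℕ → Bool) (w : List ℕ)
    (hw : ∀ a ∈ w, 1 ≤ a ∧ a < A) (hh : ∃ t, ∃ a ∈ (stepW f)^[t] w, hl a = true) :
    ∃ k, RchR A f hl w k q0 [] := by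
  classical
  set t := Nat.find hh with ht
  have h1 : ∃ a ∈ (stepW f)^[t] w, hl a = true := Nat.find_spec hh
  have h2 : ∀ i < t, ∀ a ∈ (stepW f)^[i] w, hl a = false := by
    intro i hi a ha
    have h3 := Nat.find_min hh hi
    push Not at h3
    simpa using h3 a ha
  obtain ⟨k, q, -, b1, b2, b3⟩ := ts_run hyp hl w hw t h2
  obtain ⟨k', c1⟩ := kill hyp hl w _ _ (stepW_iter_mem hyp w hw t) h1 q b2 b3
  exact ⟨k + k', b1.trans c1⟩

theorem stepQ_iter_nil (J Q : ℕ) (E : ℕ → ℕ → Bool) (k : ℕ) : (stepQ J Q E)^[k] [] = [] := by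
  induction k with
  | zero => rfl
  | succ k ih => rw [Function.iterate_succ_apply', ih]; rfl

theorem ts_ring {A : ℕ} {f : ℕ → ℕ → ℕ} (hyp : Hyp A f) (hl : ℕ → Bool) (w : List ℕ)
    (hw : ∀ a ∈ w, 1 ≤ a ∧ a < A) :
    (∀ u, OK (Jr A w.length) (Qr A w.length) (lamr w.length) (Er A f hl w)
      ((stepQ (Jr A w.length) (Qr A w.length) (Er A f hl w))^[u] q0)) ∧
    ((∃ u, (stepQ (Jr A w.length) (Qr A w.length) (Er A f hl w))^[u] q0 = []) ↔
      ∃ t, ∃ a ∈ (stepW f)^[t] w, hl a = true) := by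
  by_cases hh : ∃ t, ∃ a ∈ (stepW f)^[t] w, hl a = true
  · obtain ⟨k, h1, h2⟩ := ts_halt hyp hl w hw hh
    refine ⟨fun u => ?_, fun _ => hh, fun _ => ⟨k, h1⟩⟩
    by_cases hu : u < k
    · exact (h2 u hu).1
    · obtain ⟨j, rfl⟩ : ∃ j, u = j + k := ⟨u - k, by omega⟩
      rw [Function.iterate_add_apply, h1, stepQ_iter_nil]
      trivial
  · have hno : ∀ i, ∀ a ∈ (stepW f)^[i] w, hl a = false := by
      intro i a ha
      by_contra hcon
      exact hh ⟨i, a, ha, by simpa using hcon⟩
    refine ⟨fun u => ?_, fun ⟨u, hu⟩ => ?_, fun h => absurd h hh⟩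
    · obtain ⟨k, q, hk, h1, -, -⟩ := ts_run hyp hl w hw (u + 1) fun i _ => hno i
      exact (h1.2 u (by omega)).1
    · obtain ⟨k, q, hk, h1, -, -⟩ := ts_run hyp hl w hw (u + 1) fun i _ => hno i
      exact absurd hu (h1.2 u (by omega)).2

/-- no slot pushes itself -/
theorem Er_self {A : ℕ} {f : ℕ → ℕ → ℕ} (hyp : Hyp A f) (hl : ℕ → Bool) (w : List ℕ) (a : ℕ) :
    Er A f hl w a a = false := by
  have hA := hyp.hA
  rw [Er]
  generalize a / Qr A w.length = b
  generalize a % Qr A w.length = q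
  unfold rule
  simp only []
  by_cases h0 : b = 0
  · rw [if_pos h0]
    subst h0
    by_cases h1 : q = 0
    · rw [if_pos h1, decide_eq_false_iff_not]
      omega
    · rw [if_neg h1]
      by_cases h2 : q ≤ w.length
      · rw [if_pos h2, decide_eq_false_iff_not]
        omega
      · rw [if_neg h2]
        by_cases h3 : q = w.length + 1
        · rw [if_pos h3, decide_eq_false_iff_not]
          omega
        · rw [if_neg h3]
  · rw [if_neg h0]
    by_cases h1 : b ≤ A
    · rw [if_pos h1]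
      by_cases h2 : hl (b - 1) = true
      · rw [if_pos h2, decide_eq_false_iff_not]
        omega
      · rw [if_neg h2, decide_eq_false_iff_not]
        omega
    · rw [if_neg h1]
      by_cases h2 : b = 2 * A + 6
      · rw [if_pos h2, decide_eq_false_iff_not]
        omega
      · rw [if_neg h2]
        by_cases h3 : b = 1 + A
        · rw [if_pos h3]
          by_cases h4 : q < 2 * A
          · have h5 := hyp.hf (q / 2) (by omega) 1 le_rfl (by omega)
            rw [if_pos h4, decide_eq_false_iff_not]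
            omega
          · rw [if_neg h4]
        · rw [if_neg h3]
          by_cases h4 : b < 1 + 2 * A
          · rw [if_pos h4]
            by_cases h5 : q < 2 * A
            · have h6 := hyp.hf (q / 2) (by omega) (b - 1 - A) (by omega) (by omega)
              rw [if_pos h5, decide_eq_false_iff_not]
              omega
            · rw [if_neg h5]
          · rw [if_neg h4]

end Pool.Agent.H28.PCP
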