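import Mathlib
import Pool.Agent.H28.PCP.Defs

set_option autoImplicit false

/-!
# Module KA: the four pairs are a primitive recursive function of the word

`rule` is a nested if of arithmetic conditions (`PrimrecPred` lemmas: `Primrec.nat_lt`,
`Primrec.eq`, `PrimrecPred.and`, `.or`, `.not`, `Primrec.ite`; division and remainder are primitive
recursive), `Er` a composition.  `Vf` contains bounded quantifiers `∃ t < ε, ∃ j < J`
(`PrimrecRel.exists_lt`).  `inst` uses `List.range`, `List.map`, `List.flatMap`, `List.take`,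
`List.replicate` (`Primrec.list_map`, `Primrec.list_flatMap`, `Primrec.list_range`, ...; e.g. the
word of `Vf` may be rewritten as `(List.range (L*β - (β-ε-1))).map (fun p => if p % β = 0 then
(if V (p/β) then 0 else 1) else 2)`).  The value type `Fin 4 → List ℕ × List ℕ` is
`Primcodable.finArrow`; `Primrec.fin_curry`, `Primrec.fin_curry₁` or `Primrec.vector_ofFn`.
-/

namespace Pool.Agent.H28.PCP

section combinators

variable {α : Type*} [Primcodable α]

theorem kaAdd {f g : α → ℕ} (hf : Primrec f) (hg : Primrec g) : Primrec (fun x => f x + g x) :=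
  Primrec.nat_add.comp hf hg

theorem kaSub {f g : α → ℕ} (hf : Primrec f) (hg : Primrec g) : Primrec (fun x => f x - g x) :=
  Primrec.nat_sub.comp hf hg

theorem kaMul {f g : α → ℕ} (hf : Primrec f) (hg : Primrec g) : Primrec (fun x => f x * g x) :=
  Primrec.nat_mul.comp hf hg

theorem kaDiv {f g : α → ℕ} (hf : Primrec f) (hg : Primrec g) : Primrec (fun x => f x / g x) :=
  Primrec.nat_div.comp hf hg

theorem kaMod {f g : α → ℕ} (hf : Primrec f) (hg : Primrec g) : Primrec (fun x => f x % g x) :=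
  Primrec.nat_mod.comp hf hg

theorem kaLt {f g : α → ℕ} (hf : Primrec f) (hg : Primrec g) :
    PrimrecPred (fun x => f x < g x) := Primrec.nat_lt.comp hf hg

theorem kaLe {f g : α → ℕ} (hf : Primrec f) (hg : Primrec g) :
    PrimrecPred (fun x => f x ≤ g x) := Primrec.nat_le.comp hf hg

theorem kaEq {f g : α → ℕ} (hf : Primrec f) (hg : Primrec g) :
    PrimrecPred (fun x => f x = g x) := Primrec.eq.comp hf hg

theorem kaEqB {f g : α → Bool} (hf : Primrec f) (hg : Primrec g) :
    PrimrecPred (fun x => f x = g x) := Primrec.eq.comp hf hg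

theorem kaGetD {f : α → List ℕ} {g : α → ℕ} (d : ℕ) (hf : Primrec f) (hg : Primrec g) :
    Primrec (fun x => (f x).getD (g x) d) := (Primrec.list_getD d).comp hf hg

theorem kaLen {f : α → List ℕ} (hf : Primrec f) : Primrec (fun x => (f x).length) :=
  Primrec.list_length.comp hf

theorem kaEx {b : α → ℕ} {P : ℕ → α → Prop} (hb : Primrec b)
    (hP : PrimrecPred (fun z : ℕ × α => P z.1 z.2)) : PrimrecPred (fun x => ∃ t < b x, P t x) := by
  have h := (PrimrecRel.exists_mem_list (R := P) hP).comp (Primrec.list_range.comp hb)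
    (Primrec.id (α := α))
  refine h.of_eq fun x => ?_
  simp only [List.mem_range, id]

theorem kaRepl {f : α → ℕ} (c : ℕ) (hf : Primrec f) :
    Primrec (fun x => List.replicate (f x) c) := by
  refine (Primrec.list_map (Primrec.list_range.comp hf) (Primrec₂.const c)).of_eq fun x => ?_
  rw [List.map_const', List.length_range]

end combinators

/-- functions with finite support are primitive recursive -/
theorem primrec_fin2 (A : ℕ) (f : ℕ → ℕ → ℕ) (h : ∀ s a, (A ≤ s ∨ A ≤ a) → f s a = 1) :
    Primrec₂ f := by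
  have h1 : Primrec (fun z : ℕ × ℕ => if z.1 < A ∧ z.2 < A then
      ((List.range (A * A)).map (fun k => f (k / A) (k % A))).getD (z.1 * A + z.2) 1 else 1) := by
    refine Primrec.ite ((kaLt Primrec.fst (Primrec.const A)).and
      (kaLt Primrec.snd (Primrec.const A))) ?_ (Primrec.const 1)
    exact kaGetD 1 (Primrec.const _) (kaAdd (kaMul Primrec.fst (Primrec.const A)) Primrec.snd)
  refine h1.of_eq ?_
  rintro ⟨s, a⟩
  simp only
  split_ifs with hc
  · obtain ⟨hs, ha⟩ := hc
    have hlt : s * A + a < A * A := by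
      calc s * A + a < s * A + A := by omega
        _ = (s + 1) * A := by ring
        _ ≤ A * A := Nat.mul_le_mul_right A hs
    have hA : 0 < A := by omega
    have e1 : (s * A + a) / A = s := by
      rw [Nat.add_comm, Nat.add_mul_div_right _ _ hA, Nat.div_eq_of_lt ha, Nat.zero_add]
    have e2 : (s * A + a) % A = a := by
      rw [Nat.add_comm, Nat.add_mul_mod_self_right, Nat.mod_eq_of_lt ha]
    rw [List.getD_eq_getElem?_getD, List.getElem?_map, List.getElem?_range hlt]
    simp only [Option.map_some, Option.getD_some, e1, e2]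
  · rw [h]
    by_contra hcon
    push Not at hcon
    exact hc hcon

theorem primrec_fin1 (A : ℕ) (hl : ℕ → Bool) (h : ∀ a, A ≤ a → hl a = false) : Primrec hl := by
  refine ((Primrec.list_getD false).comp (Primrec.const ((List.range A).map hl))
    Primrec.id).of_eq fun a => ?_
  simp only [id]
  rw [List.getD_eq_getElem?_getD, List.getElem?_map]
  by_cases ha : a < A
  · rw [List.getElem?_range ha]
    rfl
  · rw [List.getElem?_eq_none (by simpa using ha)]
    simp only [Option.map_none, Option.getD_none]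
    exact (h a (by omega)).symm

theorem Qr_primrec (A : ℕ) {α : Type*} [Primcodable α] {g : α → ℕ} (hg : Primrec g) :
    Primrec (fun x => Qr A (g x)) := by
  unfold Qr
  repeat' first
    | assumption
    | exact Primrec.const _
    | apply kaLt
    | apply kaLe
    | apply kaEq
    | apply kaEqB
    | apply PrimrecPred.and
    | apply PrimrecPred.or
    | apply Primrec.ite
    | apply PrimrecPred.decide
    | apply kaAdd
    | apply kaSub
    | apply kaMul
    | apply kaDiv
    | apply kaMod
    | apply kaGetD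
    | apply kaLen
    | apply Primrec₂.comp ‹_›
    | apply Primrec.comp ‹_›

theorem rule_primrec (A : ℕ) (f : ℕ → ℕ → ℕ) (hl : ℕ → Bool) (hf : Primrec₂ f)
    (hhl : Primrec hl) : Primrec (fun z : List ℕ × ℕ × ℕ × ℕ × ℕ =>
      rule A f hl z.1 z.2.1 z.2.2.1 z.2.2.2.1 z.2.2.2.2) := by
  have h0 : Primrec (fun z : List ℕ × ℕ × ℕ × ℕ × ℕ => z.1) := Primrec.fst
  have h1 : Primrec (fun z : List ℕ × ℕ × ℕ × ℕ × ℕ => z.2.1) := Primrec.fst.comp Primrec.snd
  have h2 : Primrec (fun z : List ℕ × ℕ × ℕ × ℕ × ℕ => z.2.2.1) :=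
    Primrec.fst.comp (Primrec.snd.comp Primrec.snd)
  have h3 : Primrec (fun z : List ℕ × ℕ × ℕ × ℕ × ℕ => z.2.2.2.1) :=
    Primrec.fst.comp (Primrec.snd.comp (Primrec.snd.comp Primrec.snd))
  have h4 : Primrec (fun z : List ℕ × ℕ × ℕ × ℕ × ℕ => z.2.2.2.2) :=
    Primrec.snd.comp (Primrec.snd.comp (Primrec.snd.comp Primrec.snd))
  have hn : Primrec (fun z : List ℕ × ℕ × ℕ × ℕ × ℕ => z.1.length) := kaLen h0
  have hQ : Primrec (fun z : List ℕ × ℕ × ℕ × ℕ × ℕ => Qr A z.1.length) := Qr_primrec A hn
  have hW : Primrec (fun z : List ℕ × ℕ × ℕ × ℕ × ℕ => z.1.getD (z.2.2.1 - 1) 1) :=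
    kaGetD 1 h0 (kaSub h2 (Primrec.const 1))
  have hH : PrimrecPred (fun z : List ℕ × ℕ × ℕ × ℕ × ℕ => hl (z.2.1 - 1) = true) :=
    kaEqB (hhl.comp (kaSub h1 (Primrec.const 1))) (Primrec.const true)
  have hf1 : Primrec (fun z : List ℕ × ℕ × ℕ × ℕ × ℕ => f (z.2.2.1 / 2) 1) :=
    hf.comp (kaDiv h2 (Primrec.const 2)) (Primrec.const 1)
  have hf2 : Primrec (fun z : List ℕ × ℕ × ℕ × ℕ × ℕ => f (z.2.2.1 / 2) (z.2.1 - 1 - A)) :=
    hf.comp (kaDiv h2 (Primrec.const 2)) (kaSub (kaSub h1 (Primrec.const 1)) (Primrec.const A))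
  unfold rule
  simp only
  repeat' first
    | assumption
    | exact Primrec.const _
    | apply kaLt
    | apply kaLe
    | apply kaEq
    | apply kaEqB
    | apply PrimrecPred.and
    | apply PrimrecPred.or
    | apply Primrec.ite
    | apply PrimrecPred.decide
    | apply kaAdd
    | apply kaSub
    | apply kaMul
    | apply kaDiv
    | apply kaMod
    | apply kaGetD
    | apply kaLen
    | apply Primrec₂.comp ‹_›
    | apply Primrec.comp ‹_›

/-- the ring table -/
theorem Er_primrec (A : ℕ) (f : ℕ → ℕ → ℕ) (hl : ℕ → Bool) (hf : Primrec₂ f) (hhl : Primrec hl) :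
    Primrec (fun x : List ℕ × (ℕ × ℕ) => Er A f hl x.1 x.2.1 x.2.2) := by
  have h0 : Primrec (fun z : List ℕ × ℕ × ℕ => z.1) := Primrec.fst
  have h1 : Primrec (fun z : List ℕ × ℕ × ℕ => z.2.1) := Primrec.fst.comp Primrec.snd
  have h2 : Primrec (fun z : List ℕ × ℕ × ℕ => z.2.2) := Primrec.snd.comp Primrec.snd
  have hQ : Primrec (fun z : List ℕ × ℕ × ℕ => Qr A z.1.length) := Qr_primrec A (kaLen h0)
  exact (rule_primrec A f hl hf hhl).comp (Primrec.pair h0 (Primrec.pair (kaDiv h1 hQ)
    (Primrec.pair (kaMod h1 hQ) (Primrec.pair (kaDiv h2 hQ) (kaMod h2 hQ)))))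

end Pool.Agent.H28.PCP
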