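import Mathlib
import Pool.Agent.H28.PCP.KA

set_option autoImplicit false

/-!
# Module KC: the four pairs are a primitive recursive function of the word

`rule` is a nested if of arithmetic conditions (`PrimrecPred` lemmas: `Primrec.nat_lt`,
`Primrec.eq`, `PrimrecPred.and`, `.or`, `.not`, `Primrec.ite`; division and remainder are primitive
recursive), `Er` a composition.  `Vf` contains bounded quantifiers `∃ t < ε, ∃ j < J`
(`PrimrecRel.exists_lt`).  `inst` uses `List.range`, `List.map`, `List.flatMap`, `List.take`,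
`List.replicate` (`Primrec.list_map`, `Primrec.list_flatMap`, `Primrec.list_range`, ...; e.g. the
word of `Vf` may be rewritten as `(List.range (L*β - (β-ε-1))).map (fun p => if p % β = 0 then
(if V (p/β) then 0 else 1) else 2)`).  The value type `Fin 4 → List ℕ × List ℕ` is
`Primcodable.finArrow`; `Primrec.fin_curry`, `Primrec.fin_curry₁` or `Primrec.vector_ofFn`.
-/

namespace Pool.Agent.H28.PCP

theorem Jr_primrec (A : ℕ) {α : Type*} [Primcodable α] {g : α → ℕ} (hg : Primrec g) :
    Primrec (fun x => Jr A (g x)) := kaMul (Qr_primrec A hg) (Primrec.const _)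

theorem lamr_primrec {α : Type*} [Primcodable α] {g : α → ℕ} (hg : Primrec g) :
    Primrec (fun x => lamr (g x)) := kaAdd hg (Primrec.const _)

theorem epsr_primrec (A : ℕ) {α : Type*} [Primcodable α] {g : α → ℕ} (hg : Primrec g) :
    Primrec (fun x => epsr A (g x)) :=
  kaAdd (kaMul (kaAdd (lamr_primrec hg) (Primrec.const 1)) (Jr_primrec A hg)) (Primrec.const 4)

/-- `Vf` with parameters given by primitive recursive functions -/
theorem Vf_primrec_aux {α : Type*} [Primcodable α] {J Q lam ε : α → ℕ} {E : α → ℕ → ℕ → Bool}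
    {g : α → ℕ} (hJ : Primrec J) (hQ : Primrec Q) (hlam : Primrec lam) (hε : Primrec ε)
    (hE : Primrec (fun x : α × (ℕ × ℕ) => E x.1 x.2.1 x.2.2)) (hg : Primrec g) :
    Primrec (fun x : α => Vf (J x) (Q x) (lam x) (ε x) (E x) (g x)) := by
  unfold Vf
  apply PrimrecPred.decide
  refine (kaEq hg (Primrec.const 0)).or ?_
  refine kaEx (P := fun t (x : α) => ∃ j < J x,
    E x (t / lam x) j = true ∧
      g x + t + ε x * (j % Q x) =
        Q x * ε x * (lam x * j + ε x * ((t / lam x) % Q x) + 1)) hε ?_
  refine kaEx (P := fun j (z : ℕ × α) =>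
    E z.2 (z.1 / lam z.2) j = true ∧
      g z.2 + z.1 + ε z.2 * (j % Q z.2) =
        Q z.2 * ε z.2 * (lam z.2 * j + ε z.2 * ((z.1 / lam z.2) % Q z.2) + 1))
    (hJ.comp Primrec.snd) ?_
  have hj : Primrec (fun z : ℕ × (ℕ × α) => z.1) := Primrec.fst
  have ht : Primrec (fun z : ℕ × (ℕ × α) => z.2.1) := Primrec.fst.comp Primrec.snd
  have hx : Primrec (fun z : ℕ × (ℕ × α) => z.2.2) := Primrec.snd.comp Primrec.snd
  have hQ' : Primrec (fun z : ℕ × (ℕ × α) => Q z.2.2) := hQ.comp hx
  have hJ' : Primrec (fun z : ℕ × (ℕ × α) => J z.2.2) := hJ.comp hx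
  have hlam' : Primrec (fun z : ℕ × (ℕ × α) => lam z.2.2) := hlam.comp hx
  have hε' : Primrec (fun z : ℕ × (ℕ × α) => ε z.2.2) := hε.comp hx
  have hg' : Primrec (fun z : ℕ × (ℕ × α) => g z.2.2) := hg.comp hx
  have hd : Primrec (fun z : ℕ × (ℕ × α) => z.2.1 / lam z.2.2) := kaDiv ht hlam'
  have hE' : Primrec (fun z : ℕ × (ℕ × α) => E z.2.2 (z.2.1 / lam z.2.2) z.1) :=
    hE.comp (Primrec.pair hx (Primrec.pair hd hj))
  refine (kaEqB hE' (Primrec.const true)).and ?_
  refine kaEq (kaAdd (kaAdd hg' ht) (kaMul hε' (kaMod hj hQ'))) ?_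
  exact kaMul (kaMul hQ' hε') (kaAdd (kaAdd (kaMul hlam' hj) (kaMul hε' (kaMod hd hQ')))
    (Primrec.const 1))

theorem Vf_primrec (A : ℕ) (f : ℕ → ℕ → ℕ) (hl : ℕ → Bool) (hf : Primrec₂ f) (hhl : Primrec hl) :
    Primrec (fun x : List ℕ × ℕ => Vf (Jr A x.1.length) (Qr A x.1.length) (lamr x.1.length)
      (epsr A x.1.length) (Er A f hl x.1) x.2) := by
  have hn : Primrec (fun x : List ℕ × ℕ => x.1.length) := kaLen Primrec.fst
  have hE : Primrec (fun x : (List ℕ × ℕ) × (ℕ × ℕ) => Er A f hl x.1.1 x.2.1 x.2.2) :=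
    (Er_primrec A f hl hf hhl).comp (Primrec.pair (Primrec.fst.comp Primrec.fst) Primrec.snd)
  exact Vf_primrec_aux (E := fun x : List ℕ × ℕ => Er A f hl x.1) (Jr_primrec A hn)
    (Qr_primrec A hn) (lamr_primrec hn) (epsr_primrec A hn) hE Primrec.snd

theorem cd_primrec {α : Type*} [Primcodable α] {g : α → ℕ} {b : α → Bool} (hg : Primrec g)
    (hb : Primrec b) : Primrec (fun x => cd (g x) (b x)) := by
  unfold cd
  refine Primrec.list_cons.comp (Primrec.ite (kaEqB hb (Primrec.const true)) (Primrec.const 0)
    (Primrec.const 1)) ?_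
  exact kaRepl 2 (kaSub hg (Primrec.const 1))

theorem instW_primrec (A : ℕ) (f : ℕ → ℕ → ℕ) (hl : ℕ → Bool) (hf : Primrec₂ f)
    (hhl : Primrec hl) : Primrec (fun w : List ℕ => instW A f hl w) := by
  have hn : Primrec (fun w : List ℕ => w.length) := kaLen Primrec.id
  have hQ := Qr_primrec A hn
  have hJ := Jr_primrec A hn
  have hlam := lamr_primrec hn
  have heps := epsr_primrec A hn
  have hβ : Primrec (fun w : List ℕ => Qr A w.length * epsr A w.length) := kaMul hQ heps
  have hL : Primrec (fun w : List ℕ => Lf (Qr A w.length) (epsr A w.length)) := by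
    unfold Lf
    repeat' first
      | assumption
      | exact Primrec.const _
      | apply kaLt
      | apply kaLe
      | apply kaEq
      | apply kaEqB
      | apply PrimrecPred.and
      | apply PrimrecPred.or
      | apply Primrec.ite
      | apply PrimrecPred.decide
      | apply kaAdd
      | apply kaSub
      | apply kaMul
      | apply kaDiv
      | apply kaMod
      | apply kaGetD
      | apply kaLen
      | apply Primrec₂.comp ‹_›
      | apply Primrec.comp ‹_›
  have hx := cd_primrec hβ (Primrec.const true)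
  have hy := cd_primrec hβ (Primrec.const false)
  have hvl : Primrec (fun w : List ℕ => vl (Vf (Jr A w.length) (Qr A w.length) (lamr w.length)
      (epsr A w.length) (Er A f hl w)) (Lf (Qr A w.length) (epsr A w.length))) :=
    Primrec.list_map (Primrec.list_range.comp hL) (Vf_primrec A f hl hf hhl)
  have hflat : Primrec (fun w : List ℕ => (vl (Vf (Jr A w.length) (Qr A w.length) (lamr w.length)
      (epsr A w.length) (Er A f hl w)) (Lf (Qr A w.length) (epsr A w.length))).flatMap
      (cd (Qr A w.length * epsr A w.length))) :=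
    Primrec.list_flatMap hvl (cd_primrec (hβ.comp Primrec.fst) Primrec.snd)
  have hfirst : Primrec (fun w : List ℕ => ((vl (Vf (Jr A w.length) (Qr A w.length)
      (lamr w.length) (epsr A w.length) (Er A f hl w)) (Lf (Qr A w.length)
      (epsr A w.length))).flatMap (cd (Qr A w.length * epsr A w.length))).take
      (Lf (Qr A w.length) (epsr A w.length) * (Qr A w.length * epsr A w.length) -
        (Qr A w.length * epsr A w.length - epsr A w.length - 1))) := by
    refine Primrec.list_take.comp ?_ hflat
    repeat' first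
      | assumption
      | exact Primrec.const _
      | apply kaLt
      | apply kaLe
      | apply kaEq
      | apply kaEqB
      | apply PrimrecPred.and
      | apply PrimrecPred.or
      | apply Primrec.ite
      | apply PrimrecPred.decide
      | apply kaAdd
      | apply kaSub
      | apply kaMul
      | apply kaDiv
      | apply kaMod
      | apply kaGetD
      | apply kaLen
      | apply Primrec₂.comp ‹_›
      | apply Primrec.comp ‹_›
  refine Primrec.fin_curry.2 (Primrec₂.swap (Primrec.fin_curry₁.2 ?_))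
  intro i
  fin_cases i
  · exact Primrec.pair hfirst hx
  · exact Primrec.pair (Primrec.const _) hx
  · exact Primrec.pair (Primrec.const _) hy
  · exact Primrec.pair (Primrec.const _) hy

end Pool.Agent.H28.PCP
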