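import Mathlib

set_option autoImplicit false

/-!
# Module CA1: the local rule of a TM0 machine

`cellAt cfg i` = (tape symbol at distance `i` from the head, head state if `i = 0`).
`F M a b c` = new value of the middle cell.  For a step of type write the head stays (`d = 0`), for
`move Dir.right` `d = 1`, for `move Dir.left` `d = -1`.  Use `Turing.Tape.move_left_nth`,
`Turing.Tape.move_right_nth`, `Turing.Tape.write_nth`, `Turing.Tape.nth_zero`, `Turing.TM0.step`.
-/

namespace Pool.Agent.H28.PCP

open Turing

variable {Γ Λ : Type} [Inhabited Λ] [Inhabited Γ]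

/-- the cell at distance `i` from the head -/
def cellAt (cfg : TM0.Cfg Γ Λ) (i : ℤ) : Γ × Option Λ :=
  (cfg.Tape.nth i, if i = 0 then some cfg.q else none)

/-- the action of a cell: new state and statement if the cell carries a head -/
def act (M : TM0.Machine Γ Λ) (a : Γ × Option Λ) : Option (Λ × TM0.Stmt Γ) :=
  match a.2 with
  | none => none
  | some q => M q a.1

/-- the cell carries a head that cannot act -/
def Stuck (M : TM0.Machine Γ Λ) (a : Γ × Option Λ) : Prop := ∃ q, a.2 = some q ∧ M q a.1 = none

/-- new symbol of a cell -/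
def newSym (M : TM0.Machine Γ Λ) (b : Γ × Option Λ) : Γ :=
  match act M b with
  | some (_, TM0.Stmt.write x) => x
  | _ => b.1

/-- the head stays here -/
def headStay (M : TM0.Machine Γ Λ) (b : Γ × Option Λ) : Option Λ :=
  match act M b with
  | some (q, TM0.Stmt.write _) => some q
  | _ => none

/-- the head leaves in direction `d` -/
def headMove (M : TM0.Machine Γ Λ) (d : Dir) (b : Γ × Option Λ) : Option Λ :=
  match act M b, d with
  | some (q, TM0.Stmt.move Dir.left), Dir.left => some q
  | some (q, TM0.Stmt.move Dir.right), Dir.right => some q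
  | _, _ => none

/-- local rule -/
def locF (M : TM0.Machine Γ Λ) (a b c : Γ × Option Λ) : Γ × Option Λ :=
  (newSym M b, ((headStay M b).or (headMove M Dir.right a)).or (headMove M Dir.left c))

theorem locF_blank (M : TM0.Machine Γ Λ) (x y z : Γ) :
    locF M (x, none) (y, none) (z, none) = (y, none) := by
  simp [locF, newSym, headStay, headMove, act]

/-- one step, seen cell by cell -/
theorem step_cell (M : TM0.Machine Γ Λ) (cfg cfg' : TM0.Cfg Γ Λ)
    (h : TM0.step M cfg = some cfg') :
    ∃ d : ℤ, ∀ i : ℤ, cellAt cfg' (i - d) =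
      locF M (cellAt cfg (i - 1)) (cellAt cfg i) (cellAt cfg (i + 1)) := by
  obtain ⟨q, T⟩ := cfg
  simp only [TM0.step, Option.map_eq_some_iff] at h
  obtain ⟨⟨q', s⟩, hM, rfl⟩ := h
  have h0 : M q (T.nth 0) = some (q', s) := by
    rw [Tape.nth_zero]
    exact hM
  have hact : ∀ j : ℤ, act M (cellAt ⟨q, T⟩ j) = if j = 0 then some (q', s) else none := by
    intro j
    by_cases hj : j = 0
    · subst hj
      simp only [act, cellAt, if_true]
      exact h0
    · simp [act, cellAt, hj]
  rcases s with d | x
  · cases d
    · refine ⟨-1, fun i => ?_⟩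
      have e1 : newSym M (cellAt ⟨q, T⟩ i) = T.nth i := by
        rw [newSym, hact]
        split_ifs <;> rfl
      have e2 : headStay M (cellAt ⟨q, T⟩ i) = none := by
        rw [headStay, hact]
        split_ifs <;> rfl
      have e3 : headMove M Dir.right (cellAt ⟨q, T⟩ (i - 1)) = none := by
        unfold headMove; rw [hact]
        split_ifs <;> rfl
      have e4 : headMove M Dir.left (cellAt ⟨q, T⟩ (i + 1)) = if i + 1 = 0 then some q' else none := by
        unfold headMove; rw [hact]
        split_ifs <;> rfl
      rw [locF, e1, e2, e3, e4]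
      simp only [cellAt, Tape.move_left_nth, sub_neg_eq_add, add_sub_cancel_right, Option.or]
    · refine ⟨1, fun i => ?_⟩
      have e1 : newSym M (cellAt ⟨q, T⟩ i) = T.nth i := by
        rw [newSym, hact]
        split_ifs <;> rfl
      have e2 : headStay M (cellAt ⟨q, T⟩ i) = none := by
        rw [headStay, hact]
        split_ifs <;> rfl
      have e3 : headMove M Dir.right (cellAt ⟨q, T⟩ (i - 1)) = if i - 1 = 0 then some q' else none := by
        unfold headMove; rw [hact]
        split_ifs <;> rfl
      have e4 : headMove M Dir.left (cellAt ⟨q, T⟩ (i + 1)) = none := by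
        unfold headMove; rw [hact]
        split_ifs <;> rfl
      rw [locF, e1, e2, e3, e4]
      simp only [cellAt, Tape.move_right_nth, sub_add_cancel]
      split_ifs <;> rfl
  · refine ⟨0, fun i => ?_⟩
    have e1 : newSym M (cellAt ⟨q, T⟩ i) = if i = 0 then x else T.nth i := by
      rw [newSym, hact]
      split_ifs <;> rfl
    have e2 : headStay M (cellAt ⟨q, T⟩ i) = if i = 0 then some q' else none := by
      rw [headStay, hact]
      split_ifs <;> rfl
    have e3 : headMove M Dir.right (cellAt ⟨q, T⟩ (i - 1)) = none := by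
      unfold headMove; rw [hact]
      split_ifs <;> rfl
    have e4 : headMove M Dir.left (cellAt ⟨q, T⟩ (i + 1)) = none := by
      unfold headMove; rw [hact]
      split_ifs <;> rfl
    rw [locF, e1, e2, e3, e4]
    simp only [cellAt, Tape.write_nth, sub_zero]
    split_ifs <;> rfl

theorem act_supp (M : TM0.Machine Γ Λ) (S : Set Λ) (hS : TM0.Supports M S)
    (a : Γ × Option Λ) (ha : ∀ q, a.2 = some q → q ∈ S) {q : Λ} {s : TM0.Stmt Γ}
    (h : act M a = some (q, s)) : q ∈ S := by
  obtain ⟨x, p⟩ := a
  cases p with
  | none => simp [act] at h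
  | some p => exact hS.2 h (ha p rfl)

/-- the states that occur stay in a supporting set -/
theorem locF_supp (M : TM0.Machine Γ Λ) (S : Set Λ) (hS : TM0.Supports M S)
    (a b c : Γ × Option Λ) (ha : ∀ q, a.2 = some q → q ∈ S) (hb : ∀ q, b.2 = some q → q ∈ S)
    (hc : ∀ q, c.2 = some q → q ∈ S) : ∀ q, (locF M a b c).2 = some q → q ∈ S := by
  intro q hq
  have hstay : ∀ q, headStay M b = some q → q ∈ S := by
    intro q h
    rw [headStay] at h
    split at h
    · rename_i q' x hx
      injection h with h
      subst h
      exact act_supp M S hS b hb hx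
    · exact absurd h (by simp)
  have hmove : ∀ (d : Dir) (a : Γ × Option Λ), (∀ q, a.2 = some q → q ∈ S) →
      ∀ q, headMove M d a = some q → q ∈ S := by
    intro d a ha q h
    unfold headMove at h
    split at h
    · rename_i q' hx
      injection h with h
      subst h
      exact act_supp M S hS a ha hx
    · rename_i q' hx
      injection h with h
      subst h
      exact act_supp M S hS a ha hx
    · exact absurd h (by simp)
  rw [locF] at hq
  simp only [Option.or_eq_some_iff] at hq
  rcases hq with (h | ⟨-, h⟩) | ⟨-, h⟩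
  · exact hstay q h
  · exact hmove _ _ ha q h
  · exact hmove _ _ hc q h

/-- the machine halts iff a configuration that cannot step is reached -/
theorem eval_dom_iff (M : TM0.Machine Γ Λ) (l : List Γ) :
    (TM0.eval M l).Dom ↔ ∃ (k : ℕ) (cfg : ℕ → TM0.Cfg Γ Λ), cfg 0 = TM0.init l ∧
      (∀ i < k, TM0.step M (cfg i) = some (cfg (i + 1))) ∧ TM0.step M (cfg k) = none := by
  have h1 : (TM0.eval M l).Dom ↔ ∃ c, StateTransition.Reaches (TM0.step M) (TM0.init l) c ∧
      TM0.step M c = none := by
    rw [Part.dom_iff_mem]
    constructor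
    · rintro ⟨y, hy⟩
      rw [TM0.eval, Part.mem_map_iff] at hy
      obtain ⟨c, hc, -⟩ := hy
      exact ⟨c, StateTransition.mem_eval.1 hc⟩
    · rintro ⟨c, hc⟩
      exact ⟨_, Part.mem_map _ (StateTransition.mem_eval.2 hc)⟩
  rw [h1]
  constructor
  · rintro ⟨c, hr, hc⟩
    have h2 : ∃ (k : ℕ) (cfg : ℕ → TM0.Cfg Γ Λ), cfg 0 = TM0.init l ∧
        (∀ i < k, TM0.step M (cfg i) = some (cfg (i + 1))) ∧ cfg k = c := by
      clear hc
      induction hr with
      | refl => exact ⟨0, fun _ => TM0.init l, rfl, fun i hi => absurd hi (Nat.not_lt_zero _), rfl⟩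
      | tail hab hbc ih =>
        rename_i b c
        obtain ⟨k, cfg, h0, hs, hk⟩ := ih
        refine ⟨k + 1, fun i => if i ≤ k then cfg i else c, ?_, ?_, ?_⟩
        · simp [h0]
        · intro i hi
          rcases Nat.lt_succ_iff_lt_or_eq.1 hi with hi | rfl
          · simp only [if_pos hi.le, if_pos (Nat.succ_le_of_lt hi)]
            exact hs i hi
          · simp only [if_pos le_rfl, if_neg (Nat.not_succ_le_self _)]
            rw [hk]
            exact hbc
        · simp
    obtain ⟨k, cfg, h0, hs, hk⟩ := h2
    exact ⟨k, cfg, h0, hs, by rw [hk]; exact hc⟩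
  · rintro ⟨k, cfg, h0, hs, hk⟩
    refine ⟨cfg k, ?_, hk⟩
    rw [← h0]
    have h2 : ∀ i ≤ k, StateTransition.Reaches (TM0.step M) (cfg 0) (cfg i) := by
      intro i
      induction i with
      | zero => exact fun _ => Relation.ReflTransGen.refl
      | succ i ih =>
        intro hi
        exact (ih (by omega)).tail (hs i (by omega))
    exact h2 k le_rfl

end Pool.Agent.H28.PCP
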