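import Mathlib
import Pool.Agent.H28.PCP.TC

set_option autoImplicit false

/-!
# Module CA2: coding of pairs of cells by numbers, and the word automaton on ℤ

`coding`: let `K` be a finite set of cells closed under the ternary rule `F`, `b0 ∈ K` with
`F b0 b0 b0 = b0`.  Choose an injection `g` of the finite set `K × K` into `[1, A)`, with
`g (b0, b0) = 1` (e.g. a bijection of `↥K × ↥K` with `Fin m`, composed with a swap, plus 1;
`A = m + 2`, so `2 ≤ A`), `code x y = g (x, y)` for `x, y ∈ K`, `1` otherwise.  `f s a` for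
`s, a ∈ [0, A)`, with `s` replaced by `1` if `s = 0`: if `s = code a' b'`, `a = code c' d'` then
`code (F a' b' c') (F b' c' d')`, otherwise 1; `f s a = 1` outside `[0,A)²`.  All by classical
choice.

`W v j` for `j : ℤ` is `v[j]` if `0 ≤ j < v.length`, else `1`.  `W_stepW`: if `f 1 1 = 1` then
`W (stepW f v) j = f (W v (j-1)) (W v j)`.
-/

namespace Pool.Agent.H28.PCP

theorem coding {C : Type} (K : Set C) (hK : K.Finite) (b0 : C) (hb0 : b0 ∈ K)
    (F : C → C → C → C) (hF : ∀ a ∈ K, ∀ b ∈ K, ∀ c ∈ K, F a b c ∈ K) (hFb : F b0 b0 b0 = b0)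
    (h : C → Prop) :
    ∃ (A : ℕ) (f : ℕ → ℕ → ℕ) (hl : ℕ → Bool) (code : C → C → ℕ),
      Hyp A f ∧ f 1 1 = 1 ∧ (∀ s a, (A ≤ s ∨ A ≤ a) → f s a = 1) ∧ (∀ a, A ≤ a → hl a = false) ∧
      (∀ x y, 1 ≤ code x y ∧ code x y < A) ∧ code b0 b0 = 1 ∧
      (∀ a ∈ K, ∀ b ∈ K, ∀ c ∈ K, ∀ d ∈ K,
        f (code a b) (code c d) = code (F a b c) (F b c d)) ∧
      (∀ a ∈ K, ∀ b ∈ K, (hl (code a b) = true ↔ h a ∨ h b)) := by
  classical
  have hT : ((K ×ˢ K) \ {(b0, b0)}).Finite := (hK.prod hK).sdiff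
  have : Finite ((K ×ˢ K) \ {(b0, b0)} : Set (C × C)) := hT
  obtain ⟨m, ⟨e⟩⟩ := Finite.exists_equiv_fin ((K ×ˢ K) \ {(b0, b0)} : Set (C × C))
  obtain ⟨code, hcode⟩ : ∃ code : C → C → ℕ, ∀ x y, code x y =
      if hp : (x, y) ∈ ((K ×ˢ K) \ {(b0, b0)} : Set (C × C)) then (e ⟨(x, y), hp⟩ : ℕ) + 2 else 1 :=
    ⟨_, fun _ _ => rfl⟩
  have hb : ∀ x y, 1 ≤ code x y ∧ code x y < m + 2 := by
    intro x y
    rw [hcode]
    split_ifs with hp
    · have := (e ⟨(x, y), hp⟩).2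
      omega
    · omega
  have h00 : code b0 b0 = 1 := by
    rw [hcode, dif_neg]
    simp
  have hinj : ∀ x ∈ K, ∀ y ∈ K, ∀ x' ∈ K, ∀ y' ∈ K, code x y = code x' y' → (x, y) = (x', y') := by
    intro x hx y hy x' hx' y' hy' heq
    rw [hcode, hcode] at heq
    split_ifs at heq with h1 h2 h2
    · have h3 : (e ⟨(x, y), h1⟩ : ℕ) = e ⟨(x', y'), h2⟩ := by omega
      have h4 := e.injective (Fin.ext h3)
      exact congrArg Subtype.val h4
    · omega
    · omega
    · have h3 : (x, y) = (b0, b0) := by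
        by_contra hne
        exact h1 ⟨⟨hx, hy⟩, hne⟩
      have h4 : (x', y') = (b0, b0) := by
        by_contra hne
        exact h2 ⟨⟨hx', hy'⟩, hne⟩
      rw [h3, h4]
  obtain ⟨dec, hdec⟩ : ∃ dec : ℕ → C × C, ∀ x ∈ K, ∀ y ∈ K, dec (code x y) = (x, y) := by
    refine ⟨fun n => if hn : ∃ p : C × C, p.1 ∈ K ∧ p.2 ∈ K ∧ code p.1 p.2 = n then hn.choose
      else (b0, b0), fun x hx y hy => ?_⟩
    have hn : ∃ p : C × C, p.1 ∈ K ∧ p.2 ∈ K ∧ code p.1 p.2 = code x y := ⟨(x, y), hx, hy, rfl⟩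
    simp only [dif_pos hn]
    exact hinj _ hn.choose_spec.1 _ hn.choose_spec.2.1 _ hx _ hy hn.choose_spec.2.2
  obtain ⟨f, hf⟩ : ∃ f : ℕ → ℕ → ℕ, ∀ s a, f s a = if s < m + 2 ∧ a < m + 2 then
      code (F (dec (if s = 0 then 1 else s)).1 (dec (if s = 0 then 1 else s)).2 (dec a).1)
        (F (dec (if s = 0 then 1 else s)).2 (dec a).1 (dec a).2) else 1 := ⟨_, fun _ _ => rfl⟩
  have hd1 : dec 1 = (b0, b0) := by rw [← h00]; exact hdec _ hb0 _ hb0
  refine ⟨m + 2, f, fun a => decide (a < m + 2 ∧ (h (dec a).1 ∨ h (dec a).2)), code,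
    ⟨by omega, ?_, ?_⟩, ?_, ?_, ?_, hb, h00, ?_, ?_⟩
  · intro s hs a _ ha2
    rw [hf, if_pos ⟨hs, ha2⟩]
    exact hb _ _
  · intro a
    rw [hf, hf]
    simp
  · rw [hf, if_pos ⟨by omega, by omega⟩]
    simp [hd1, hFb, h00]
  · intro s a hsa
    rw [hf, if_neg (by omega)]
  · intro a ha
    rw [decide_eq_false_iff_not]
    rintro ⟨h1, -⟩
    omega
  · intro a ha b hb' c hc d hd
    have h1 : ¬ code a b = 0 := by have := (hb a b).1; omega
    rw [hf, if_pos ⟨(hb _ _).2, (hb _ _).2⟩, if_neg h1, hdec a ha b hb', hdec c hc d hd]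
  · intro a ha b hb'
    rw [decide_eq_true_iff, hdec a ha b hb']
    exact ⟨fun h1 => h1.2, fun h1 => ⟨(hb a b).2, h1⟩⟩

/-- a word as a configuration on ℤ -/
def Wz (v : List ℕ) (j : ℤ) : ℕ := if 0 ≤ j then v.getD j.toNat 1 else 1

theorem zipWith_getD (f : ℕ → ℕ → ℕ) (h11 : f 1 1 = 1) (l l' : List ℕ)
    (hl : l.length = l'.length) (n : ℕ) :
    (List.zipWith f l l').getD n 1 = f (l.getD n 1) (l'.getD n 1) := by
  rw [List.getD_eq_getElem?_getD, List.getD_eq_getElem?_getD, List.getD_eq_getElem?_getD,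
    List.getElem?_zipWith]
  rcases Nat.lt_or_ge n l.length with h | h
  · rw [List.getElem?_eq_getElem h, List.getElem?_eq_getElem (hl ▸ h)]
    rfl
  · rw [List.getElem?_eq_none h, List.getElem?_eq_none (hl ▸ h)]
    simp [h11]

theorem Wz_stepW (f : ℕ → ℕ → ℕ) (h11 : f 1 1 = 1) (v : List ℕ) (j : ℤ) :
    Wz (stepW f v) j = f (Wz v (j - 1)) (Wz v j) := by
  unfold Wz stepW
  rcases lt_or_ge j 0 with hj | hj
  · rw [if_neg (by omega), if_neg (by omega), if_neg (by omega), h11]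
  · rw [if_pos hj, if_pos hj, zipWith_getD f h11 _ _ (by simp)]
    have h1 : (v ++ [1]).getD j.toNat 1 = v.getD j.toNat 1 := by
      rcases Nat.lt_or_ge j.toNat v.length with h | h
      · rw [List.getD_append _ _ _ _ h]
      · rw [List.getD_append_right _ _ _ _ h, List.getD_eq_default _ _ h]
        rcases Nat.eq_zero_or_pos (j.toNat - v.length) with h2 | h2
        · rw [h2]; rfl
        · rw [List.getD_eq_default _ _ (by rw [List.length_singleton]; exact h2)]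
    rw [h1]
    congr 1
    rcases eq_or_lt_of_le hj with h | h
    · subst h
      simp
    · rw [if_pos (by omega)]
      obtain ⟨n, hn⟩ : ∃ n : ℕ, j = n + 1 := ⟨(j - 1).toNat, by omega⟩
      subst hn
      have h2 : ((n : ℤ) + 1).toNat = n + 1 := by omega
      have h3 : ((n : ℤ) + 1 - 1).toNat = n := by omega
      rw [h2, h3, List.getD_cons_succ]

theorem Wz_mem (v : List ℕ) (a : ℕ) (ha : a ≠ 1) : a ∈ v ↔ ∃ j : ℤ, Wz v j = a := by
  constructor
  · intro h
    obtain ⟨n, hn, rfl⟩ := List.mem_iff_getElem.1 h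
    refine ⟨n, ?_⟩
    rw [Wz, if_pos (by omega), Int.toNat_natCast, List.getD_eq_getElem _ _ hn]
  · rintro ⟨j, hj⟩
    rw [Wz] at hj
    split_ifs at hj with h
    · rcases Nat.lt_or_ge j.toNat v.length with h1 | h1
      · rw [List.getD_eq_getElem _ _ h1] at hj
        rw [← hj]
        exact List.getElem_mem h1
      · rw [List.getD_eq_default _ _ h1] at hj
        exact absurd hj.symm ha
    · exact absurd hj.symm ha

end Pool.Agent.H28.PCP
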