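import Mathlib
import Pool.Agent.H28.PCP.CA1
import Pool.Agent.H28.PCP.CA2

set_option autoImplicit false

/-!
# Module CA: a Turing machine (TM0) as a word automaton (assembly of CA1, CA2)

`K` = set of cells `(γ, o)` with `o = none` or `o = some q`, `q ∈ S`; finite; `b0 = (default, none)`,
`F = locF M`, `h = Stuck M`.  Take `A, f, hl, code₀` from `coding`; `hl 1 = false` (`h b0` is false).
`code b x y := code₀ (x, if b then some default else none) (y, none)` (`default ∈ S` by
`TM0.Supports`; the head is at cell 0, the first cell of the pair number 0).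
Relation between a word `v` and a configuration: `Rel v cfg := ∃ p : ℤ, ∀ j : ℤ,
Wz v j = code₀ (cellAt cfg (2*j-p)) (cellAt cfg (2*j+1-p))`; all cells of reachable configurations
are in `K`.  `Rel (wordOf code default l) (TM0.init l)` with `p = 0` (`Tape.mk₁ l`: `nth i = l.getI i`
for `i ≥ 0`, `default` for `i < 0`; pairs beyond the list are `code₀ b0 b0 = 1`).
Step: if `TM0.step M cfg = some cfg'` with shift `d` (`step_cell`), then by `Wz_stepW`
`Wz (stepW f v) j = f (Wz v (j-1)) (Wz v j) = code₀ (F X_{2j-2} X_{2j-1} X_{2j}) (F X_{2j-1} X_{2j}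
X_{2j+1})` (`X_i = cellAt cfg (i-p)`) `= code₀ (cellAt cfg' (2j-1-p-d)) (cellAt cfg' (2j-p-d))`, so
`Rel (stepW f v) cfg'` with `p' = p+d+1`.
`v` contains a symbol with `hl` iff some cell of `cfg` is `Stuck` iff the cell 0 is, iff
`TM0.step M cfg = none` (`Wz_mem`, `hl 1 = false`).  Conclude with `eval_dom_iff` (take the least `t`).
-/

namespace Pool.Agent.H28.PCP

open Turing

/-- the word of an input -/
def wordOf {Γ : Type} (code : Bool → Γ → Γ → ℕ) (d : Γ) (l : List Γ) : List ℕ :=
  (List.range (l.length / 2 + 1)).map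
    (fun j => code (decide (j = 0)) (l.getD (2 * j) d) (l.getD (2 * j + 1) d))

/-- the word `v` describes the configuration -/
def RelCA {Γ Λ : Type} [Inhabited Λ] [Inhabited Γ] (code : Γ × Option Λ → Γ × Option Λ → ℕ)
    (v : List ℕ) (cfg : TM0.Cfg Γ Λ) : Prop :=
  ∃ p : ℤ, ∀ j : ℤ, Wz v j = code (cellAt cfg (2 * j - p)) (cellAt cfg (2 * j + 1 - p))

/-- all cells have states in `S` -/
def InCA {Γ Λ : Type} [Inhabited Λ] [Inhabited Γ] (S : Set Λ) (cfg : TM0.Cfg Γ Λ) : Prop :=
  ∀ i, cellAt cfg i ∈ {x : Γ × Option Λ | ∀ q, x.2 = some q → q ∈ S}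

theorem finK {Γ Λ : Type} [Finite Γ] (S : Set Λ) (hSf : S.Finite) :
    {x : Γ × Option Λ | ∀ q, x.2 = some q → q ∈ S}.Finite := by
  have h1 : ((Set.univ : Set Γ) ×ˢ (insert none (some '' S) : Set (Option Λ))).Finite :=
    Set.finite_univ.prod ((hSf.image some).insert none)
  refine h1.subset ?_
  rintro ⟨x, o⟩ h
  refine ⟨Set.mem_univ _, ?_⟩
  cases o with
  | none => exact Set.mem_insert _ _
  | some q => exact Set.mem_insert_of_mem _ ⟨q, h q rfl, rfl⟩

theorem step_none_iff {Γ Λ : Type} [Inhabited Λ] [Inhabited Γ] (M : TM0.Machine Γ Λ)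
    (cfg : TM0.Cfg Γ Λ) : TM0.step M cfg = none ↔ ∃ i, Stuck M (cellAt cfg i) := by
  obtain ⟨q, T⟩ := cfg
  constructor
  · intro h
    refine ⟨0, q, by simp [cellAt], ?_⟩
    simp only [TM0.step, Option.map_eq_none_iff] at h
    simpa [cellAt, Tape.nth_zero] using h
  · rintro ⟨i, q', h1, h2⟩
    by_cases hi : i = 0
    · subst hi
      simp only [cellAt, if_true, Option.some.injEq] at h1
      subst h1
      simp only [cellAt, Tape.nth_zero] at h2
      simp only [TM0.step, Option.map_eq_none_iff]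
      exact h2
    · simp [cellAt, hi] at h1

theorem ca_of_tm0 {Γ Λ : Type} [Inhabited Λ] [Inhabited Γ] [Finite Γ] (M : TM0.Machine Γ Λ)
    (S : Set Λ) (hSf : S.Finite) (hS : TM0.Supports M S) :
    ∃ (A : ℕ) (f : ℕ → ℕ → ℕ) (hl : ℕ → Bool) (code : Bool → Γ → Γ → ℕ),
      Hyp A f ∧ (∀ s a, (A ≤ s ∨ A ≤ a) → f s a = 1) ∧ (∀ a, A ≤ a → hl a = false) ∧
      (∀ b x y, 1 ≤ code b x y ∧ code b x y < A) ∧
      ∀ l : List Γ, (∃ t, ∃ a ∈ (stepW f)^[t] (wordOf code default l), hl a = true) ↔
        (TM0.eval M l).Dom := by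
  set K : Set (Γ × Option Λ) := {x : Γ × Option Λ | ∀ q, x.2 = some q → q ∈ S} with hK
  have hKf : K.Finite := finK S hSf
  have hb0 : ((default, none) : Γ × Option Λ) ∈ K := by
    intro q hq
    simp at hq
  obtain ⟨A, f, hl, code, hyp, h11, hf1, hhl, hcb, hc0, hstep, hstuck⟩ :=
    coding K hKf (default, none) hb0 (locF M)
      (fun a ha b hb c hc => locF_supp M S hS a b c ha hb hc)
      (locF_blank M default default default) (Stuck M)
  have hl1 : hl 1 = false := by
    by_contra hcon
    rw [Bool.not_eq_false, ← hc0, hstuck _ hb0 _ hb0] at hcon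
    simp [Stuck] at hcon
  refine ⟨A, f, hl, fun b x y => code (x, if b then some default else none) (y, none), hyp, hf1,
    hhl, fun b x y => hcb _ _, fun l => ?_⟩
  -- initial
  have hinit : RelCA code (wordOf (fun b x y => code (x, if b then some default else none)
      (y, none)) default l) (TM0.init l : TM0.Cfg Γ Λ) := by
    refine ⟨0, fun j => ?_⟩
    have hnth : ∀ i : ℤ, 0 ≤ i → (TM0.init l : TM0.Cfg Γ Λ).Tape.nth i = l.getD i.toNat default := by
      intro i hi
      obtain ⟨n, rfl⟩ := Int.eq_ofNat_of_zero_le hi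
      have h1 : (TM0.init l : TM0.Cfg Γ Λ).Tape.nth (n : ℤ) = l.getI n := by
        simp only [TM0.init]
        rw [Tape.mk₁, Tape.mk₂, Tape.mk'_nth_nat, ListBlank.nth_mk]
      rw [h1]
      rfl
    have hneg : ∀ i : ℤ, i < 0 → (TM0.init l : TM0.Cfg Γ Λ).Tape.nth i = default := by
      intro i hi
      obtain ⟨n, rfl⟩ := Int.eq_negSucc_of_lt_zero hi
      change (Tape.mk₁ l).left.nth n = default
      rw [Tape.mk₁, Tape.mk₂]
      simp [Tape.mk']
    rcases lt_or_ge j 0 with hj | hj
    · rw [Wz, if_neg (by omega)]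
      simp only [cellAt]
      rw [hneg _ (by omega), hneg _ (by omega), if_neg (by omega), if_neg (by omega)]
      exact hc0.symm
    · obtain ⟨n, rfl⟩ := Int.eq_ofNat_of_zero_le hj
      rw [Wz, if_pos hj, Int.toNat_natCast]
      simp only [cellAt]
      rw [hnth _ (by omega), hnth _ (by omega), if_neg (c := (2 * (n : ℤ) + 1 - 0 = 0)) (by omega)]
      have h2 : (2 * (n : ℤ) - 0).toNat = 2 * n := by omega
      have h3 : (2 * (n : ℤ) + 1 - 0).toNat = 2 * n + 1 := by omega
      rw [h2, h3]
      rcases Nat.lt_or_ge n (l.length / 2 + 1) with hn | hn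
      · rw [wordOf, List.getD_eq_getElem _ _ (by simpa using hn), List.getElem_map,
          List.getElem_range]
        congr 2
        by_cases h0 : n = 0
        · subst h0; simp [TM0.init]
        · rw [if_neg (by simpa using h0), if_neg (by omega)]
      · rw [List.getD_eq_default _ _ (by simpa [wordOf] using hn),
          List.getD_eq_default _ _ (by omega), List.getD_eq_default _ _ (by omega),
          if_neg (by omega)]
        exact hc0.symm
  have hinitK : InCA S (TM0.init l : TM0.Cfg Γ Λ) := by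
    intro i q hq
    simp only [cellAt] at hq
    split_ifs at hq
    simp only [TM0.init, Option.some.injEq] at hq
    rw [← hq]
    exact hS.1
  -- step
  have hs : ∀ (v : List ℕ) (cfg cfg' : TM0.Cfg Γ Λ), RelCA code v cfg → InCA S cfg →
      TM0.step M cfg = some cfg' → RelCA code (stepW f v) cfg' ∧ InCA S cfg' := by
    rintro v cfg cfg' ⟨p, hp⟩ hin hst
    obtain ⟨d, hd⟩ := step_cell M cfg cfg' hst
    refine ⟨⟨p + 1 + d, fun j => ?_⟩, fun i => ?_⟩
    · rw [Wz_stepW f h11, hp, hp, hstep _ (hin _) _ (hin _) _ (hin _) _ (hin _)]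
      have e1 := hd (2 * j - 1 - p)
      have e2 := hd (2 * j - p)
      rw [show 2 * j - 1 - p - d = 2 * j - (p + 1 + d) by ring,
        show 2 * j - 1 - p - 1 = 2 * (j - 1) - p by ring,
        show 2 * j - 1 - p + 1 = 2 * j - p by ring] at e1
      rw [show 2 * j - p - d = 2 * j + 1 - (p + 1 + d) by ring,
        show 2 * j - p + 1 = 2 * j + 1 - p by ring] at e2
      rw [e1, e2]
      rw [show 2 * (j - 1) + 1 - p = 2 * j - 1 - p by ring,
        show 2 * j - p - 1 = 2 * j - 1 - p by ring]
    · have e1 := hd (i + d)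
      rw [show i + d - d = i by ring] at e1
      rw [e1]
      exact locF_supp M S hS _ _ _ (hin _) (hin _) (hin _)
  -- halting
  have hh : ∀ (v : List ℕ) (cfg : TM0.Cfg Γ Λ), RelCA code v cfg → InCA S cfg →
      ((∃ a ∈ v, hl a = true) ↔ TM0.step M cfg = none) := by
    rintro v cfg ⟨p, hp⟩ hin
    rw [step_none_iff]
    constructor
    · rintro ⟨a, ha, hla⟩
      have ha1 : a ≠ 1 := by
        rintro rfl
        rw [hl1] at hla
        exact Bool.false_ne_true hla
      obtain ⟨j, hj⟩ := (Wz_mem v a ha1).1 ha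
      rw [← hj, hp, hstuck _ (hin _) _ (hin _)] at hla
      rcases hla with h | h
      · exact ⟨_, h⟩
      · exact ⟨_, h⟩
    · rintro ⟨i, hi⟩
      have key : ∃ j, hl (Wz v j) = true := by
        rcases Int.even_or_odd' (i + p) with ⟨j, hj | hj⟩
        · refine ⟨j, ?_⟩
          rw [hp, hstuck _ (hin _) _ (hin _)]
          left
          rw [← hj, add_sub_cancel_right]
          exact hi
        · refine ⟨j, ?_⟩
          rw [hp, hstuck _ (hin _) _ (hin _)]
          right
          rw [← hj, add_sub_cancel_right]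
          exact hi
      obtain ⟨j, hj⟩ := key
      refine ⟨Wz v j, (Wz_mem v _ ?_).2 ⟨j, rfl⟩, hj⟩
      intro h1
      rw [h1, hl1] at hj
      exact Bool.false_ne_true hj
  set w0 := wordOf (fun b x y => code (x, if b then some default else none)
      (y, none)) default l with hw0
  have hrun : ∀ (k : ℕ) (cfg : ℕ → TM0.Cfg Γ Λ), cfg 0 = TM0.init l →
      (∀ i < k, TM0.step M (cfg i) = some (cfg (i + 1))) →
      RelCA code ((stepW f)^[k] w0) (cfg k) ∧ InCA S (cfg k) := by
    intro k cfg h0 hk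
    induction k with
    | zero => rw [h0]; exact ⟨hinit, hinitK⟩
    | succ k ih =>
      obtain ⟨h1, h2⟩ := ih fun i hi => hk i (by omega)
      rw [Function.iterate_succ_apply']
      exact hs _ _ _ h1 h2 (hk k (by omega))
  rw [eval_dom_iff]
  constructor
  · rintro ⟨t, a, ha, hla⟩
    let cfg : ℕ → TM0.Cfg Γ Λ := fun n => (fun c => (TM0.step M c).getD c)^[n] (TM0.init l)
    have hc0 : cfg 0 = TM0.init l := rfl
    have hcs : ∀ i, TM0.step M (cfg i) ≠ none → TM0.step M (cfg i) = some (cfg (i + 1)) := by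
      intro i hi
      obtain ⟨c, hc⟩ := Option.ne_none_iff_exists'.1 hi
      simp only [cfg, Function.iterate_succ_apply'] at hc ⊢
      rw [hc]
      rfl
    by_cases hex : ∃ i, TM0.step M (cfg i) = none
    · classical
      refine ⟨Nat.find hex, cfg, hc0, fun i hi => hcs i (Nat.find_min hex hi), Nat.find_spec hex⟩
    · exfalso
      simp only [not_exists] at hex
      obtain ⟨h1, h2⟩ := hrun t cfg hc0 fun i _ => hcs i (hex i)
      exact hex t ((hh _ _ h1 h2).1 ⟨a, ha, hla⟩)
  · rintro ⟨k, cfg, h0, hk, hkn⟩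
    obtain ⟨h1, h2⟩ := hrun k cfg h0 hk
    exact ⟨k, (hh _ _ h1 h2).2 hkn⟩

end Pool.Agent.H28.PCP
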