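import Mathlib
import Pool.Agent.H28.PCP.CA

set_option autoImplicit false

/-!
# Module KB: the input word is computable; PCP facts on adding pairs

`wordOf_computable`: `wordOf code default l` is a fixed finite function applied to the entries of
`l.map e` (`e : Γ ≃ Fin m`): `code b x y = code' b (e x) (e y)` with
`code' : Bool → Fin m → Fin m → ℕ` (`Primrec.dom_finite`), `List.range`, `List.map`, `List.getD`.

`hasSol_extend`: adding copies of the pair 0 does not change solvability.
-/

namespace Pool.Agent.H28.PCP

theorem wordOf_computable {Γ : Type} [Inhabited Γ] {m : ℕ} (e : Γ ≃ Fin m)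
    (code : Bool → Γ → Γ → ℕ) (l : ℕ → List Γ) (hl : Computable (fun n => (l n).map e)) :
    Computable (fun n => wordOf code default (l n)) := by
  set g : Bool × Fin m × Fin m → ℕ := fun p => code p.1 (e.symm p.2.1) (e.symm p.2.2) with hg
  have hgp : Primrec g := Primrec.dom_finite g
  set H : List (Fin m) → List ℕ := fun L => (List.range (L.length / 2 + 1)).map
    (fun j => g (decide (j = 0), L.getD (2 * j) (e default), L.getD (2 * j + 1) (e default)))
    with hH
  have hHp : Primrec H := by
    refine Primrec.list_map (Primrec.list_range.comp (Primrec.succ.comp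
      (Primrec.nat_div.comp Primrec.list_length (Primrec.const 2)))) ?_
    refine hgp.comp (Primrec.pair ?_ (Primrec.pair ?_ ?_))
    · exact (PrimrecRel.comp Primrec.eq Primrec.snd (Primrec.const 0)).decide
    · exact (Primrec.list_getD (e default)).comp Primrec.fst
        (Primrec.nat_mul.comp (Primrec.const 2) Primrec.snd)
    · exact (Primrec.list_getD (e default)).comp Primrec.fst
        (Primrec.succ.comp (Primrec.nat_mul.comp (Primrec.const 2) Primrec.snd))
  have hfun : (fun n => wordOf code default (l n)) = fun n => H ((l n).map e) := by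
    funext n
    rw [hH, wordOf]
    simp only [List.length_map]
    refine List.map_congr_left fun j _ => ?_
    have h1 : ∀ i, (l n).getD i default = e.symm (((l n).map e).getD i (e default)) := by
      intro i
      rw [List.getD_map]
      exact (e.symm_apply_apply _).symm
    rw [hg]
    simp only
    rw [← h1, ← h1]
  rw [hfun]
  exact hHp.to_comp.comp hl

/-- repeat the pair 0 -/
def extend (n : ℕ) (P : Fin 4 → List ℕ × List ℕ) : Fin n → List ℕ × List ℕ :=
  fun i => if h : i.val < 4 then P ⟨i.val, h⟩ else P 0

/-- the index map -/
def extIdx (n : ℕ) (i : Fin n) : Fin 4 := if h : i.val < 4 then ⟨i.val, h⟩ else 0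

theorem extend_eq (n : ℕ) (P : Fin 4 → List ℕ × List ℕ) (i : Fin n) :
    extend n P i = P (extIdx n i) := by
  unfold extend extIdx
  split_ifs <;> rfl

theorem hasSol_extend (n : ℕ) (hn : 4 ≤ n) (P : Fin 4 → List ℕ × List ℕ) :
    HasSol (extend n P) ↔ HasSol P := by
  constructor
  · rintro ⟨w, hw, h⟩
    refine ⟨w.map (extIdx n), by simpa using hw, ?_⟩
    rw [List.flatMap_map, List.flatMap_map]
    simp only [extend_eq] at h
    exact h
  · rintro ⟨w, hw, h⟩
    refine ⟨w.map (Fin.castLE hn), by simpa using hw, ?_⟩
    rw [List.flatMap_map, List.flatMap_map]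
    have h1 : ∀ i : Fin 4, extend n P (Fin.castLE hn i) = P i := by
      intro i
      rw [extend_eq]
      congr 1
      unfold extIdx
      rw [dif_pos (by simp [i.2])]
      rfl
    simp only [h1]
    exact h

theorem extend_computable (n : ℕ) : Computable (extend n) := by
  have h : Primrec (extend n) := by
    refine (Primrec.fin_curry (f := fun P i => extend n P i)).2 ?_
    have h1 : (fun (P : Fin 4 → List ℕ × List ℕ) (i : Fin n) => extend n P i)
        = fun (P : Fin 4 → List ℕ × List ℕ) (i : Fin n) => P (extIdx n i) := by
      funext P i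
      exact extend_eq n P i
    rw [h1]
    exact (Primrec.fin_app (n := 4) (σ := List ℕ × List ℕ)).comp
      Primrec.fst ((Primrec.dom_finite (extIdx n)).comp Primrec.snd)
  exact h.to_comp

end Pool.Agent.H28.PCP
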