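import Mathlib

set_option autoImplicit false

/-!
# Module UB: a ToPartrec code with undecidable halting on one input number

There is a recursively enumerable non computable `p : ℕ → Prop` (copy `exists_re_not_computable`
from `Pool/Agent/H96/DPRM/Main.lean`, 20 lines; it uses `ComputablePred.halting_problem 0` and
`halting_problem_re`).  So there is a partial recursive `g : ℕ →. ℕ` with `(g n).Dom ↔ p n`
(`Part.assert`, `Partrec.map`), `Partrec.nat_iff`, then `Nat.Partrec'` (`Nat.Partrec'.of_part` or
similar) and `Turing.ToPartrec.Code.exists_code` (vectors of length 1: `[n]`).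
-/

namespace Pool.Agent.H28.PCP

open Turing

theorem code_undec : ∃ c : ToPartrec.Code, ¬ ComputablePred (fun n : ℕ => (c.eval [n]).Dom) := by
  have hg : Partrec (fun n : ℕ =>
      Nat.Partrec.Code.eval (Denumerable.ofNat Nat.Partrec.Code n) 0) :=
    Nat.Partrec.Code.eval_part.comp (Computable.ofNat Nat.Partrec.Code) (Computable.const 0)
  obtain ⟨c, hc⟩ := ToPartrec.Code.exists_code (Nat.Partrec'.part_iff₁.mpr hg)
  refine ⟨c, fun h => ComputablePred.halting_problem 0 ?_⟩
  have h1 : (fun n : ℕ => (c.eval [n]).Dom) = fun n : ℕ =>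
      (Nat.Partrec.Code.eval (Denumerable.ofNat Nat.Partrec.Code n) 0).Dom := by
    funext n
    have h2 := hc (n ::ᵥ List.Vector.nil)
    have h3 : (n ::ᵥ List.Vector.nil).toList = [n] := rfl
    change c.eval (n ::ᵥ List.Vector.nil).toList = _ at h2
    rw [h3] at h2
    rw [h2]
    rfl
  rw [h1] at h
  obtain ⟨g, hg, hgf⟩ := ComputablePred.computable_iff.1 h
  refine ComputablePred.computable_iff.2 ⟨fun c => g (Encodable.encode c),
    hg.comp Computable.encode, ?_⟩
  funext c
  have h3 := congrFun hgf (Encodable.encode c)
  simpa using h3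

end Pool.Agent.H28.PCP
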