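import Mathlib

set_option autoImplicit false

/-!
# Module UC: from a ToPartrec code to a finite TM0 machine

Chain in Mathlib: `Turing.PartrecToTM2.tr_eval c v : eval (TM2.step tr) (init c v) = halt <$> c.eval v`;
with the local instance `letI : Inhabited Λ' := ⟨trNormal c Cont'.halt⟩` (the one in
`PartrecToTM2.tr_supports c Cont'.halt`) one has `TM2.init K'.main (trList v) = init c v`
(σ = `Option Γ'`, `default = none`; `K'.elim_update_main` or `funext` + cases for the stacks);
`TM2to1.tr_eval_dom`, `TM1to0.tr_eval`; supports: `PartrecToTM2.tr_supports`,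
`TM2to1.tr_supports`, `TM1to0.tr_supports`.
-/

namespace Pool.Agent.H28.PCP

open Turing Turing.PartrecToTM2

/-- tape alphabet -/
abbrev Gam : Type := TM2to1.Γ' K' (fun _ => Γ')

/-- input of the machine -/
def inp (n : ℕ) : List Gam := TM2to1.trInit K'.main (trList [n])

theorem tm0_of_code (c : ToPartrec.Code) :
    ∃ (Λ : Type) (_ : Inhabited Λ) (M : TM0.Machine Gam Λ) (S : Set Λ),
      S.Finite ∧ TM0.Supports M S ∧ ∀ n : ℕ, (TM0.eval M (inp n)).Dom ↔ (c.eval [n]).Dom := by
  let _ : Inhabited Λ' := ⟨trNormal c Cont'.halt⟩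
  have h2 : TM2.Supports tr (codeSupp c Cont'.halt) := tr_supports c Cont'.halt
  have h1 := TM2to1.tr_supports tr h2
  have h0 := TM1to0.tr_supports (TM2to1.tr tr) h1
  refine ⟨_, _, TM1to0.tr (TM2to1.tr tr), _, Finset.finite_toSet _, h0, ?_⟩
  intro n
  rw [TM1to0.tr_eval]
  refine (TM2to1.tr_eval_dom (K := K') (Γ := fun _ => Γ') (σ := Option Γ') tr K'.main
    (trList [n])).trans ?_
  have e1 : (TM2.init K'.main (trList [n]) : TM2.Cfg (fun _ : K' => Γ') Λ' (Option Γ'))
      = init c [n] := by
    unfold TM2.init init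
    congr 1
    funext k
    cases k <;> rfl
  have e2 := tr_eval c [n]
  have e3 : TM2.eval (K := K') (Γ := fun _ => Γ') (σ := Option Γ') tr K'.main (trList [n])
      = (halt <$> c.eval [n]).map fun c => c.stk K'.main := by
    unfold TM2.eval
    rw [e1]
    exact congrArg (fun p : Part Cfg' => p.map fun c => c.stk K'.main) e2
  rw [e3]
  rfl

theorem gam_finite : Finite Gam := by
  have : Finite K' := Finite.of_surjective
    (fun i : Fin 4 => match i with
      | 0 => K'.main
      | 1 => K'.rev
      | 2 => K'.aux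
      | 3 => K'.stack) (by
      intro k
      cases k
      · exact ⟨0, rfl⟩
      · exact ⟨1, rfl⟩
      · exact ⟨2, rfl⟩
      · exact ⟨3, rfl⟩)
  unfold Gam TM2to1.Γ'
  infer_instance

end Pool.Agent.H28.PCP
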