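import Mathlib
import Pool.Agent.H28.PCP.UC

set_option autoImplicit false

/-!
# Module UD: the input word is computable

`inp n = trInit K'.main (trNat n ++ [cons])` where
`trInit k L = (let L' := L.reverse.map (fun a => (false, update (fun _ => none) k (some a)));
(true, L'.headI.2) :: L'.tail)`.  `trNat n` is the binary expansion (least significant first) in
`bit0, bit1`.  Suggested: let `enc : Γ' → Fin 4` an equivalence, `Γ'` finite; a function into lists
over a finite type composed with a fixed map is primitive recursive as soon as
`n ↦ (trNat n).map enc` is.  `t n := (trNat n).map enc` satisfies `t 0 = []`, and for `n > 0`: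
`t n = enc (if n % 2 = 0 then bit0 else bit1) :: t (n/2)`; use `Primrec.nat_strong_rec`
(or `Nat.bits`-like recursion), or: `(trNat n) = (List.range (Nat.size n)).map (fun i =>
if n.testBit i then bit1 else bit0)` with `Nat.size` bounded search.  Then reverse, map with a
function between finite types (`Primrec.dom_finite`), head and tail.
The head of `L'` : `(trList [n]).reverse` starts with `cons`, so `inp n = (true, update (fun _ => none)
main (some cons)) :: (trNat n).reverse.map (fun a => (false, update .. (some a)))`.
-/

namespace Pool.Agent.H28.PCP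

open Turing Turing.PartrecToTM2

theorem trNat_bit (b : Bool) (n : ℕ) (h : n = 0 → b = true) :
    trNat (Nat.bit b n) = (if b then Γ'.bit1 else Γ'.bit0) :: trNat n := by
  unfold trNat
  rw [← Num.ofNat'_eq, ← Num.ofNat'_eq, Num.ofNat'_bit]
  cases b
  · have hn : n ≠ 0 := fun h0 => absurd (h h0) (by simp)
    have h1 : Num.ofNat' n ≠ 0 := by
      rw [Num.ofNat'_eq]
      intro h2
      apply hn
      have := congrArg (fun x : Num => (x : ℕ)) h2
      simpa using this
    cases hx : Num.ofNat' n with
    | zero => exact absurd hx h1
    | pos p => rfl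
  · cases Num.ofNat' n <;> rfl

theorem trNat_eq_bits (n : ℕ) :
    trNat n = n.bits.map (fun b => if b then Γ'.bit1 else Γ'.bit0) := by
  induction n using Nat.binaryRec' with
  | zero => simp
  | bit b n h ih => rw [trNat_bit b n h, Nat.bits_append_bit n b h, List.map_cons, ih]

theorem bits_eq {n : ℕ} (hn : n ≠ 0) : n.bits = n.bodd :: (n / 2).bits := by
  conv_lhs => rw [← Nat.bit_bodd_div2 n]
  rw [Nat.bits_append_bit, Nat.div2_val]
  intro h
  by_contra hb
  apply hn
  rw [← Nat.bit_bodd_div2 n, h]
  rw [Bool.not_eq_true] at hb
  rw [hb]
  rfl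

theorem bits_primrec : Primrec Nat.bits := by
  have hg : Primrec₂ (fun (_ : Unit) (L : List (List Bool)) =>
      if L.length = 0 then some [] else
        (L[L.length / 2]?).map (fun l => Nat.bodd L.length :: l)) := by
    have hlen : Primrec (fun p : Unit × List (List Bool) => p.2.length) :=
      Primrec.list_length.comp Primrec.snd
    refine Primrec.ite (PrimrecRel.comp Primrec.eq hlen (Primrec.const 0)) (Primrec.const _) ?_
    refine Primrec.option_map ?_ ?_
    · exact Primrec.list_getElem?.comp Primrec.snd (Primrec.nat_div.comp hlen (Primrec.const 2))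
    · exact Primrec.list_cons.comp (Primrec.nat_bodd.comp (hlen.comp Primrec.fst)) Primrec.snd
  have h : Primrec₂ (fun (_ : Unit) n => Nat.bits n) := by
    refine Primrec.nat_strong_rec _ hg ?_
    intro _ n
    by_cases hn : n = 0
    · subst hn
      simp
    · have hlt : n / 2 < n := Nat.div_lt_self (Nat.pos_of_ne_zero hn) (by norm_num)
      simp [hn, hlt, bits_eq hn]
  exact h.comp (Primrec.const ()) Primrec.id

/-- cell entries -/
def gcell (b : Bool) (a : Γ') : Gam := (b, Function.update (fun _ => none) K'.main (some a))

theorem inp_eq (n : ℕ) : inp n = gcell true Γ'.cons ::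
    (n.bits.reverse.map (fun b => gcell false (if b then Γ'.bit1 else Γ'.bit0))) := by
  have h1 : (trList [n]).reverse
      = Γ'.cons :: (n.bits.reverse.map (fun b => if b then Γ'.bit1 else Γ'.bit0)) := by
    simp [trList, trNat_eq_bits]
  have h2 : n.bits.reverse.map (fun b => gcell false (if b then Γ'.bit1 else Γ'.bit0))
      = (n.bits.reverse.map (fun b => if b then Γ'.bit1 else Γ'.bit0)).map (gcell false) := by
    rw [List.map_map]
    rfl
  unfold inp TM2to1.trInit
  rw [h1, h2]
  rfl

theorem inp_computable (m : ℕ) (e : Gam ≃ Fin m) : Computable (fun n => (inp n).map e) := by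
  have h : (fun n => (inp n).map e) = fun n => e (gcell true Γ'.cons) ::
      (n.bits.reverse.map (fun b => e (gcell false (if b then Γ'.bit1 else Γ'.bit0)))) := by
    funext n
    rw [inp_eq, List.map_cons, List.map_map]
    rfl
  rw [h]
  exact (Primrec.list_cons.comp (Primrec.const _) (Primrec.list_map
    (Primrec.list_reverse.comp bits_primrec)
    ((Primrec.dom_finite (fun b : Bool => e (gcell false (if b then Γ'.bit1 else Γ'.bit0)))).comp
      Primrec.snd).to₂)).to_comp

end Pool.Agent.H28.PCP
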