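import Mathlib
import Pool.Agent.H28.PCP.UB
import Pool.Agent.H28.PCP.UD

set_option autoImplicit false

/-!
# UA: a fixed TM0 machine with undecidable halting problem (assembly of UB, UC, UD)
-/

namespace Pool.Agent.H28.PCP

open Turing

theorem tm0_undec : ∃ (Γ Λ : Type) (_ : Inhabited Λ) (_ : Inhabited Γ) (_ : Finite Γ)
    (M : TM0.Machine Γ Λ) (S : Set Λ) (m : ℕ) (e : Γ ≃ Fin m) (l : ℕ → List Γ),
    S.Finite ∧ TM0.Supports M S ∧ Computable (fun n => (l n).map e) ∧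
    ¬ ComputablePred (fun n => (TM0.eval M (l n)).Dom) := by
  obtain ⟨c, hc⟩ := code_undec
  obtain ⟨Λ, iΛ, M, S, hS, hsup, hM⟩ := tm0_of_code c
  haveI := gam_finite
  obtain ⟨m, ⟨e⟩⟩ := Finite.exists_equiv_fin Gam
  refine ⟨Gam, Λ, iΛ, inferInstance, gam_finite, M, S, m, e, inp, hS, hsup, inp_computable m e, ?_⟩
  have h1 : (fun n => (TM0.eval M (inp n)).Dom) = fun n => (c.eval [n]).Dom :=
    funext fun n => propext (hM n)
  rw [h1]
  exact hc

end Pool.Agent.H28.PCP
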