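import Mathlib
import Pool.Agent.H28.PCP.Basic

set_option autoImplicit false

/-!
# Module LA: facts on the slots pushed, and the scan in real time

`o = outs J Q e c = sc Q e c (List.range J)` is the list `j_0 < j_1 < ...` with `j_i < J`,
`e j_i = true`, `j_i % Q = (c+i) % Q`.

`scan_time`: the i-th push happens at local time `k_i = lam*j_i + θ + ((c+i)/Q - c/Q)`.  Claim: if
exactly `n` pushes have local time `< k` then a push has local time exactly `k` iff there is `j < J`
with `e j`, `j % Q = (c+n) % Q` and `k = lam*j + θ + ((c+n)/Q - c/Q)`.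
(→) if `k = k_i` then `i = n` (times are strictly increasing: `lam ≥ 1`, slots increase).
(←) `k_{n-1} < k` gives `lam*j_{n-1} + W' < lam*j + W` with `W ≤ W'+1` (`W = (c+n)/Q - c/Q`,
`W' = (c+n-1)/Q - c/Q`), `lam ≥ 2`, so `j_{n-1} ≤ j`, and `j_{n-1} ≠ j` because
`j_{n-1} % Q = (c+n-1) % Q ≠ (c+n) % Q` (`Q ≥ 2`).  `k ≤ k_n` (if there is a n-th push) gives
`j ≤ j_n`.  But by definition of the scan, after the push of `j_{n-1}` the next push is at the first
`j' > j_{n-1}` with `e j'` and `j' % Q = (c+n) % Q` (this is `outs_max`).  So `j_n` exists and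
`j_n = j`.
-/

namespace Pool.Agent.H28.PCP

theorem sc_spec (Q : ℕ) (e : ℕ → Bool) (l : List ℕ) : ∀ (c i : ℕ) (h : i < (sc Q e c l).length),
    e (sc Q e c l)[i] = true ∧ (sc Q e c l)[i] % Q = (c + i) % Q := by
  induction l with
  | nil => intro c i h; simp [sc] at h
  | cons a l ih =>
    intro c i h
    by_cases ha : e a = true ∧ a % Q = c % Q
    · have hs : sc Q e c (a :: l) = a :: sc Q e (c + 1) l := by rw [sc, if_pos ha]
      simp only [hs] at h ⊢
      cases i with
      | zero => simpa using ha
      | succ i =>
        have h' : i < (sc Q e (c + 1) l).length := by simpa using h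
        have := ih (c + 1) i h'
        rw [List.getElem_cons_succ]
        refine ⟨this.1, ?_⟩
        rw [this.2]
        congr 1
        omega
    · have hs : sc Q e c (a :: l) = sc Q e c l := by rw [sc, if_neg ha]
      simp only [hs] at h ⊢
      exact ih c i h

theorem sc_max (Q : ℕ) (e : ℕ → Bool) (l : List ℕ) (hl : l.Pairwise (· < ·)) :
    ∀ (c n j : ℕ), n ≤ (sc Q e c l).length → j ∈ l → e j = true → j % Q = (c + n) % Q →
    (∀ i (h : i < (sc Q e c l).length), i < n → (sc Q e c l)[i] < j) →
    ∃ h : n < (sc Q e c l).length, (sc Q e c l)[n] ≤ j := by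
  induction l with
  | nil => intro c n j _ h; simp at h
  | cons a l ih =>
    intro c n j hn hj he hq hb
    rw [List.pairwise_cons] at hl
    by_cases ha : e a = true ∧ a % Q = c % Q
    · have hs : sc Q e c (a :: l) = a :: sc Q e (c + 1) l := by rw [sc, if_pos ha]
      simp only [hs] at hn hb ⊢
      cases n with
      | zero =>
        refine ⟨by simp, ?_⟩
        rw [List.getElem_cons_zero]
        rcases List.mem_cons.mp hj with h | h
        · exact h.ge
        · exact (hl.1 j h).le
      | succ n =>
        have h0 : a < j := by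
          have := hb 0 (by simp) (by omega)
          simpa using this
        have hj' : j ∈ l := by
          rcases List.mem_cons.mp hj with h | h
          · omega
          · exact h
        obtain ⟨h1, h2⟩ := ih hl.2 (c + 1) n j (by simpa using hn) hj' he
          (by rw [hq]; congr 1; omega) (by
            intro i hi hin
            have := hb (i + 1) (by simpa using hi) (by omega)
            simpa using this)
        exact ⟨by simpa using h1, by simpa using h2⟩
    · have hs : sc Q e c (a :: l) = sc Q e c l := by rw [sc, if_neg ha]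
      simp only [hs] at hn hb ⊢
      have hj' : j ∈ l := by
        rcases List.mem_cons.mp hj with h | h
        · exfalso
          cases n with
          | zero =>
            apply ha
            rw [← h]
            exact ⟨he, by simpa using hq⟩
          | succ n =>
            have h0 : 0 < (sc Q e c l).length := by omega
            have h1 := hb 0 h0 (by omega)
            have h2 : (sc Q e c l)[0] ∈ l := (sc_sublist Q e c l).subset (List.getElem_mem h0)
            have h3 := hl.1 _ h2
            omega
        · exact h
      exact ih hl.2 c n j hn hj' he hq hb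

theorem outs_lt (J Q : ℕ) (e : ℕ → Bool) (c : ℕ) : ∀ j ∈ outs J Q e c, j < J := by
  intro j hj
  have := (sc_sublist Q e c (List.range J)).subset hj
  simpa using this

theorem outs_sorted (J Q : ℕ) (e : ℕ → Bool) (c : ℕ) : (outs J Q e c).Pairwise (· < ·) :=
  List.Pairwise.sublist (sc_sublist Q e c (List.range J)) List.pairwise_lt_range

theorem outs_spec (J Q : ℕ) (e : ℕ → Bool) (c i : ℕ) (h : i < (outs J Q e c).length) :
    e (outs J Q e c)[i] = true ∧ (outs J Q e c)[i] % Q = (c + i) % Q :=
  sc_spec Q e (List.range J) c i h

/-- maximality of the scan: a slot `j` that matches at the level reached after `n` pushes and lies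
after the `n`-th push (index `n-1`) is not jumped over. -/
theorem outs_max (J Q : ℕ) (e : ℕ → Bool) (c n j : ℕ) (hn : n ≤ (outs J Q e c).length)
    (hj : j < J) (he : e j = true) (hq : j % Q = (c + n) % Q)
    (hbefore : ∀ i (h : i < (outs J Q e c).length), i < n → (outs J Q e c)[i] < j) :
    ∃ h : n < (outs J Q e c).length, (outs J Q e c)[n] ≤ j :=
  sc_max Q e (List.range J) List.pairwise_lt_range c n j hn (List.mem_range.mpr hj) he hq hbefore

theorem scan_time (J Q lam : ℕ) (e : ℕ → Bool) (c θ k n : ℕ) (hQ : 2 ≤ Q) (hlam : 2 ≤ lam)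
    (hn : n ≤ (outs J Q e c).length)
    (h1 : ∀ i (h : i < (outs J Q e c).length), i < n →
      lam * (outs J Q e c)[i] + θ + ((c + i) / Q - c / Q) < k)
    (h2 : ∀ i (h : i < (outs J Q e c).length), n ≤ i →
      k ≤ lam * (outs J Q e c)[i] + θ + ((c + i) / Q - c / Q)) :
    (∃ i, ∃ h : i < (outs J Q e c).length,
      lam * (outs J Q e c)[i] + θ + ((c + i) / Q - c / Q) = k) ↔
    ∃ j < J, e j = true ∧ j % Q = (c + n) % Q ∧ k = lam * j + θ + ((c + n) / Q - c / Q) := by
  have hsort : ∀ i i' (h : i < (outs J Q e c).length) (h' : i' < (outs J Q e c).length),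
      i < i' → (outs J Q e c)[i] < (outs J Q e c)[i'] := by
    intro i i' h h' hii
    exact List.pairwise_iff_getElem.mp (outs_sorted J Q e c) i i' h h' hii
  constructor
  · rintro ⟨i, h, hk⟩
    have hni : n ≤ i := by
      by_contra hc
      have := h1 i h (not_le.mp hc)
      omega
    have hin : i = n := by
      by_contra hc
      have hlt : n < i := by omega
      have hn' : n < (outs J Q e c).length := by omega
      have h3 := h2 n hn' le_rfl
      have h4 := hsort n i hn' h hlt
      have h5 : lam * (outs J Q e c)[n] + lam ≤ lam * (outs J Q e c)[i] := by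
        have := Nat.mul_le_mul_left lam (Nat.succ_le_of_lt h4)
        rw [Nat.mul_succ] at this
        exact this
      have h6 : (c + n) / Q ≤ (c + i) / Q := Nat.div_le_div_right (by omega)
      omega
    subst hin
    obtain ⟨h3, h4⟩ := outs_spec J Q e c i h
    exact ⟨(outs J Q e c)[i], outs_lt J Q e c _ (List.getElem_mem h), h3, h4, hk.symm⟩
  · rintro ⟨j, hj, he, hq, hk⟩
    have hb : ∀ i (h : i < (outs J Q e c).length), i < n → (outs J Q e c)[i] < j := by
      intro i h hin
      have hlast : ∀ h' : n - 1 < (outs J Q e c).length, (outs J Q e c)[n - 1] < j := by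
        intro h'
        have h3 := h1 (n - 1) h' (by omega)
        have h4 : (c + n) / Q ≤ (c + (n - 1)) / Q + 1 := by
          have h5 : (c + n) / Q ≤ (c + (n - 1) + Q) / Q := Nat.div_le_div_right (by omega)
          rw [Nat.add_div_right _ (by omega)] at h5
          exact h5
        have h5 : c / Q ≤ (c + (n - 1)) / Q := Nat.div_le_div_right (by omega)
        have h6 : lam * (outs J Q e c)[n - 1] < lam * j + 1 := by omega
        have h7 : (outs J Q e c)[n - 1] ≤ j := by
          by_contra hc
          have := Nat.mul_le_mul_left lam (Nat.succ_le_of_lt (not_le.mp hc))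
          rw [Nat.mul_succ] at this
          omega
        refine lt_of_le_of_ne h7 ?_
        intro he'
        have h8 := (outs_spec J Q e c (n - 1) h').2
        rw [he', hq] at h8
        have h9 : c + n = (c + (n - 1)) + 1 := by omega
        rw [h9] at h8
        have h10 : (c + (n - 1) + 1) % Q = ((c + (n - 1)) % Q + 1) % Q := by
          rw [Nat.mod_add_mod]
        rw [h10] at h8
        have h11 : (c + (n - 1)) % Q < Q := Nat.mod_lt _ (by omega)
        rcases Nat.lt_or_ge ((c + (n - 1)) % Q + 1) Q with h12 | h12
        · rw [Nat.mod_eq_of_lt h12] at h8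
          omega
        · have h13 : (c + (n - 1)) % Q + 1 = Q := by omega
          rw [h13, Nat.mod_self] at h8
          omega
      have h' : n - 1 < (outs J Q e c).length := by omega
      rcases Nat.lt_or_ge i (n - 1) with h3 | h3
      · exact (hsort i (n - 1) h h' h3).trans (hlast h')
      · have h4 : i = n - 1 := by omega
        subst h4
        exact hlast h'
    obtain ⟨h3, h4⟩ := outs_max J Q e c n j hn hj he hq hb
    refine ⟨n, h3, ?_⟩
    have h5 := h2 n h3 le_rfl
    have h6 : lam * j ≤ lam * (outs J Q e c)[n] := by omega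
    have h7 : j ≤ (outs J Q e c)[n] := Nat.le_of_mul_le_mul_left h6 (by omega)
    have h8 : (outs J Q e c)[n] = j := le_antisymm h4 h7
    rw [h8]
    exact hk.symm

end Pool.Agent.H28.PCP
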