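import Mathlib
import Pool.Agent.H28.PCP.Basic

set_option autoImplicit false

/-!
# Module LB: the history of a run

Define `H : ℕ → List Tok`, `H 0 = q0`, `H (u+1) = match (H u)[u]? with | none => H u
| some t => H u ++ push J Q E t ((H u).length - u)`.  Then `(stepQ J Q E)^[u] q0 = (H u).drop u`
(if `u ≤ (H u).length`; after the queue is empty both sides stay `[]`), `N u = (H u).length`.
For a token `w ≥ 1` that exists let `par w` be the `u` with `N u ≤ w < N (u+1)` (e.g.
`Nat.findGreatest (fun u => N u ≤ w) w`), `par 0 = 0`; `sl w` = slot of the token number `w`.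
The token number `w` has `dl = (w - par w)/Q` (the i-th child of `u` is pushed at queue length
`N u - u + i = w - u`) and `pi = dl of par w = (par w - par (par w))/Q`; for `w = 0` all are 0.
The field `ok` is the condition `OK` for the reader `u` and its children.
-/

namespace Pool.Agent.H28.PCP

/-- the list of all tokens known before token `u` is read -/
def hist (J Q : ℕ) (E : ℕ → ℕ → Bool) : ℕ → List Tok
  | 0 => q0
  | u + 1 => match (hist J Q E u)[u]? with
    | none => hist J Q E u
    | some t => hist J Q E u ++ push J Q E t ((hist J Q E u).length - u)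

/-- number of tokens -/
def hN (J Q : ℕ) (E : ℕ → ℕ → Bool) (u : ℕ) : ℕ := (hist J Q E u).length

/-- token number `w` -/
def htok (J Q : ℕ) (E : ℕ → ℕ → Bool) (w : ℕ) : Tok := (hist J Q E w).getD w ⟨0, 0, 0⟩

/-- parent -/
def hpar (J Q : ℕ) (E : ℕ → ℕ → Bool) (w : ℕ) : ℕ :=
  Nat.findGreatest (fun u => hN J Q E u ≤ w) w

section
variable (J Q : ℕ) (E : ℕ → ℕ → Bool)

theorem hist_stop (u : ℕ) (h : hN J Q E u ≤ u) : hist J Q E (u + 1) = hist J Q E u := by
  have h1 : (hist J Q E u)[u]? = none := List.getElem?_eq_none h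
  rw [hist, h1]

theorem hist_next (u : ℕ) (t : Tok) (h : (hist J Q E u)[u]? = some t) :
    hist J Q E (u + 1) = hist J Q E u ++ push J Q E t (hN J Q E u - u) := by
  rw [hist, h]
  rfl

theorem step_eq_drop (u : ℕ) : (stepQ J Q E)^[u] q0 = (hist J Q E u).drop u := by
  induction u with
  | zero => rfl
  | succ u ih =>
    rw [Function.iterate_succ_apply', ih]
    by_cases h : hN J Q E u ≤ u
    · rw [hist_stop J Q E u h, List.drop_eq_nil_of_le h, List.drop_eq_nil_of_le (Nat.le_succ_of_le h)]
      rfl
    · have h' : u < (hist J Q E u).length := not_le.mp h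
      have h1 : (hist J Q E u)[u]? = some (hist J Q E u)[u] := List.getElem?_eq_getElem h'
      rw [hist_next J Q E u _ h1, List.drop_eq_getElem_cons h', stepQ,
        List.drop_append_of_le_length h']
      congr 2
      rw [List.length_drop]
      show _ = (hist J Q E u).length - u
      omega

theorem hN_mono_succ (u : ℕ) : hN J Q E u ≤ hN J Q E (u + 1) := by
  by_cases h : hN J Q E u ≤ u
  · rw [hN, hN, hist_stop J Q E u h]
  · have h' : u < (hist J Q E u).length := not_le.mp h
    rw [hN, hN, hist_next J Q E u _ (List.getElem?_eq_getElem h'), List.length_append]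
    omega

theorem hN_mono {u v : ℕ} (h : u ≤ v) : hN J Q E u ≤ hN J Q E v := by
  induction h with
  | refl => exact le_rfl
  | step _ ih => exact ih.trans (hN_mono_succ J Q E _)

theorem hist_stop' {u v : ℕ} (h : hN J Q E u ≤ u) (huv : u ≤ v) :
    hist J Q E v = hist J Q E u := by
  induction huv with
  | refl => rfl
  | @step v huv ih =>
    rw [← ih]
    apply hist_stop
    rw [hN, ih]
    exact h.trans huv

theorem hist_prefix_succ (u : ℕ) : hist J Q E u <+: hist J Q E (u + 1) := by
  by_cases h : hN J Q E u ≤ u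
  · rw [hist_stop J Q E u h]
  · have h' : u < (hist J Q E u).length := not_le.mp h
    rw [hist_next J Q E u _ (List.getElem?_eq_getElem h')]
    exact List.prefix_append _ _

theorem hist_prefix {u v : ℕ} (h : u ≤ v) : hist J Q E u <+: hist J Q E v := by
  induction h with
  | refl => exact List.prefix_refl _
  | step _ ih => exact ih.trans (hist_prefix_succ J Q E _)

theorem lt_hN_self (u w : ℕ) (h : w < hN J Q E u) : w < hN J Q E w := by
  by_contra hc
  have hc' := not_lt.mp hc
  rcases le_total u w with h1 | h1
  · have := hN_mono J Q E h1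
    omega
  · have h2 := hist_stop' J Q E hc' h1
    have h3 : hN J Q E u = hN J Q E w := by rw [hN, hN, h2]
    omega

theorem htok_spec (u w : ℕ) (h : w < hN J Q E u) : (hist J Q E u)[w]? = some (htok J Q E w) := by
  have hw := lt_hN_self J Q E u w h
  have h1 : (hist J Q E w)[w]? = some (htok J Q E w) := by
    rw [htok, List.getD_eq_getElem _ _ hw]
    exact List.getElem?_eq_getElem hw
  rw [← h1]
  rcases le_total u w with h2 | h2
  · obtain ⟨t, ht⟩ := hist_prefix J Q E h2
    rw [← ht, List.getElem?_append_left h]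
  · obtain ⟨t, ht⟩ := hist_prefix J Q E h2
    rw [← ht, List.getElem?_append_left hw]

theorem hN_next (u : ℕ) (h : u < hN J Q E u) : hN J Q E (u + 1) = hN J Q E u +
    (outs J Q (E (htok J Q E u).sl) (hN J Q E u - u)).length := by
  have h1 := hist_next J Q E u _ (htok_spec J Q E u u h)
  rw [hN, h1, List.length_append, push, List.length_mapIdx]
  rfl

theorem htok_child (u i : ℕ) (h : u < hN J Q E u)
    (hi : i < (outs J Q (E (htok J Q E u).sl) (hN J Q E u - u)).length) :
    htok J Q E (hN J Q E u + i) =
      ⟨(outs J Q (E (htok J Q E u).sl) (hN J Q E u - u))[i], (hN J Q E u - u + i) / Q,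
        (htok J Q E u).dl⟩ := by
  have h1 := hist_next J Q E u _ (htok_spec J Q E u u h)
  have h2 : hN J Q E u + i < hN J Q E (u + 1) := by
    rw [hN_next J Q E u h]
    omega
  have h3 := htok_spec J Q E (u + 1) _ h2
  rw [h1, List.getElem?_append_right (by rw [← hN]; omega), ← hN, Nat.add_sub_cancel_left, push,
    List.getElem?_mapIdx, List.getElem?_eq_getElem hi] at h3
  exact (Option.some.inj h3).symm

theorem hpar_eq (u w : ℕ) (h : u < hN J Q E u) (h1 : hN J Q E u ≤ w)
    (h2 : w < hN J Q E (u + 1)) : hpar J Q E w = u := by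
  apply le_antisymm
  · by_contra hc
    have hc' := not_le.mp hc
    have h3 : hN J Q E (hpar J Q E w) ≤ w :=
      Nat.findGreatest_spec (P := fun u => hN J Q E u ≤ w) (m := u) (by omega) h1
    have h4 := hN_mono J Q E (show u + 1 ≤ hpar J Q E w from hc')
    omega
  · exact Nat.le_findGreatest (P := fun u => hN J Q E u ≤ w) (by omega) h1

theorem hN_zero : hN J Q E 0 = 1 := rfl

theorem htok_zero : htok J Q E 0 = ⟨0, 0, 0⟩ := rfl

theorem hpar_zero : hpar J Q E 0 = 0 := by
  rw [hpar, Nat.findGreatest_zero]

theorem hpar_spec (v w : ℕ) (hw : 1 ≤ w) (h : w < hN J Q E v) :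
    hpar J Q E w < hN J Q E (hpar J Q E w) ∧ hN J Q E (hpar J Q E w) ≤ w ∧
      w < hN J Q E (hpar J Q E w + 1) := by
  have hw' := lt_hN_self J Q E v w h
  have h1 : hN J Q E (hpar J Q E w) ≤ w :=
    Nat.findGreatest_spec (P := fun u => hN J Q E u ≤ w) (m := 0) (Nat.zero_le _)
      (by rw [hN_zero]; exact hw)
  have h2 : hpar J Q E w ≤ w := Nat.findGreatest_le w
  have h3 : w < hN J Q E (hpar J Q E w + 1) := by
    by_contra hc
    have hc' := not_lt.mp hc
    rcases Nat.lt_or_ge (hpar J Q E w) w with h4 | h4
    · have h5 : hpar J Q E w + 1 ≤ hpar J Q E w :=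
        Nat.le_findGreatest (P := fun u => hN J Q E u ≤ w) h4 hc'
      omega
    · have h5 : hpar J Q E w = w := le_antisymm h2 h4
      rw [h5] at h1
      omega
  refine ⟨?_, h1, h3⟩
  by_contra hc
  have h4 := hist_stop J Q E _ (not_lt.mp hc)
  have h5 : hN J Q E (hpar J Q E w + 1) = hN J Q E (hpar J Q E w) := by rw [hN, hN, h4]
  omega

theorem htok_data (v w : ℕ) (h : w < hN J Q E v) :
    (htok J Q E w).dl = (w - hpar J Q E w) / Q ∧
      (htok J Q E w).pi = (hpar J Q E w - hpar J Q E (hpar J Q E w)) / Q := by
  induction w using Nat.strong_induction_on generalizing v with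
  | _ w ih =>
    rcases Nat.eq_zero_or_pos w with h0 | h0
    · subst h0
      rw [htok_zero, hpar_zero, hpar_zero]
      simp
    · obtain ⟨h1, h2, h3⟩ := hpar_spec J Q E v w h0 h
      have h4 := hN_next J Q E _ h1
      have h5 : w = hN J Q E (hpar J Q E w) + (w - hN J Q E (hpar J Q E w)) := by omega
      have h6 := htok_child J Q E (hpar J Q E w) (w - hN J Q E (hpar J Q E w)) h1 (by omega)
      rw [← h5] at h6
      have h7 := ih (hpar J Q E w) (by omega) (hpar J Q E w) h1
      rw [h6]
      refine ⟨?_, ?_⟩
      · show (hN J Q E (hpar J Q E w) - hpar J Q E w + (w - hN J Q E (hpar J Q E w))) / Q = _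
        congr 1
        omega
      · exact h7.1

end

theorem exists_run (J Q lam : ℕ) (E : ℕ → ℕ → Bool)
    (hok : ∀ u, OK J Q lam E ((stepQ J Q E)^[u] q0)) :
    ∃ r : Run J Q lam E, (∃ u, (stepQ J Q E)^[u] q0 = []) ↔ ∃ u, r.N u ≤ u := by
  refine ⟨{ N := hN J Q E
            sl := fun w => (htok J Q E w).sl
            par := hpar J Q E
            N0 := rfl
            sl0 := rfl
            par0 := hpar_zero J Q E
            stop := ?_
            next := fun u h => hN_next J Q E u h
            slot := ?_
            parent := ?_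
            ok := ?_ }, ?_⟩
  · intro u h
    rw [hN, hist_stop J Q E u h]
    rfl
  · intro u hu i hi
    rw [htok_child J Q E u i hu hi]
  · intro u hu i hi
    apply hpar_eq J Q E u _ hu (by omega)
    rw [hN_next J Q E u hu]
    omega
  · intro u hu w h1 h2
    have hu' : u < (hist J Q E u).length := hu
    have h3 := hok u
    have h4 : (hist J Q E u)[u] = htok J Q E u := by
      have := htok_spec J Q E u u hu
      rw [List.getElem?_eq_getElem hu'] at this
      exact Option.some.inj this
    rw [step_eq_drop, List.drop_eq_getElem_cons hu', h4, OK] at h3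
    have h5 := hN_next J Q E u hu
    have hi : w - hN J Q E u < (outs J Q (E (htok J Q E u).sl) (hN J Q E u - u)).length := by omega
    have h6 : (List.drop (u + 1) (hist J Q E u)).length + 1 = hN J Q E u - u := by
      rw [List.length_drop, ← hN]
      omega
    rw [h6] at h3
    have h7 : (⟨(outs J Q (E (htok J Q E u).sl) (hN J Q E u - u))[w - hN J Q E u],
        (hN J Q E u - u + (w - hN J Q E u)) / Q, (htok J Q E u).dl⟩ : Tok) ∈
        push J Q E (htok J Q E u) (hN J Q E u - u) := by
      rw [push, List.mem_mapIdx]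
      exact ⟨w - hN J Q E u, hi, rfl⟩
    have h8 := h3 _ h7
    rw [(htok_data J Q E u u hu).2] at h8
    have h9 : hN J Q E u - u + (w - hN J Q E u) = w - u := by omega
    simp only [h9] at h8
    exact h8
  · constructor
    · rintro ⟨u, hu⟩
      refine ⟨u, ?_⟩
      rw [step_eq_drop, List.drop_eq_nil_iff] at hu
      exact hu
    · rintro ⟨u, hu⟩
      refine ⟨u, ?_⟩
      rw [step_eq_drop, List.drop_eq_nil_iff]
      exact hu

end Pool.Agent.H28.PCP
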