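import Mathlib
import Pool.Agent.H28.PCP.LA

set_option autoImplicit false

/-!
# Module LC: arithmetic of the history

Token `w` exists iff `w < r.N w`.  `β = Q ε`, `R = ε β`.
`dl w = (w - par w)/Q`, `ζ_w = 1 + dl w - dl (par (par w)) ∈ [1, lam)` for an existing `w ≥ 1`
(field `ok`), `tau w = R par w - β dl (par w) + lam sl w + ζ_w`, `tau 0 = 0`;
`Tr u = R u - ε (u - par u) + 1 + ⌊(N u - u)/Q⌋ - dl (par u)`.
For an existing `w ≥ 1`: `(w - par w) % Q = sl w % Q` (field `slot` + `outs_spec`); for `w = 0` too.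
For the i-th child `w = N u + i` of `u` (`c = N u - u`, `w - u = c + i`):
`tau w - Tr u = lam sl w + ε ((u - par u) - Q dl u) + (w-u)/Q - c/Q`
             `= lam sl w + ε (sl u % Q) + ((c+i)/Q - c/Q)`.
It is `< β`: `sl w ≤ J-1`, `(c+i)/Q - c/Q ≤ i + 1 ≤ J` (`i < J` since the slots are distinct `< J`),
`lam (J-1) + ε (Q-1) + J < ε Q`.
`Tr (u+1) - Tr u ≥ R - ε - 2 ≥ β + 1`: with `g = par (u+1) - par u ≥ 0`,
`(u+1 - par (u+1)) - (u - par u) = 1 - g`, `N (u+1) - (u+1) ≥ N u - u - 1`,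
`dl (par (u+1)) ≤ dl (par u) + g + 1` (as `w - par w` increases by at most 1 when `w` increases by 1,
`par` monotone).
-/

namespace Pool.Agent.H28.PCP

variable {J Q lam : ℕ} {E : ℕ → ℕ → Bool}

/-- own push quotient -/
def Run.dl (r : Run J Q lam E) (w : ℕ) : ℕ := (w - r.par w) / Q

/-- time of the x-read that writes block `w` -/
def Run.tau (r : Run J Q lam E) (ε : ℕ) (w : ℕ) : ℤ :=
  if w = 0 then 0
  else ((ε * (Q * ε) : ℕ) : ℤ) * r.par w - ((Q * ε : ℕ) : ℤ) * r.dl (r.par w) + lam * r.sl w + 1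
    + r.dl w - r.dl (r.par (r.par w))

/-- time of the first read in block `u` -/
def Run.Tr (r : Run J Q lam E) (ε : ℕ) (u : ℕ) : ℤ :=
  ((ε * (Q * ε) : ℕ) : ℤ) * u - ε * ((u - r.par u : ℕ) : ℤ) + 1 + (((r.N u - u) / Q : ℕ) : ℤ)
    - r.dl (r.par u)

theorem Run.N_step (r : Run J Q lam E) (u : ℕ) : r.N u ≤ r.N (u + 1) := by
  rcases Nat.lt_or_ge u (r.N u) with h | h
  · rw [r.next u h]
    exact Nat.le_add_right _ _
  · rw [r.stop u h]

theorem Run.N_mono (r : Run J Q lam E) {u v : ℕ} (h : u ≤ v) : r.N u ≤ r.N v :=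
  monotone_nat_of_le_succ r.N_step h

theorem Run.N_const (r : Run J Q lam E) {u : ℕ} (h : r.N u ≤ u) (k : ℕ) :
    r.N (u + k) = r.N u := by
  induction k with
  | zero => rfl
  | succ k ih =>
    have h1 : r.N (u + k) ≤ u + k := by omega
    have h2 := r.stop (u + k) h1
    rw [← add_assoc, h2, ih]

/-- existence is downward closed -/
theorem Run.ex_down (r : Run J Q lam E) {u v : ℕ} (h : u ≤ v) (hv : v < r.N v) : u < r.N u := by
  by_contra hcon
  push Not at hcon
  have h1 := r.N_const hcon (v - u)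
  rw [Nat.add_sub_cancel' h] at h1
  omega

/-- tokens with number between `N u` and `N (u+1)` are children of `u` -/
theorem Run.par_eq (r : Run J Q lam E) {u w : ℕ} (h1 : r.N u ≤ w) (h2 : w < r.N (u + 1)) :
    u < r.N u ∧ r.par w = u ∧ ∃ h : w - r.N u < (outs J Q (E (r.sl u)) (r.N u - u)).length,
      r.sl w = (outs J Q (E (r.sl u)) (r.N u - u))[w - r.N u] := by
  have hu : u < r.N u := by
    by_contra hcon
    push Not at hcon
    rw [r.stop u hcon] at h2
    omega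
  have h3 := r.next u hu
  have h4 : w - r.N u < (outs J Q (E (r.sl u)) (r.N u - u)).length := by omega
  have h5 := r.slot u hu (w - r.N u) h4
  have h6 := r.parent u hu (w - r.N u) h4
  rw [Nat.add_sub_cancel' h1] at h5 h6
  exact ⟨hu, h6, h4, h5⟩

/-- an existing token `w ≥ 1` is the child of `par w` -/
theorem Run.par_spec (r : Run J Q lam E) {w : ℕ} (hw : w < r.N w) (h1 : 1 ≤ w) :
    r.par w < w ∧ r.N (r.par w) ≤ w ∧ w < r.N (r.par w + 1) := by
  classical
  have hex : ∃ v, w < r.N v := ⟨w, hw⟩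
  set v := Nat.find hex with hv
  have hv1 : w < r.N v := Nat.find_spec hex
  have hv2 : v ≤ w := Nat.find_min' hex hw
  have hv0 : v ≠ 0 := by
    intro h0
    rw [h0, r.N0] at hv1
    omega
  obtain ⟨u, hu⟩ := Nat.exists_eq_succ_of_ne_zero hv0
  have hu1 : r.N u ≤ w := by
    by_contra hcon
    push Not at hcon
    have := Nat.find_min' hex hcon
    omega
  have hu2 : w < r.N (u + 1) := by
    rw [hu] at hv1
    exact hv1
  obtain ⟨-, h3, -⟩ := r.par_eq hu1 hu2
  rw [h3]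
  exact ⟨by omega, hu1, hu2⟩

theorem Run.sl_mod (r : Run J Q lam E) {w : ℕ} (hw : w < r.N w) :
    (w - r.par w) % Q = r.sl w % Q := by
  rcases Nat.eq_zero_or_pos w with h0 | h0
  · subst h0
    rw [r.sl0, r.par0]
  · obtain ⟨a1, a2, a3⟩ := r.par_spec hw h0
    obtain ⟨b1, -, b3, b4⟩ := r.par_eq a2 a3
    have h5 := (outs_spec J Q (E (r.sl (r.par w))) (r.N (r.par w) - r.par w) _ b3).2
    rw [b4, h5]
    congr 1
    omega

theorem Run.sl_lt (r : Run J Q lam E) (hJ : 1 ≤ J) {w : ℕ} (hw : w < r.N w) : r.sl w < J := by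
  rcases Nat.eq_zero_or_pos w with h0 | h0
  · subst h0
    rw [r.sl0]
    omega
  · obtain ⟨a1, a2, a3⟩ := r.par_spec hw h0
    obtain ⟨b1, -, b3, b4⟩ := r.par_eq a2 a3
    rw [b4]
    exact outs_lt J Q (E (r.sl (r.par w))) (r.N (r.par w) - r.par w) _ (List.getElem_mem b3)

end Pool.Agent.H28.PCP
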