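import Mathlib
import Pool.Agent.H28.PCP.Basic

set_option autoImplicit false

/-!
# Module LD: counting reads (general lemma)

`tau : ℕ → ℤ` strictly increasing and nonnegative on the existing tokens (`ex`, downward closed);
`X T = true` iff `T = tau w` for an existing `w`.  Then `cnt X T = c` as soon as all `w < c` exist
and have `tau w < T` and (if `c` exists) `T ≤ tau c`.  Proof: `cnt X T` = number of `T' < T` with
`X T' = true`; `w ↦ tau w` is a bijection from `{w < c}` onto these `T'`.  (For instance by
induction on `T`, generalizing `c`; or with `Finset.card_bij`.)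
-/

namespace Pool.Agent.H28.PCP

theorem cnt_eq (tau : ℕ → ℤ) (ex : ℕ → Prop) (hex : ∀ v w, v ≤ w → ex w → ex v)
    (hpos : ∀ w, ex w → 0 ≤ tau w)
    (hlt : ∀ v w, v < w → ex w → tau v < tau w)
    (X : ℕ → Bool) (hX : ∀ T : ℕ, X T = true ↔ ∃ w, ex w ∧ tau w = (T : ℤ))
    (T c : ℕ) (h1 : ∀ w < c, ex w ∧ tau w < (T : ℤ)) (h2 : ex c → (T : ℤ) ≤ tau c) :
    cnt X T = c := by
  induction T generalizing c with
  | zero =>
    rcases Nat.eq_zero_or_pos c with hc | hc
    · simp [cnt, hc]
    · exfalso
      obtain ⟨he, hl⟩ := h1 0 hc
      have := hpos 0 he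
      push_cast at hl
      omega
  | succ T ih =>
    by_cases hXT : X T = true
    · obtain ⟨w, hw, hwT⟩ := (hX T).1 hXT
      have hwc : w < c := by
        by_contra hcon
        push Not at hcon
        have hec : ex c := hex c w hcon hw
        have h3 := h2 hec
        rcases Nat.lt_or_eq_of_le hcon with h4 | h4
        · have := hlt c w h4 hw
          push_cast at h3
          omega
        · rw [h4, hwT] at h3
          push_cast at h3
          omega
      have hwc' : w + 1 = c := by
        by_contra hcon
        have h5 : w + 1 < c := by omega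
        obtain ⟨he, hl⟩ := h1 (w + 1) h5
        have := hlt w (w + 1) (Nat.lt_succ_self w) he
        push_cast at hl
        omega
      have h6 : cnt X T = w := by
        refine ih w (fun v hv => ⟨hex v w hv.le hw, ?_⟩) (fun _ => ?_)
        · have := hlt v w hv hw
          omega
        · omega
      simp only [cnt, hXT, if_true, h6, hwc']
    · have h6 : cnt X T = c := by
        refine ih c (fun v hv => ?_) (fun hec => ?_)
        · obtain ⟨he, hl⟩ := h1 v hv
          refine ⟨he, ?_⟩
          have h7 : tau v ≠ (T : ℤ) := fun h8 => hXT ((hX T).2 ⟨v, he, h8⟩)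
          push_cast at hl
          omega
        · have := h2 hec
          push_cast at this
          omega
      simp [cnt, hXT, h6]

end Pool.Agent.H28.PCP
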