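import Mathlib
import Pool.Agent.H28.PCP.Basic

set_option autoImplicit false

/-!
# Module LE: properties of the word `Vf`

Write `β = Q ε`.  `Vf_iff`: if `i = β (k'+1) - t - ε s` with `t < ε`, `s < Q` (so
`0 ≤ t + ε s < β`), then `Vf i = true` iff there is `j < J` with `E (t/lam) j`, `j % Q = s`,
`k' = lam j + ε ((t/lam) % Q)`.  (Uniqueness of the representation: `i ≠ 0`; if
`i + t' + ε s' = β (k''+1)` too, with `t' < ε`, `s' < Q`, then `|t + ε s - t' - ε s'| < β` is a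
multiple of `β`, so `k' = k''`, `t + ε s = t' + ε s'`, `t = t'`, `s = s'`.)

`Vf_lt`: `Vf i = true → i ≤ β * β` (since `lam j + ε ((t/lam)%Q) + 1 ≤ lam (J-1) + ε (Q-1) + 1 ≤ β`).

`Vf_step`: `Vf (m (β-1)) = false` for `m ≥ 1`.  Suppose `m(β-1) + t + ε s = β (k+1)` with
`k = lam j + ε (a % Q)`, `a = t/lam`, `s = j % Q`, `E a j`.  `k ≤ lam (J-1) + ε (Q-1) < β - 2`.
`t + ε s = m + β d` with `d = k + 1 - m`; `0 ≤ t + ε s < β`, so `d ≤ 0`; if `d ≤ -1` then
`k + 1 = m + d = t + ε s - β d + d ≥ β - 1`, impossible; so `d = 0`, `k + 1 = t + ε s`,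
`lam j + 1 + ε (a % Q) = t + ε s` with `lam j + 1 < ε`, `t < ε`: `t = lam j + 1`, so `a = t/lam = j`
(`lam ≥ 2`), contradiction with `E j j = false`.

`Lf_spec`: `Lf Q ε + ε = (β-1) R + 1` with `R = ε β`, and `β (β+1) ≤ Lf Q ε`.
-/

namespace Pool.Agent.H28.PCP

theorem Vf_zero (J Q lam ε : ℕ) (E : ℕ → ℕ → Bool) : Vf J Q lam ε E 0 = true := by
  simp [Vf]

/-- uniqueness of the representation -/
theorem repr_unique (Q ε : ℕ) (i t s k t' s' k' : ℕ) (ht : t < ε) (hs : s < Q) (ht' : t' < ε)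
    (hs' : s' < Q) (hi : i + t + ε * s = Q * ε * (k + 1))
    (hi' : i + t' + ε * s' = Q * ε * (k' + 1)) : k = k' ∧ t = t' ∧ s = s' := by
  have hb : ∀ x y : ℕ, x < ε → y < Q → x + ε * y < Q * ε := by
    intro x y hx hy
    have h1 : ε * (y + 1) ≤ ε * Q := Nat.mul_le_mul_left _ hy
    have h2 : ε * (y + 1) = ε * y + ε := by ring
    have h3 : ε * Q = Q * ε := by ring
    omega
  have h1 := hb t s ht hs
  have h2 := hb t' s' ht' hs'
  have hk : k = k' := by
    rcases Nat.lt_trichotomy k k' with h | h | h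
    · exfalso
      have h3 : Q * ε * (k + 1) + Q * ε ≤ Q * ε * (k' + 1) := by
        calc Q * ε * (k + 1) + Q * ε = Q * ε * (k + 1 + 1) := by ring
          _ ≤ Q * ε * (k' + 1) := Nat.mul_le_mul_left _ (by omega)
      omega
    · exact h
    · exfalso
      have h3 : Q * ε * (k' + 1) + Q * ε ≤ Q * ε * (k + 1) := by
        calc Q * ε * (k' + 1) + Q * ε = Q * ε * (k' + 1 + 1) := by ring
          _ ≤ Q * ε * (k + 1) := Nat.mul_le_mul_left _ (by omega)
      omega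
  subst hk
  have h3 : t + ε * s = t' + ε * s' := by omega
  have hε : 0 < ε := by omega
  have h4 : s = s' := by
    have e1 : (t + ε * s) / ε = s := by
      rw [Nat.add_mul_div_left _ _ hε, Nat.div_eq_of_lt ht, zero_add]
    have e2 : (t' + ε * s') / ε = s' := by
      rw [Nat.add_mul_div_left _ _ hε, Nat.div_eq_of_lt ht', zero_add]
    rw [← e1, ← e2, h3]
  subst h4
  exact ⟨rfl, by omega, rfl⟩

theorem Vf_iff (J Q lam ε : ℕ) (E : ℕ → ℕ → Bool) (hQ : 2 ≤ Q)
    (i t s k : ℕ) (ht : t < ε) (hs : s < Q) (hi : i + t + ε * s = Q * ε * (k + 1)) :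
    Vf J Q lam ε E i = true ↔
      ∃ j < J, E (t / lam) j = true ∧ j % Q = s ∧ k = lam * j + ε * ((t / lam) % Q) := by
  have hi0 : i ≠ 0 := by
    rintro rfl
    have h1 : ε * (s + 1) ≤ ε * Q := Nat.mul_le_mul_left _ hs
    have h2 : ε * (s + 1) = ε * s + ε := by ring
    have h3 : Q * ε * 1 ≤ Q * ε * (k + 1) := Nat.mul_le_mul_left _ (by omega)
    have h4 : ε * Q = Q * ε := by ring
    omega
  rw [Vf, decide_eq_true_iff]
  constructor
  · rintro (h | ⟨t', ht', j, hj, hE, he⟩)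
    · exact absurd h hi0
    · obtain ⟨h1, h2, h3⟩ := repr_unique Q ε i t s k t' (j % Q) _ ht hs ht'
        (Nat.mod_lt _ (by omega)) hi he
      subst h2
      exact ⟨j, hj, hE, h3.symm, h1⟩
  · rintro ⟨j, hj, hE, hjs, hk⟩
    refine Or.inr ⟨t, ht, j, hj, hE, ?_⟩
    rw [hjs, ← hk]
    exact hi

theorem Vf_lt (J Q lam ε : ℕ) (E : ℕ → ℕ → Bool) (hQ : 2 ≤ Q) (hε : (lam + 1) * J + 4 ≤ ε)
    (i : ℕ) (h : Vf J Q lam ε E i = true) : i ≤ (Q * ε) * (Q * ε) := by
  rw [Vf, decide_eq_true_iff] at h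
  rcases h with h | ⟨t, ht, j, hj, -, he⟩
  · rw [h]; exact Nat.zero_le _
  · have h1 : lam * j + ε * ((t / lam) % Q) + 1 ≤ Q * ε := by
      have h2 : (t / lam) % Q + 1 ≤ Q := Nat.mod_lt _ (by omega)
      have h3 : ε * ((t / lam) % Q + 1) ≤ ε * Q := Nat.mul_le_mul_left _ h2
      have h4 : lam * j ≤ lam * J := Nat.mul_le_mul_left _ hj.le
      have h5 : ε * ((t / lam) % Q + 1) = ε * ((t / lam) % Q) + ε := by ring
      have h6 : ε * Q = Q * ε := by ring
      have h7 : (lam + 1) * J = lam * J + J := by ring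
      omega
    have h2 : Q * ε * (lam * j + ε * ((t / lam) % Q) + 1) ≤ Q * ε * (Q * ε) :=
      Nat.mul_le_mul_left _ h1
    omega

theorem Vf_step (J Q lam ε : ℕ) (E : ℕ → ℕ → Bool) (hQ : 2 ≤ Q) (hlam : 2 ≤ lam)
    (hε : (lam + 1) * J + 4 ≤ ε) (hE : ∀ a < J, E a a = false) (m : ℕ) (hm : 1 ≤ m) :
    Vf J Q lam ε E (m * (Q * ε - 1)) = false := by
  rw [Bool.eq_false_iff, ne_eq, Vf, decide_eq_true_iff]
  have hβ : 8 ≤ Q * ε := by nlinarith
  rintro (h | ⟨t, ht, j, hj, hEt, he⟩)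
  · rcases Nat.mul_eq_zero.1 h with h | h <;> omega
  · obtain ⟨a, ha⟩ : ∃ a, t / lam = a := ⟨_, rfl⟩
    rw [ha] at hEt he
    have h2 : a % Q + 1 ≤ Q := Nat.mod_lt _ (by omega)
    have h3 : ε * (a % Q + 1) ≤ ε * Q := Nat.mul_le_mul_left _ h2
    have h4 : lam * (j + 1) ≤ lam * J := Nat.mul_le_mul_left _ hj
    have h5 : ε * (a % Q + 1) = ε * (a % Q) + ε := by ring
    have h6 : ε * Q = Q * ε := by ring
    have h7 : (lam + 1) * J = lam * J + J := by ring
    have h8 : lam * (j + 1) = lam * j + lam := by ring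
    have hj1 : 1 ≤ J := by omega
    -- k + 1 ≤ β - 3
    have hk : lam * j + ε * (a % Q) + 1 + 3 ≤ Q * ε := by omega
    have hjQ : j % Q + 1 ≤ Q := Nat.mod_lt _ (by omega)
    have hs : ε * (j % Q + 1) ≤ ε * Q := Nat.mul_le_mul_left _ hjQ
    have hs' : ε * (j % Q + 1) = ε * (j % Q) + ε := by ring
    have hts : t + ε * (j % Q) < Q * ε := by omega
    have hmB : m * (Q * ε - 1) + m = Q * ε * m := by
      obtain ⟨b, hb⟩ : ∃ b, Q * ε = b + 1 := ⟨Q * ε - 1, by omega⟩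
      rw [hb]
      simp only [Nat.add_sub_cancel]
      ring
    set k1 := lam * j + ε * (a % Q) + 1 with hk1
    -- β m + (t + ε s) = β k1 + m
    have hmain : Q * ε * m + (t + ε * (j % Q)) = Q * ε * k1 + m := by omega
    have hmk : m = k1 := by
      rcases Nat.lt_trichotomy m k1 with h | h | h
      · exfalso
        have : Q * ε * m + Q * ε ≤ Q * ε * k1 := by
          calc Q * ε * m + Q * ε = Q * ε * (m + 1) := by ring
            _ ≤ Q * ε * k1 := Nat.mul_le_mul_left _ h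
        omega
      · exact h
      · exfalso
        obtain ⟨d, hd⟩ : ∃ d, m = k1 + (d + 1) := ⟨m - k1 - 1, by omega⟩
        rw [hd] at hmain
        have e1 : Q * ε * (k1 + (d + 1)) = Q * ε * k1 + Q * ε * d + Q * ε := by ring
        have e2 : d ≤ Q * ε * d := Nat.le_mul_of_pos_left d (by omega)
        omega
    rw [hmk] at hmain
    have hfin : t + ε * (j % Q) = k1 := by omega
    have hε0 : 0 < ε := by omega
    have hlj : lam * j + 1 < ε := by omega
    have h9 : t = lam * j + 1 := by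
      have e1 : (t + ε * (j % Q)) % ε = t := by
        rw [Nat.add_mul_mod_self_left, Nat.mod_eq_of_lt ht]
      have e2 : k1 % ε = lam * j + 1 := by
        have : k1 = lam * j + 1 + ε * (a % Q) := by omega
        rw [this, Nat.add_mul_mod_self_left, Nat.mod_eq_of_lt hlj]
      rw [← e1, hfin, e2]
    have h10 : a = j := by
      rw [← ha, h9, Nat.mul_add_div (by omega), Nat.div_eq_of_lt (by omega), add_zero]
    rw [h10, hE j hj] at hEt
    exact Bool.noConfusion hEt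

theorem Lf_spec (Q ε : ℕ) (hQ : 2 ≤ Q) (hε : 4 ≤ ε) :
    Lf Q ε + ε = (Q * ε - 1) * (ε * (Q * ε)) + 1 ∧ (Q * ε) * (Q * ε + 1) ≤ Lf Q ε := by
  obtain ⟨b, hb⟩ : ∃ b, Q * ε = b + 1 := ⟨Q * ε - 1, by
    have : 0 < Q * ε := Nat.mul_pos (by omega) (by omega)
    omega⟩
  have h8 : 2 * ε ≤ b + 1 := by rw [← hb]; exact Nat.mul_le_mul_right _ hQ
  rw [Lf, hb]
  simp only [Nat.add_sub_cancel]
  have h1 : b * (4 * (b + 1)) ≤ b * (ε * (b + 1)) :=
    Nat.mul_le_mul_left _ (Nat.mul_le_mul_right _ hε)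
  have h2 : ε ≤ b := by omega
  have h3 : b * (4 * (b + 1)) = (b + 1) * (b + 1 + 1) + (3 * b * b + b - 2) := by
    have : 2 ≤ 3 * b * b + b := by nlinarith
    zify [this]
    ring
  have h4 : ε ≤ 3 * b * b + b - 2 := by
    have : 2 ≤ b * b := by nlinarith
    have h5 : 3 * b * b = b * b + b * b + b * b := by ring
    omega
  constructor <;> omega

end Pool.Agent.H28.PCP
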