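import Mathlib
import Pool.Agent.H28.PCP.LC

set_option autoImplicit false

/-!
# Module LG: times of the history (uses LC part 1, which may still be sorried; see its header)
-/

namespace Pool.Agent.H28.PCP

variable {J Q lam : ℕ} {E : ℕ → ℕ → Bool}

/-! ## Auxiliary facts -/

theorem Run.par_le_lg (r : Run J Q lam E) {w : ℕ} (hw : w < r.N w) : r.par w ≤ w := by
  rcases Nat.eq_zero_or_pos w with rfl | h
  · rw [r.par0]
  · exact (r.par_spec hw h).1.le

theorem Run.par_ex (r : Run J Q lam E) {w : ℕ} (hw : w < r.N w) : r.par w < r.N (r.par w) :=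
  r.ex_down (r.par_le_lg hw) hw

theorem Run.par_mono (r : Run J Q lam E) {v w : ℕ} (hvw : v ≤ w) (hw : w < r.N w) :
    r.par v ≤ r.par w := by
  rcases Nat.eq_zero_or_pos v with rfl | h
  · rw [r.par0]
    exact Nat.zero_le _
  · by_contra hcon
    push Not at hcon
    have h1 := r.par_spec (r.ex_down hvw hw) h
    have h2 := r.par_spec hw (h.trans_le hvw)
    have h3 : r.N (r.par w + 1) ≤ r.N (r.par v) := r.N_mono hcon
    omega

/-- `w - par w` grows by at most one per step -/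
theorem Run.gap_le (r : Run J Q lam E) {v w : ℕ} (hvw : v ≤ w) (hw : w < r.N w) :
    w - r.par w ≤ (v - r.par v) + (w - v) := by
  have h1 := r.par_mono hvw hw
  have h2 := r.par_le_lg (r.ex_down hvw hw)
  have h3 := r.par_le_lg hw
  omega

theorem div_add_le (Q : ℕ) (hQ : 1 ≤ Q) (a g : ℕ) : (a + g) / Q ≤ a / Q + g := by
  calc (a + g) / Q ≤ (a + g * Q) / Q := by
        apply Nat.div_le_div_right
        have : g * 1 ≤ g * Q := Nat.mul_le_mul_left g hQ
        omega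
    _ = a / Q + g := by rw [Nat.add_mul_div_right _ _ (by omega)]

/-- `tau w = R par w - β dl (par w) + t` with `t = lam sl w + ζ`, `ζ < lam` and `1 ≤ ζ` if `1 ≤ w`
(for `w = 0` everything is 0) -/
theorem Run.tau_res (r : Run J Q lam E) (ε : ℕ) (hlam : 2 ≤ lam) {w : ℕ} (hw : w < r.N w) :
    ∃ z : ℕ, z < lam ∧ (1 ≤ w → 1 ≤ z) ∧ r.tau ε w = ((ε * (Q * ε) : ℕ) : ℤ) * r.par w
      - ((Q * ε : ℕ) : ℤ) * r.dl (r.par w) + ((lam * r.sl w + z : ℕ) : ℤ) := by
  rcases Nat.eq_zero_or_pos w with rfl | h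
  · refine ⟨0, by omega, by omega, ?_⟩
    have h0 : r.dl 0 = 0 := by
      unfold Run.dl
      rw [r.par0]
      simp
    rw [r.par0, h0, r.sl0]
    simp [Run.tau]
  · obtain ⟨h1, h2, h3⟩ := r.par_spec hw h
    have h4 := r.ok (r.par w) (r.par_ex hw) w h2 h3
    have h5 : r.dl (r.par (r.par w)) ≤ r.dl w ∧ r.dl w + 1 < lam + r.dl (r.par (r.par w)) := h4
    refine ⟨1 + r.dl w - r.dl (r.par (r.par w)), by omega, fun _ => by omega, ?_⟩
    have hw0 : w ≠ 0 := by omega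
    rw [Run.tau, if_neg hw0]
    have h6 : ((1 + r.dl w - r.dl (r.par (r.par w)) : ℕ) : ℤ) =
        1 + r.dl w - r.dl (r.par (r.par w)) := by
      rw [Nat.cast_sub (by omega)]
      push_cast
      ring
    rw [Nat.cast_add (lam * r.sl w), h6]
    push_cast
    ring

theorem Run.Tr_zero (r : Run J Q lam E) (hQ : 2 ≤ Q) (ε : ℕ) : r.Tr ε 0 = 1 := by
  have h0 : r.dl 0 = 0 := by
    unfold Run.dl
    rw [r.par0]
    simp
  have h1 : 1 / Q = 0 := Nat.div_eq_of_lt (by omega)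
  rw [Run.Tr, r.par0, r.N0, h0]
  simp [h1]

/-- local time of a child -/
theorem Run.tau_child (r : Run J Q lam E) (hQ : 2 ≤ Q) (ε : ℕ) {u i : ℕ} (hu : u < r.N u)
    (hi : i < (outs J Q (E (r.sl u)) (r.N u - u)).length) :
    r.tau ε (r.N u + i) = r.Tr ε u + ((lam * (outs J Q (E (r.sl u)) (r.N u - u))[i]
      + ε * (r.sl u % Q) + ((r.N u - u + i) / Q - (r.N u - u) / Q) : ℕ) : ℤ) := by
  have hw0 : r.N u + i ≠ 0 := by omega
  have hpar : r.par (r.N u + i) = u := r.parent u hu i hi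
  have hsl : r.sl (r.N u + i) = (outs J Q (E (r.sl u)) (r.N u - u))[i] := r.slot u hu i hi
  have hdl : r.dl (r.N u + i) = (r.N u - u + i) / Q := by
    unfold Run.dl
    rw [hpar]
    congr 1
    omega
  rw [Run.tau, if_neg hw0, hpar, hsl, hdl, Run.Tr]
  have h1 : (r.N u - u) / Q ≤ (r.N u - u + i) / Q := Nat.div_le_div_right (by omega)
  have h2 : u - r.par u = Q * r.dl u + r.sl u % Q := by
    rw [← r.sl_mod hu]
    unfold Run.dl
    exact (Nat.div_add_mod (u - r.par u) Q).symm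
  have h3 : ((u - r.par u : ℕ) : ℤ) = Q * r.dl u + ((r.sl u % Q : ℕ) : ℤ) := by
    rw [h2]
    push_cast
    ring
  rw [h3]
  generalize (outs J Q (E (r.sl u)) (r.N u - u))[i] = o
  have h4 : ((lam * o + ε * (r.sl u % Q) + ((r.N u - u + i) / Q - (r.N u - u) / Q) : ℕ) : ℤ) =
      lam * o + ε * ((r.sl u % Q : ℕ) : ℤ) + (((r.N u - u + i) / Q : ℕ) : ℤ)
        - (((r.N u - u) / Q : ℕ) : ℤ) := by
    rw [Nat.cast_add, Nat.cast_sub h1, Nat.cast_add, Nat.cast_mul, Nat.cast_mul]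
    ring
  rw [h4]
  generalize (((r.N u - u + i) / Q : ℕ) : ℤ) = X
  generalize (((r.N u - u) / Q : ℕ) : ℤ) = Y
  generalize ((r.sl u % Q : ℕ) : ℤ) = Z
  push_cast
  ring

theorem outs_length_le (J Q : ℕ) (e : ℕ → Bool) (c : ℕ) : (outs J Q e c).length ≤ J := by
  have h := (sc_sublist Q e c (List.range J)).length_le
  rw [List.length_range] at h
  exact h

/-- local times are `< β` -/
theorem Run.local_lt (r : Run J Q lam E) (hQ : 2 ≤ Q) (hlam : 2 ≤ lam) (hJ : 1 ≤ J) (ε : ℕ)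
    (hε : (lam + 1) * J + 4 ≤ ε) {u i : ℕ}
    (hi : i < (outs J Q (E (r.sl u)) (r.N u - u)).length) :
    lam * (outs J Q (E (r.sl u)) (r.N u - u))[i] + ε * (r.sl u % Q)
      + ((r.N u - u + i) / Q - (r.N u - u) / Q) < Q * ε := by
  have h1 : (outs J Q (E (r.sl u)) (r.N u - u))[i] < J :=
    outs_lt J Q _ _ _ (List.getElem_mem hi)
  have h2 : i < J := lt_of_lt_of_le hi (outs_length_le J Q _ _)
  have h3 : (r.N u - u + i) / Q ≤ (r.N u - u) / Q + i := div_add_le Q (by omega) _ _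
  have h4 : r.sl u % Q ≤ Q - 1 := by
    have := Nat.mod_lt (r.sl u) (show 0 < Q by omega)
    omega
  generalize (outs J Q (E (r.sl u)) (r.N u - u))[i] = o at h1 ⊢
  have h5 : lam * o ≤ lam * (J - 1) := Nat.mul_le_mul_left lam (by omega)
  have h6 : lam * (J - 1) + lam = lam * J := by
    obtain ⟨j, rfl⟩ : ∃ j, J = j + 1 := ⟨J - 1, by omega⟩
    simp only [Nat.add_sub_cancel]
    ring
  have h7 : ε * (r.sl u % Q) ≤ ε * (Q - 1) := Nat.mul_le_mul_left ε h4
  have h8 : ε * (Q - 1) + ε = Q * ε := by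
    obtain ⟨q, rfl⟩ : ∃ q, Q = q + 1 := ⟨Q - 1, by omega⟩
    simp only [Nat.add_sub_cancel]
    ring
  have h9 : (lam + 1) * J = lam * J + J := by ring
  omega

/-- windows are longer than `β` -/
theorem Run.Tr_succ (r : Run J Q lam E) (hQ : 2 ≤ Q) (hlam : 2 ≤ lam) (hJ : 1 ≤ J) (ε : ℕ)
    (hε : (lam + 1) * J + 4 ≤ ε) {u : ℕ} (hu : u + 1 < r.N (u + 1)) :
    r.Tr ε u + ((Q * ε : ℕ) : ℤ) + 1 ≤ r.Tr ε (u + 1) := by
  have hε4 : 4 ≤ ε := by omega
  have hux : u < r.N u := r.ex_down (Nat.le_succ u) hu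
  have hp1 : r.par u ≤ r.par (u + 1) := r.par_mono (Nat.le_succ u) hu
  have hp2 : r.par u ≤ u := r.par_le_lg hux
  have hp3 : r.par (u + 1) ≤ u + 1 := r.par_le_lg hu
  have hN : r.N u ≤ r.N (u + 1) := r.N_mono (Nat.le_succ u)
  -- the quotients
  have hd1 : (r.N u - u) / Q ≤ (r.N (u + 1) - (u + 1)) / Q + 1 := by
    calc (r.N u - u) / Q ≤ (r.N (u + 1) - (u + 1) + 1) / Q := Nat.div_le_div_right (by omega)
      _ ≤ (r.N (u + 1) - (u + 1)) / Q + 1 := div_add_le Q (by omega) _ _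
  have hd2 : r.dl (r.par (u + 1)) ≤ r.dl (r.par u) + (r.par (u + 1) - r.par u) := by
    unfold Run.dl
    calc (r.par (u + 1) - r.par (r.par (u + 1))) / Q
        ≤ ((r.par u - r.par (r.par u)) + (r.par (u + 1) - r.par u)) / Q :=
          Nat.div_le_div_right (r.gap_le hp1 (r.par_ex hu))
      _ ≤ _ := div_add_le Q (by omega) _ _
  have e1 : ((u + 1 - r.par (u + 1) : ℕ) : ℤ) = (u : ℤ) + 1 - r.par (u + 1) := by
    rw [Nat.cast_sub hp3]
    push_cast
    ring
  have e2 : ((u - r.par u : ℕ) : ℤ) = (u : ℤ) - r.par u := by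
    rw [Nat.cast_sub hp2]
  have hd1' : (((r.N u - u) / Q : ℕ) : ℤ) ≤ (((r.N (u + 1) - (u + 1)) / Q : ℕ) : ℤ) + 1 := by
    exact_mod_cast hd1
  have hd2' : (r.dl (r.par (u + 1)) : ℤ) ≤ r.dl (r.par u) + ((r.par (u + 1) : ℤ) - r.par u) := by
    have h := hd2
    zify [hp1] at h
    exact h
  have hp1' : (0 : ℤ) ≤ (r.par (u + 1) : ℤ) - r.par u := by
    have : (r.par u : ℤ) ≤ r.par (u + 1) := by exact_mod_cast hp1
    linarith
  unfold Run.Tr
  rw [e1, e2]
  generalize (((r.N u - u) / Q : ℕ) : ℤ) = X at *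
  generalize (((r.N (u + 1) - (u + 1)) / Q : ℕ) : ℤ) = Y at *
  generalize (r.dl (r.par (u + 1)) : ℤ) = D1 at *
  generalize (r.dl (r.par u) : ℤ) = D0 at *
  generalize (r.par (u + 1) : ℤ) = p1 at *
  generalize (r.par u : ℤ) = p0 at *
  have hQ' : (2 : ℤ) ≤ Q := by exact_mod_cast hQ
  have hε' : (4 : ℤ) ≤ ε := by exact_mod_cast hε4
  push_cast
  have h1 : (0 : ℤ) ≤ ((ε : ℤ) - 1) * (p1 - p0) := mul_nonneg (by linarith) hp1'
  have h2 : (2 : ℤ) * ε ≤ Q * ε := mul_le_mul_of_nonneg_right hQ' (by linarith)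
  have h3 : ((Q : ℤ) * ε) * 3 ≤ (Q * ε) * (ε - 1) :=
    mul_le_mul_of_nonneg_left (by linarith) (by nlinarith)
  nlinarith

theorem Run.Tr_mono_lg (r : Run J Q lam E) (hQ : 2 ≤ Q) (hlam : 2 ≤ lam) (hJ : 1 ≤ J) (ε : ℕ)
    (hε : (lam + 1) * J + 4 ≤ ε) {u v : ℕ} (huv : u ≤ v) (hv : v < r.N v) :
    r.Tr ε u ≤ r.Tr ε v := by
  induction v, huv using Nat.le_induction with
  | base => exact le_rfl
  | succ v huv ih =>
    have h1 := ih (r.ex_down (Nat.le_succ v) hv)
    have h2 := r.Tr_succ hQ hlam hJ ε hε hv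
    have h3 : (0 : ℤ) ≤ ((Q * ε : ℕ) : ℤ) := Int.natCast_nonneg _
    linarith

/-- an existing token `w ≥ 1` is a child of `par w` -/
theorem Run.child_of (r : Run J Q lam E) {w : ℕ} (hw : w < r.N w) (h1 : 1 ≤ w) :
    ∃ i, ∃ _ : i < (outs J Q (E (r.sl (r.par w))) (r.N (r.par w) - r.par w)).length,
      w = r.N (r.par w) + i := by
  obtain ⟨h2, h3, h4⟩ := r.par_spec hw h1
  obtain ⟨h5, -, h6, -⟩ := r.par_eq h3 h4
  exact ⟨w - r.N (r.par w), h6, by omega⟩

theorem Run.tau_ge (r : Run J Q lam E) (hQ : 2 ≤ Q) (ε : ℕ) {w : ℕ} (hw : w < r.N w)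
    (h1 : 1 ≤ w) : r.Tr ε (r.par w) ≤ r.tau ε w := by
  obtain ⟨i, hi, h2⟩ := r.child_of hw h1
  have h3 := r.tau_child hQ ε (r.par_ex hw) hi
  rw [← h2] at h3
  rw [h3]
  have h4 := Int.natCast_nonneg (lam * (outs J Q (E (r.sl (r.par w))) (r.N (r.par w) - r.par w))[i]
      + ε * (r.sl (r.par w) % Q)
      + ((r.N (r.par w) - r.par w + i) / Q - (r.N (r.par w) - r.par w) / Q))
  linarith

/-- the x-read times are strictly increasing -/
theorem Run.tau_lt (r : Run J Q lam E) (hQ : 2 ≤ Q) (hlam : 2 ≤ lam) (hJ : 1 ≤ J) (ε : ℕ)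
    (hε : (lam + 1) * J + 4 ≤ ε) {v w : ℕ} (hvw : v < w) (hw : w < r.N w) :
    r.tau ε v < r.tau ε w := by
  have hw1 : 1 ≤ w := by omega
  have hge := r.tau_ge hQ ε hw hw1
  have hv : v < r.N v := r.ex_down hvw.le hw
  rcases Nat.eq_zero_or_pos v with rfl | hv1
  · have h1 : r.tau ε 0 = 0 := by simp [Run.tau]
    have h2 := r.Tr_mono_lg hQ hlam hJ ε hε (Nat.zero_le (r.par w)) (r.par_ex hw)
    rw [r.Tr_zero hQ ε] at h2
    linarith
  · obtain ⟨i, hi, h2⟩ := r.child_of hv hv1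
    have h3 := r.tau_child hQ ε (r.par_ex hv) hi
    rw [← h2] at h3
    rcases (r.par_mono hvw.le hw).eq_or_lt with heq | hlt
    · obtain ⟨i', hi', h2'⟩ := r.child_of hw hw1
      rw [← heq] at h2'
      have hi'' : i' < (outs J Q (E (r.sl (r.par v))) (r.N (r.par v) - r.par v)).length := by
        rw [heq]
        exact hi'
      have h3' := r.tau_child hQ ε (r.par_ex hv) hi''
      rw [← h2'] at h3'
      have hii : i < i' := by omega
      have hs := outs_sorted J Q (E (r.sl (r.par v))) (r.N (r.par v) - r.par v)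
      have hlt' : (outs J Q (E (r.sl (r.par v))) (r.N (r.par v) - r.par v))[i] <
          (outs J Q (E (r.sl (r.par v))) (r.N (r.par v) - r.par v))[i'] :=
        (List.pairwise_iff_getElem.1 hs) i i' hi hi'' hii
      rw [h3, h3']
      have hdd : (r.N (r.par v) - r.par v + i) / Q ≤ (r.N (r.par v) - r.par v + i') / Q :=
        Nat.div_le_div_right (by omega)
      have hfin : lam * (outs J Q (E (r.sl (r.par v))) (r.N (r.par v) - r.par v))[i]
          + ε * (r.sl (r.par v) % Q)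
          + ((r.N (r.par v) - r.par v + i) / Q - (r.N (r.par v) - r.par v) / Q) <
          lam * (outs J Q (E (r.sl (r.par v))) (r.N (r.par v) - r.par v))[i']
          + ε * (r.sl (r.par v) % Q)
          + ((r.N (r.par v) - r.par v + i') / Q - (r.N (r.par v) - r.par v) / Q) := by
        have h5 : lam * (outs J Q (E (r.sl (r.par v))) (r.N (r.par v) - r.par v))[i] <
            lam * (outs J Q (E (r.sl (r.par v))) (r.N (r.par v) - r.par v))[i'] :=
          Nat.mul_lt_mul_of_pos_left hlt' (by omega)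
        omega
      have hfin' := Int.ofNat_lt.2 hfin
      linarith
    · have h4 := r.local_lt hQ hlam hJ ε hε hi
      have h5 := r.Tr_succ hQ hlam hJ ε hε (r.ex_down (show r.par v + 1 ≤ r.par w from hlt)
        (r.par_ex hw))
      have h6 := r.Tr_mono_lg hQ hlam hJ ε hε (show r.par v + 1 ≤ r.par w from hlt) (r.par_ex hw)
      have h4' := Int.ofNat_lt.2 h4
      linarith

end Pool.Agent.H28.PCP
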