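import Mathlib
import Pool.Agent.H28.PCP.LB
import Pool.Agent.H28.PCP.LG
import Pool.Agent.H28.PCP.LD
import Pool.Agent.H28.PCP.LE

set_option autoImplicit false

/-!
# Module LF: the run of the four pairs follows the token system

`β = Q ε`, `R = ε β`, `L = Lf Q ε = (β-1) R + 1 - ε`.  `Y T = true` iff `T = tau w` for an existing
token `w` (`w < r.N w`).

Windows: every `T ≥ 1` lies in a window: there is an existing `u` with `Tr u ≤ T` and
(`u+1` exists → `T < Tr (u+1)`) (`Tr 0 = 1`, windows have length ≥ 1).  Put `k = T - Tr u`, `c = N u - u`,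
`k_i = lam o_i + ε (sl u % Q) + ((c+i)/Q - c/Q)` = local time of the i-th child, `n` = number of
`i` with `k_i < k` (the local times increase, `tau_lt`, `tau_child`).  Then `cnt Y T = N u + n`
(`cnt_eq`: tokens `w < N u` have `par w < u`, `tau w = Tr (par w) + local < Tr (par w) + β <
Tr (par w + 1) ≤ Tr u ≤ T`; the token `N u + n`, if it exists, is a child of `u` with local time
`≥ k`, or a child of a token `≥ u+1` with `tau ≥ Tr (u+1) > T`).

`pos T = β T - ε (N u + n)`, block `w` starts at `a_w = len (tau w) = tau w + (L-1) w`,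
`a_{w+1} ≥ a_w + L`.  With `tau u = R par u - β dl (par u) + t`, `t = lam sl u + z < ε`, `z < lam`,
`pos T - a_u = β (k+1) - t - ε ((c % Q) + n)`: use `L - 1 = (β-1) R - ε`, `R = ε β`,
`β (c/Q) - ε c = - ε (c % Q)`.  With `W = (c+n)/Q - c/Q`, `s = (c+n) % Q` this is
`β (k - W + 1) - t - ε s ≥ 1`; `W ≤ k` (if `n ≥ 1` the `(n-1)`-st child has local time `< k` and
`≥ (c+n-1)/Q - c/Q ≥ W - 1`).  So `pos T ≥ a_u`.  If `u+1` exists then `pos T < a_{u+1}`: if all
children of `u` are pushed before `T` write `T = Tr (u+1) - k''`, `k'' ≥ 1`, then (same computation)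
`pos T - a_{u+1} = β (1 - k'') - t' - ε q' < 0` because `t' ≥ 1` (`tau_res` for `u+1 ≥ 1`); if some
child is not yet pushed then `k < β` (`local_lt`) and
`pos T - a_u ≤ β (k+1) ≤ β β < L ≤ a_{u+1} - a_u`.

Then `Txt V L Y (pos T)` iff `V (pos T - a_u)` (blocks are disjoint, `len Y (tau w) = a_w`,
`Vf_lt` for offsets `≥ L`) iff (by `Vf_iff` with `t/lam = sl u`) there is `j < J`, `E (sl u) j`,
`j % Q = s`, `k - W = lam j + ε (sl u % Q)` iff (`scan_time`) some child has local time `k` iff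
`Y T = true`.

Halting: if `N U ≤ U` for the first time at `U` (so `N U = U`, `U ≥ 1`), then `cnt Y (R U) = U`
(all `tau w < R U`, no further tokens), `pos = β R U - ε U = len = R U + (L-1) U` as
`L - 1 + ε = (β-1) R`.  Not halting: every `T ≥ 1` has `pos T < len T`: if `cnt Y T ≥ u + 2` then
`len T ≥ a_{u+1} + L > pos T`; otherwise `cnt Y T = u + 1`, `n = 0`, `N u = u+1`, `u` has a child
(the token `u+1` exists), `k ≤ k_0 < β`, `pos T - a_u ≤ β (k+1) ≤ β β < L`, and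
`len T ≥ a_u + L`.
-/

namespace Pool.Agent.H28.PCP

open Classical in
/-- the run that follows the token system -/
noncomputable def Run.Y {J Q lam : ℕ} {E : ℕ → ℕ → Bool} (r : Run J Q lam E) (ε : ℕ) (T : ℕ) :
    Bool :=
  decide (∃ w, w < r.N w ∧ r.tau ε w = (T : ℤ))

section

variable {J Q lam : ℕ} {E : ℕ → ℕ → Bool} (r : Run J Q lam E) (ε : ℕ)

theorem Run.Y_iff (T : ℕ) : r.Y ε T = true ↔ ∃ w, w < r.N w ∧ r.tau ε w = (T : ℤ) := by
  simp [Run.Y]

theorem Run.tau_zero : r.tau ε 0 = 0 := by simp [Run.tau]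

theorem Run.ex_zero : 0 < r.N 0 := by rw [r.N0]; exact Nat.one_pos

/-- existence of tokens below `N u` -/
theorem Run.ex_of_lt_N {u w : ℕ} (hu : u < r.N u) (hw : w < r.N u) : w < r.N w := by
  rcases Nat.le_total w u with h | h
  · exact r.ex_down h hu
  · exact lt_of_lt_of_le hw (r.N_mono h)

/-- list of the children of `u` -/
abbrev Run.ch (u : ℕ) : List ℕ := outs J Q (E (r.sl u)) (r.N u - u)

theorem Run.N_succ {u : ℕ} (hu : u < r.N u) : r.N (u + 1) = r.N u + (r.ch u).length := r.next u hu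

/-- local time of the i-th child -/
def Run.lt (u i : ℕ) (h : i < (r.ch u).length) : ℕ :=
  lam * (r.ch u)[i] + ε * (r.sl u % Q) + ((r.N u - u + i) / Q - (r.N u - u) / Q)

variable (hQ : 2 ≤ Q) (hlam : 2 ≤ lam) (hJ : 1 ≤ J) (hε : (lam + 1) * J + 4 ≤ ε)

include hQ hlam hJ hε

theorem Run.Tr_mono {u v : ℕ} (h : u ≤ v) (hv : v < r.N v) : r.Tr ε u + (v - u : ℕ) ≤ r.Tr ε v := by
  induction v, h using Nat.le_induction with
  | base => simp
  | succ v huv ih =>
    have h1 := ih (r.ex_down (Nat.le_succ v) hv)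
    have h2 := r.Tr_succ hQ hlam hJ ε hε hv
    have h3 : ((v + 1 - u : ℕ) : ℤ) = ((v - u : ℕ) : ℤ) + 1 := by omega
    have h4 : (0 : ℤ) ≤ ((Q * ε : ℕ) : ℤ) := by positivity
    rw [h3]
    linarith

theorem Run.tau_nonneg {w : ℕ} (hw : w < r.N w) : 0 ≤ r.tau ε w := by
  rcases Nat.eq_zero_or_pos w with h | h
  · subst h; rw [r.tau_zero]
  · have := r.tau_lt hQ hlam hJ ε hε h hw
    rw [r.tau_zero] at this
    exact this.le

/-- a token is written during the reading of its parent -/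
theorem Run.tau_window {w : ℕ} (h1 : 1 ≤ w) (hw : w < r.N w) :
    r.Tr ε (r.par w) ≤ r.tau ε w ∧ r.tau ε w < r.Tr ε (r.par w) + ((Q * ε : ℕ) : ℤ) := by
  obtain ⟨h2, h3, h4⟩ := r.par_spec hw h1
  obtain ⟨h5, -, h6, -⟩ := r.par_eq h3 h4
  have h7 := r.tau_child hQ ε h5 h6
  have h8 := r.local_lt hQ hlam hJ ε hε (u := r.par w) h6
  have h9 : r.N (r.par w) + (w - r.N (r.par w)) = w := by omega
  rw [h9] at h7
  rw [h7]
  constructor
  · have : (0 : ℤ) ≤ ((lam * (outs J Q (E (r.sl (r.par w))) (r.N (r.par w) - r.par w))[w - r.N (r.par w)]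
      + ε * (r.sl (r.par w) % Q) + ((r.N (r.par w) - r.par w + (w - r.N (r.par w))) / Q -
        (r.N (r.par w) - r.par w) / Q) : ℕ) : ℤ) := by positivity
    linarith
  · have := Int.ofNat_lt.2 h8
    simp only [Int.natCast_add, Int.natCast_mul] at this ⊢
    linarith

/-- cnt at the write time of block `w` -/
theorem Run.cnt_tau {w T : ℕ} (hw : w < r.N w) (hT : r.tau ε w = (T : ℤ)) :
    cnt (r.Y ε) T = w := by
  refine cnt_eq (r.tau ε) (fun w => w < r.N w) (fun v w hvw hw => r.ex_down hvw hw)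
    (fun w hw => r.tau_nonneg ε hQ hlam hJ hε hw)
    (fun v w hvw hw => r.tau_lt hQ hlam hJ ε hε hvw hw) (r.Y ε) (r.Y_iff ε) T w ?_ ?_
  · intro v hv
    refine ⟨r.ex_down hv.le hw, ?_⟩
    rw [← hT]
    exact r.tau_lt hQ hlam hJ ε hε hv hw
  · intro _
    exact hT.ge

/-- local times are increasing -/
theorem Run.lt_lt {u i i' : ℕ} (hu : u < r.N u) (hii : i < i') (hi : i' < (r.ch u).length) :
    r.lt ε u i (hii.trans hi) < r.lt ε u i' hi := by
  have h1 := r.tau_child hQ ε hu (hii.trans hi)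
  have h2 := r.tau_child hQ ε hu hi
  have hN : r.N u + i' < r.N (u + 1) := by rw [r.N_succ hu]; exact Nat.add_lt_add_left hi _
  have hex : r.N u + i' < r.N (r.N u + i') :=
    lt_of_lt_of_le hN (r.N_mono (by omega))
  have h3 := r.tau_lt hQ hlam hJ ε hε (show r.N u + i < r.N u + i' by omega) hex
  rw [h1, h2] at h3
  exact Int.ofNat_lt.1 (by
    have h4 := sub_pos.2 h3
    rw [add_sub_add_left_eq_sub] at h4
    exact sub_pos.1 h4)

/-- number of children written before local time `k` -/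
theorem Run.exists_n {u : ℕ} (hu : u < r.N u) (k : ℕ) : ∃ n, n ≤ (r.ch u).length ∧
    (∀ i (h : i < (r.ch u).length), i < n → r.lt ε u i h < k) ∧
    (∀ i (h : i < (r.ch u).length), n ≤ i → k ≤ r.lt ε u i h) := by
  classical
  have hex : ∃ i, ¬ ∃ h : i < (r.ch u).length, r.lt ε u i h < k :=
    ⟨(r.ch u).length, fun ⟨h, _⟩ => lt_irrefl _ h⟩
  refine ⟨Nat.find hex, ?_, ?_, ?_⟩
  · apply Nat.find_min' hex
    rintro ⟨h, -⟩
    exact lt_irrefl _ h
  · intro i h hi
    have := Nat.find_min hex hi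
    push Not at this
    exact this.2
  · intro i h hi
    have h1 := Nat.find_spec hex
    have h2 : Nat.find hex < (r.ch u).length := lt_of_le_of_lt hi h
    have h3 : k ≤ r.lt ε u (Nat.find hex) h2 := by
      by_contra h4
      exact h1 ⟨h2, by omega⟩
    rcases Nat.eq_or_lt_of_le hi with h4 | h4
    · subst h4; exact h3
    · exact h3.trans (r.lt_lt ε hQ hlam hJ hε hu h4 h).le

/-- number of x-reads in a window -/
theorem Run.cnt_window {u T k n : ℕ} (hu : u < r.N u) (hT : (T : ℤ) = r.Tr ε u + k)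
    (hT2 : u + 1 < r.N (u + 1) → (T : ℤ) < r.Tr ε (u + 1)) (hn : n ≤ (r.ch u).length)
    (h1 : ∀ i (h : i < (r.ch u).length), i < n → r.lt ε u i h < k)
    (h2 : ∀ i (h : i < (r.ch u).length), n ≤ i → k ≤ r.lt ε u i h) :
    (∀ w < r.N u + n, w < r.N w ∧ r.tau ε w < (T : ℤ)) ∧ cnt (r.Y ε) T = r.N u + n := by
  have hTr0 : (1 : ℤ) ≤ r.Tr ε u := by
    have := r.Tr_mono ε hQ hlam hJ hε (Nat.zero_le u) hu
    rw [r.Tr_zero hQ] at this
    omega
  have hA : ∀ w < r.N u + n, w < r.N w ∧ r.tau ε w < (T : ℤ) := by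
    intro w hw
    by_cases hwN : w < r.N u
    · have hex := r.ex_of_lt_N hu hwN
      refine ⟨hex, ?_⟩
      rcases Nat.eq_zero_or_pos w with h0 | h0
      · subst h0
        rw [r.tau_zero]
        omega
      · obtain ⟨h3, h4, h5⟩ := r.par_spec hex h0
        have h6 : r.par w < u := by
          by_contra h7
          have := r.N_mono (show u ≤ r.par w by omega)
          omega
        have h7 := (r.tau_window ε hQ hlam hJ hε h0 hex).2
        have h8 : r.par w + 1 < r.N (r.par w + 1) := r.ex_down (by omega) hu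
        have h9 := r.Tr_succ hQ hlam hJ ε hε h8
        have h10 := r.Tr_mono ε hQ hlam hJ hε (show r.par w + 1 ≤ u by omega) hu
        omega
    · have h3 : w - r.N u < n := by omega
      have h4 : w - r.N u < (r.ch u).length := lt_of_lt_of_le h3 hn
      have h5 := r.tau_child hQ ε hu h4
      have h6 : r.N u + (w - r.N u) = w := by omega
      rw [h6] at h5
      have h7 := h1 _ h4 h3
      have hN : w < r.N (u + 1) := by rw [r.N_succ hu]; omega
      refine ⟨lt_of_lt_of_le hN (r.N_mono (by omega)), ?_⟩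
      rw [h5, hT]
      have h8 := Int.ofNat_lt.2 h7
      rw [Run.lt] at h8
      linarith
  refine ⟨hA, ?_⟩
  refine cnt_eq (r.tau ε) (fun w => w < r.N w) (fun v w hvw hw => r.ex_down hvw hw)
    (fun w hw => r.tau_nonneg ε hQ hlam hJ hε hw)
    (fun v w hvw hw => r.tau_lt hQ hlam hJ ε hε hvw hw) (r.Y ε) (r.Y_iff ε) T (r.N u + n) hA ?_
  intro hex
  by_cases hn2 : n < (r.ch u).length
  · have h5 := r.tau_child hQ ε hu hn2
    have h7 := Int.ofNat_le.2 (h2 n hn2 le_rfl)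
    rw [Run.lt] at h7
    rw [h5, hT]
    linarith
  · have hn3 : n = (r.ch u).length := by omega
    have hNu : r.N u + n = r.N (u + 1) := by rw [r.N_succ hu, hn3]
    rw [hNu] at hex ⊢
    have h1' : 1 ≤ r.N (u + 1) := by
      have := r.N_mono (Nat.zero_le (u + 1))
      rw [r.N0] at this
      exact this
    obtain ⟨h3, h4, h5⟩ := r.par_spec hex h1'
    have h6 : u + 1 ≤ r.par (r.N (u + 1)) := by
      by_contra h7
      have := r.N_mono (show r.par (r.N (u + 1)) + 1 ≤ u + 1 by omega)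
      omega
    have h7 : r.par (r.N (u + 1)) < r.N (r.par (r.N (u + 1))) := r.ex_down h3.le hex
    have h8 := (r.tau_window ε hQ hlam hJ hε h1' hex).1
    have h9 := r.Tr_mono ε hQ hlam hJ hε h6 h7
    have h10 := hT2 (r.ex_down h6 h7)
    omega

/-- every time `≥ 1` lies in a window -/
theorem Run.exists_window {T : ℕ} (hT : 1 ≤ T) : ∃ u k : ℕ, u < r.N u ∧
    (T : ℤ) = r.Tr ε u + k ∧ (u + 1 < r.N (u + 1) → (T : ℤ) < r.Tr ε (u + 1)) := by
  classical
  have hP0 : 0 < r.N 0 ∧ r.Tr ε 0 ≤ (T : ℤ) := ⟨r.ex_zero, by rw [r.Tr_zero hQ]; omega⟩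
  have h1 := Nat.findGreatest_spec (P := fun u => u < r.N u ∧ r.Tr ε u ≤ (T : ℤ))
    (Nat.zero_le T) hP0
  set u := Nat.findGreatest (fun u => u < r.N u ∧ r.Tr ε u ≤ (T : ℤ)) T with hu
  refine ⟨u, ((T : ℤ) - r.Tr ε u).toNat, h1.1, ?_, ?_⟩
  · rw [Int.toNat_of_nonneg (by linarith [h1.2])]
    ring
  · intro h2
    by_contra h3
    have h4 := r.Tr_mono ε hQ hlam hJ hε (Nat.zero_le (u + 1)) h2
    rw [r.Tr_zero hQ] at h4
    have h5 : u + 1 ≤ T := by omega
    have h6 := Nat.le_findGreatest (P := fun u => u < r.N u ∧ r.Tr ε u ≤ (T : ℤ)) h5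
      ⟨h2, by omega⟩
    omega

omit hQ hlam hJ hε in
theorem Run.par_le {u : ℕ} (hu : u < r.N u) : r.par u ≤ u := by
  rcases Nat.eq_zero_or_pos u with h | h
  · subst h; rw [r.par0]
  · exact (r.par_spec hu h).1.le

/-- position relative to the start of block `u` -/
theorem Run.offset {u T n : ℕ} {k t : ℤ} (hu : u < r.N u) (hT : (T : ℤ) = r.Tr ε u + k)
    (hc : cnt (r.Y ε) T = r.N u + n)
    (ht : r.tau ε u = ((ε * (Q * ε) : ℕ) : ℤ) * r.par u - ((Q * ε : ℕ) : ℤ) * r.dl (r.par u) + t) :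
    ((pos (Q * ε) ε (r.Y ε) T : ℕ) : ℤ) - (r.tau ε u + ((Lf Q ε : ℤ) - 1) * u) =
      ((Q * ε : ℕ) : ℤ) * (k + 1) - t - ε * ((((r.N u - u) % Q : ℕ) : ℤ) + n) := by
  have hε4 : 4 ≤ ε := by omega
  have h1 := pos_cnt (Q * ε) ε (by nlinarith) (r.Y ε) T
  rw [hc] at h1
  have h1' : ((pos (Q * ε) ε (r.Y ε) T : ℕ) : ℤ) + ε * ((r.N u : ℤ) + n) = (Q * ε) * (T : ℤ) := by
    exact_mod_cast h1
  have h2 := (Lf_spec Q ε hQ hε4).1
  have hβ1 : 1 ≤ Q * ε := by nlinarith
  have h2' : (Lf Q ε : ℤ) + ε = ((Q * ε : ℤ) - 1) * (ε * (Q * ε)) + 1 := by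
    have := congrArg (fun n : ℕ => (n : ℤ)) h2
    push_cast [Nat.cast_sub hβ1] at this
    linarith
  have hpar := r.par_le hu
  obtain ⟨d, hd⟩ : ∃ d, u = r.par u + d := ⟨u - r.par u, by omega⟩
  have hd' : u - r.par u = d := by omega
  obtain ⟨c, hc'⟩ : ∃ c, r.N u = u + c := ⟨r.N u - u, by omega⟩
  have hc2 : r.N u - u = c := by omega
  have h4 : (c : ℤ) = Q * ((c / Q : ℕ) : ℤ) + ((c % Q : ℕ) : ℤ) := by
    exact_mod_cast (Nat.div_add_mod c Q).symm
  rw [Run.Tr, hd', hc2] at hT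
  rw [hc2]
  have h5 : (r.N u : ℤ) = u + c := by exact_mod_cast hc'
  have h6 : (r.par u : ℤ) = u - d := by
    have : (u : ℤ) = r.par u + d := by exact_mod_cast hd
    linarith
  rw [h6] at ht
  rw [ht]
  rw [h5] at h1'
  obtain ⟨x, hx⟩ : ∃ x, c / Q = x := ⟨_, rfl⟩
  obtain ⟨y, hy⟩ : ∃ y, c % Q = y := ⟨_, rfl⟩
  rw [hx] at hT h4
  rw [hy] at h4 ⊢
  push_cast at hT h2' ⊢
  rw [hT] at h1'
  have h7 : (Lf Q ε : ℤ) = ((Q * ε : ℤ) - 1) * (ε * (Q * ε)) + 1 - ε := by linarith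
  rw [h7]
  linear_combination h1' - (ε : ℤ) * h4

/-- position relative to the start of the block, in terms of the current level -/
theorem Run.offset' {u T k n : ℕ} (hu : u < r.N u) (hT : (T : ℤ) = r.Tr ε u + k)
    (hn : n ≤ (r.ch u).length) (hc : cnt (r.Y ε) T = r.N u + n)
    (h1 : ∀ i (h : i < (r.ch u).length), i < n → r.lt ε u i h < k) :
    ∃ k' t i : ℕ, k = k' + ((r.N u - u + n) / Q - (r.N u - u) / Q) ∧ t < ε ∧ t / lam = r.sl u ∧
      i + t + ε * ((r.N u - u + n) % Q) = Q * ε * (k' + 1) ∧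
      ((pos (Q * ε) ε (r.Y ε) T : ℕ) : ℤ) = r.tau ε u + ((Lf Q ε : ℤ) - 1) * u + i := by
  obtain ⟨z, hz, -, hz2⟩ := r.tau_res ε hlam hu
  have hoff := r.offset ε hQ hlam hJ hε hu hT hc hz2
  set c := r.N u - u with hcdef
  have hQ0 : 0 < Q := by omega
  have hsl := r.sl_lt hJ hu
  have htε : lam * r.sl u + z < ε := by
    have : lam * r.sl u + lam ≤ lam * J := by
      calc lam * r.sl u + lam = lam * (r.sl u + 1) := by ring
        _ ≤ lam * J := Nat.mul_le_mul_left _ hsl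
    nlinarith
  have hW : (c + n) / Q - c / Q ≤ k := by
    rcases Nat.eq_zero_or_pos n with h | h
    · subst h; simp
    · have h2 : n - 1 < (r.ch u).length := by omega
      have h3 := h1 (n - 1) h2 (by omega)
      rw [Run.lt, ← hcdef] at h3
      have h4 : (c + n) / Q ≤ (c + (n - 1)) / Q + 1 := by
        rw [← Nat.add_div_right _ hQ0]
        exact Nat.div_le_div_right (by omega)
      omega
  obtain ⟨k', hk'⟩ : ∃ k', k = k' + ((c + n) / Q - c / Q) := ⟨k - ((c + n) / Q - c / Q), by omega⟩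
  have hle : c / Q ≤ (c + n) / Q := Nat.div_le_div_right (by omega)
  have hd1 := Nat.div_add_mod c Q
  have hd2 := Nat.div_add_mod (c + n) Q
  have hs : (c + n) % Q < Q := Nat.mod_lt _ hQ0
  have hbig : lam * r.sl u + z + ε * ((c + n) % Q) < Q * ε * (k' + 1) := by
    have h3 : ε * ((c + n) % Q) ≤ ε * (Q - 1) := Nat.mul_le_mul_left _ (by omega)
    have h4 : ε * (Q - 1) + ε = Q * ε := by
      obtain ⟨Q', rfl⟩ : ∃ Q', Q = Q' + 1 := ⟨Q - 1, by omega⟩
      simp only [Nat.add_sub_cancel]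
      ring
    have h5 : Q * ε * 1 ≤ Q * ε * (k' + 1) := Nat.mul_le_mul_left _ (by omega)
    omega
  refine ⟨k', lam * r.sl u + z, Q * ε * (k' + 1) - (lam * r.sl u + z + ε * ((c + n) % Q)), hk',
    htε, ?_, by omega, ?_⟩
  · rw [Nat.mul_add_div (by omega), Nat.div_eq_of_lt hz, add_zero]
  · have h6 : ((Q * ε * (k' + 1) - (lam * r.sl u + z + ε * ((c + n) % Q)) : ℕ) : ℤ) =
        (Q * ε : ℤ) * (k' + 1) - ((lam * r.sl u + z : ℕ) : ℤ) - ε * (((c + n) % Q : ℕ) : ℤ) := by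
      rw [Nat.cast_sub hbig.le]
      push_cast
      ring
    rw [h6]
    have h7 : (k : ℤ) = k' + ((((c + n) / Q : ℕ) : ℤ) - ((c / Q : ℕ) : ℤ)) := by
      rw [← Nat.cast_sub hle]
      exact_mod_cast hk'
    have h8 : (c : ℤ) = Q * ((c / Q : ℕ) : ℤ) + ((c % Q : ℕ) : ℤ) := by exact_mod_cast hd1.symm
    have h9 : (c : ℤ) + n = Q * (((c + n) / Q : ℕ) : ℤ) + (((c + n) % Q : ℕ) : ℤ) := by
      exact_mod_cast hd2.symm
    obtain ⟨x, hx⟩ : ∃ x, c / Q = x := ⟨_, rfl⟩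
    obtain ⟨y, hy⟩ : ∃ y, c % Q = y := ⟨_, rfl⟩
    obtain ⟨x', hx'⟩ : ∃ x, (c + n) / Q = x := ⟨_, rfl⟩
    obtain ⟨y', hy'⟩ : ∃ y, (c + n) % Q = y := ⟨_, rfl⟩
    rw [hx, hx'] at h7
    rw [hx, hy] at h8
    rw [hx', hy'] at h9
    rw [hy] at hoff
    rw [hy']
    push_cast at hoff ⊢
    linear_combination hoff + (Q : ℤ) * ε * h7 + (ε : ℤ) * h8 - (ε : ℤ) * h9

theorem Lf_big : (Q * ε) * (Q * ε) < Lf Q ε ∧ 1 ≤ Lf Q ε := by
  have h := (Lf_spec Q ε hQ (by omega)).2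
  have h1 : 0 < Q * ε := Nat.mul_pos (by omega) (by omega)
  have h2 : Q * ε * (Q * ε + 1) = Q * ε * (Q * ε) + Q * ε := by ring
  omega

/-- starts of blocks -/
theorem Run.starts {v w : ℕ} (hvw : v < w) (hw : w < r.N w) :
    r.tau ε v + ((Lf Q ε : ℤ) - 1) * v + Lf Q ε ≤ r.tau ε w + ((Lf Q ε : ℤ) - 1) * w := by
  have h1 := r.tau_lt hQ hlam hJ ε hε hvw hw
  have h2 := (Lf_big ε hQ hlam hJ hε).2
  have h3 : (1 : ℤ) ≤ Lf Q ε := by exact_mod_cast h2
  have h4 : (v : ℤ) + 1 ≤ w := by exact_mod_cast hvw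
  have h5 : ((Lf Q ε : ℤ) - 1) * (v + 1) ≤ ((Lf Q ε : ℤ) - 1) * w :=
    mul_le_mul_of_nonneg_left h4 (by linarith)
  linarith

theorem Run.len_tau {w T : ℕ} (hw : w < r.N w) (hT : r.tau ε w = (T : ℤ)) :
    ((len (Lf Q ε) (r.Y ε) T : ℕ) : ℤ) = r.tau ε w + ((Lf Q ε : ℤ) - 1) * w := by
  have h1 := (Lf_big ε hQ hlam hJ hε).2
  rw [len_cnt _ h1, r.cnt_tau ε hQ hlam hJ hε hw hT, hT]
  push_cast [Nat.cast_sub h1]
  ring

/-- in a window with a child still to be written the position is close to the start of block `u` -/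
theorem Run.near {u T k n : ℕ} (hu : u < r.N u) (hT : (T : ℤ) = r.Tr ε u + k)
    (hn : n < (r.ch u).length) (hc : cnt (r.Y ε) T = r.N u + n)
    (h1 : ∀ i (h : i < (r.ch u).length), i < n → r.lt ε u i h < k)
    (h2 : ∀ i (h : i < (r.ch u).length), n ≤ i → k ≤ r.lt ε u i h) :
    ((pos (Q * ε) ε (r.Y ε) T : ℕ) : ℤ) <
      r.tau ε u + ((Lf Q ε : ℤ) - 1) * u + Lf Q ε := by
  obtain ⟨k', t, i, hk', -, -, hi, hpos⟩ := r.offset' ε hQ hlam hJ hε hu hT hn.le hc h1
  have h3 := h2 n hn le_rfl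
  have h4 := r.local_lt hQ hlam hJ ε hε (u := u) hn
  have h5 : k < Q * ε := lt_of_le_of_lt h3 h4
  have h6 := (Lf_big ε hQ hlam hJ hε).1
  have h7 : Q * ε * (k' + 1) ≤ Q * ε * (Q * ε) := Nat.mul_le_mul_left _ (by omega)
  have h8 : i < Lf Q ε := by omega
  rw [hpos]
  have : (i : ℤ) < Lf Q ε := by exact_mod_cast h8
  linarith

theorem Run.lt_next {u T k n : ℕ} (hu : u < r.N u) (hT : (T : ℤ) = r.Tr ε u + k)
    (hu1 : u + 1 < r.N (u + 1)) (hT2 : (T : ℤ) < r.Tr ε (u + 1))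
    (hn : n ≤ (r.ch u).length) (hc : cnt (r.Y ε) T = r.N u + n)
    (h1 : ∀ i (h : i < (r.ch u).length), i < n → r.lt ε u i h < k)
    (h2 : ∀ i (h : i < (r.ch u).length), n ≤ i → k ≤ r.lt ε u i h) :
    ((pos (Q * ε) ε (r.Y ε) T : ℕ) : ℤ) <
      r.tau ε (u + 1) + ((Lf Q ε : ℤ) - 1) * ((u + 1 : ℕ) : ℤ) := by
  rcases Nat.lt_or_eq_of_le hn with hn' | hn'
  · exact (r.near ε hQ hlam hJ hε hu hT hn' hc h1 h2).trans_le
      (r.starts ε hQ hlam hJ hε (Nat.lt_succ_self u) hu1)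
  · obtain ⟨z, hz, hz1, hz2⟩ := r.tau_res ε hlam hu1
    have hc' : cnt (r.Y ε) T = r.N (u + 1) + 0 := by rw [hc, r.N_succ hu, hn', add_zero]
    have hoff := r.offset ε hQ hlam hJ hε (k := (T : ℤ) - r.Tr ε (u + 1)) hu1 (by ring) hc' hz2
    have h3 := hz1 (by omega)
    have h4 : (1 : ℤ) ≤ ((lam * r.sl (u + 1) + z : ℕ) : ℤ) := by
      have : 1 ≤ lam * r.sl (u + 1) + z := by omega
      exact_mod_cast this
    have h5 : ((Q * ε : ℕ) : ℤ) * ((T : ℤ) - r.Tr ε (u + 1) + 1) ≤ 0 :=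
      mul_nonpos_of_nonneg_of_nonpos (by positivity) (by linarith)
    have h6 : (0 : ℤ) ≤ (ε : ℤ) * ((((r.N (u + 1) - (u + 1)) % Q : ℕ) : ℤ) + ((0 : ℕ) : ℤ)) := by
      positivity
    linarith

/-- the letter read in a window -/
theorem Run.txt_iff {T : ℕ} (hT1 : 1 ≤ T) :
    r.Y ε T = true ↔ Txt (Vf J Q lam ε E) (Lf Q ε) (r.Y ε) (pos (Q * ε) ε (r.Y ε) T) := by
  obtain ⟨u, k, hu, hT, hT2⟩ := r.exists_window ε hQ hlam hJ hε hT1
  obtain ⟨n, hn, h1, h2⟩ := r.exists_n ε hQ hlam hJ hε hu k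
  obtain ⟨hA, hc⟩ := r.cnt_window ε hQ hlam hJ hε hu hT hT2 hn h1 h2
  obtain ⟨k', t, i, hk', htε, htl, hi, hpos⟩ := r.offset' ε hQ hlam hJ hε hu hT hn hc h1
  have hQ0 : 0 < Q := by omega
  obtain ⟨hLb, hL1⟩ := Lf_big ε hQ hlam hJ hε
  -- the text
  have htxt : Txt (Vf J Q lam ε E) (Lf Q ε) (r.Y ε) (pos (Q * ε) ε (r.Y ε) T) ↔
      Vf J Q lam ε E i = true := by
    constructor
    · rintro ⟨T', hT', hle, hlt, hV⟩
      obtain ⟨w, hw, hwT⟩ := (r.Y_iff ε T').1 hT'
      have hlen := r.len_tau ε hQ hlam hJ hε hw hwT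
      have hwu : w = u := by
        rcases Nat.lt_trichotomy w u with h | h | h
        · exfalso
          have h3 := r.starts ε hQ hlam hJ hε h hu
          have h4 : ((pos (Q * ε) ε (r.Y ε) T : ℕ) : ℤ) <
              ((len (Lf Q ε) (r.Y ε) T' : ℕ) : ℤ) + Lf Q ε := by exact_mod_cast hlt
          rw [hlen, hpos] at h4
          have : (0 : ℤ) ≤ i := by positivity
          linarith
        · exact h
        · exfalso
          have hu1 : u + 1 < r.N (u + 1) := r.ex_down h hw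
          have h3 := r.lt_next ε hQ hlam hJ hε hu hT hu1 (hT2 hu1) hn hc h1 h2
          have h4 : ((len (Lf Q ε) (r.Y ε) T' : ℕ) : ℤ) ≤
              ((pos (Q * ε) ε (r.Y ε) T : ℕ) : ℤ) := by exact_mod_cast hle
          rw [hlen] at h4
          rcases Nat.eq_or_lt_of_le h with h5 | h5
          · rw [← h5] at h4
            push_cast at h3 h4
            linarith
          · have h6 := r.starts ε hQ hlam hJ hε h5 hw
            have h7 : (0 : ℤ) ≤ Lf Q ε := by positivity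
            push_cast at h3 h4 h6
            linarith
      subst hwu
      have h3 : pos (Q * ε) ε (r.Y ε) T - len (Lf Q ε) (r.Y ε) T' = i := by
        have : ((pos (Q * ε) ε (r.Y ε) T : ℕ) : ℤ) =
            ((len (Lf Q ε) (r.Y ε) T' : ℕ) : ℤ) + i := by rw [hlen, hpos]
        omega
      rw [h3] at hV
      exact hV
    · intro hV
      have h3 := Vf_lt J Q lam ε E hQ hε i hV
      have h4 := r.tau_nonneg ε hQ hlam hJ hε hu
      have hwT : r.tau ε u = ((r.tau ε u).toNat : ℤ) := (Int.toNat_of_nonneg h4).symm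
      have hlen := r.len_tau ε hQ hlam hJ hε hu hwT
      have h5 : pos (Q * ε) ε (r.Y ε) T = len (Lf Q ε) (r.Y ε) (r.tau ε u).toNat + i := by
        have : ((pos (Q * ε) ε (r.Y ε) T : ℕ) : ℤ) =
            ((len (Lf Q ε) (r.Y ε) (r.tau ε u).toNat : ℕ) : ℤ) + i := by rw [hlen, hpos]
        omega
      refine ⟨(r.tau ε u).toNat, (r.Y_iff ε _).2 ⟨u, hu, hwT⟩, by omega, by omega, ?_⟩
      rw [h5, Nat.add_sub_cancel_left]
      exact hV
  rw [htxt, Vf_iff J Q lam ε E hQ i t _ k' htε (Nat.mod_lt _ hQ0) hi, htl]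
  have hst := scan_time J Q lam (E (r.sl u)) (r.N u - u) (ε * (r.sl u % Q)) k n hQ hlam hn
    h1 h2
  have hst2 : (∃ j < J, E (r.sl u) j = true ∧ j % Q = (r.N u - u + n) % Q ∧
      k = lam * j + ε * (r.sl u % Q) + ((r.N u - u + n) / Q - (r.N u - u) / Q)) ↔
      ∃ j < J, E (r.sl u) j = true ∧ j % Q = (r.N u - u + n) % Q ∧
        k' = lam * j + ε * (r.sl u % Q) := by
    refine exists_congr fun j => and_congr_right fun _ => and_congr_right fun _ =>
      and_congr_right fun _ => ?_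
    constructor <;> intro h <;> omega
  rw [← hst2, ← hst, r.Y_iff]
  constructor
  · rintro ⟨w, hw, hwT⟩
    have hw1 : 1 ≤ w := by
      rcases Nat.eq_zero_or_pos w with h | h
      · subst h
        rw [r.tau_zero] at hwT
        omega
      · exact h
    obtain ⟨h3, h4⟩ := r.tau_window ε hQ hlam hJ hε hw1 hw
    obtain ⟨h5, h6, h7⟩ := r.par_spec hw hw1
    have hpe := r.ex_down h5.le hw
    have hpar : r.par w = u := by
      rcases Nat.lt_trichotomy (r.par w) u with h | h | h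
      · exfalso
        have h8 : r.par w + 1 < r.N (r.par w + 1) := r.ex_down h hu
        have h9 := r.Tr_succ hQ hlam hJ ε hε h8
        have h10 := r.Tr_mono ε hQ hlam hJ hε h hu
        have h11 : (0 : ℤ) ≤ k := by positivity
        simp only [Nat.succ_eq_add_one] at h10
        omega
      · exact h
      · exfalso
        have hu1 : u + 1 < r.N (u + 1) := r.ex_down h hpe
        have h8 := r.Tr_mono ε hQ hlam hJ hε (show u + 1 ≤ r.par w from h) hpe
        have h9 := hT2 hu1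
        omega
    rw [hpar] at h6 h7
    obtain ⟨-, -, h8, -⟩ := r.par_eq h6 h7
    refine ⟨w - r.N u, h8, ?_⟩
    have h9 := r.tau_child hQ ε hu h8
    have h10 : r.N u + (w - r.N u) = w := by omega
    rw [h10, hwT, hT] at h9
    have h11 := add_left_cancel h9
    exact_mod_cast h11.symm
  · rintro ⟨j, hj, hjk⟩
    have h9 := r.tau_child hQ ε hu hj
    rw [hjk] at h9
    refine ⟨r.N u + j, ?_, by rw [h9, hT]⟩
    have h10 : r.N u + j < r.N (u + 1) := by rw [r.N_succ hu]; exact Nat.add_lt_add_left hj _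
    exact lt_of_lt_of_le h10 (r.N_mono (by omega))

/-- a run that never halts has `pos < len` at all times `≥ 1` -/
theorem Run.pos_lt_len (hinf : ∀ u, u < r.N u) {T : ℕ} (hT1 : 1 ≤ T) :
    pos (Q * ε) ε (r.Y ε) T < len (Lf Q ε) (r.Y ε) T := by
  obtain ⟨u, k, hu, hT, hT2⟩ := r.exists_window ε hQ hlam hJ hε hT1
  obtain ⟨n, hn, h1, h2⟩ := r.exists_n ε hQ hlam hJ hε hu k
  obtain ⟨hA, hc⟩ := r.cnt_window ε hQ hlam hJ hε hu hT hT2 hn h1 h2
  obtain ⟨hLb, hL1⟩ := Lf_big ε hQ hlam hJ hε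
  have hlen : ((len (Lf Q ε) (r.Y ε) T : ℕ) : ℤ) =
      T + ((Lf Q ε : ℤ) - 1) * ((r.N u + n : ℕ) : ℤ) := by
    rw [len_cnt _ hL1, hc]
    push_cast [Nat.cast_sub hL1]
    ring
  have hL1' : (0 : ℤ) ≤ (Lf Q ε : ℤ) - 1 := by
    have : (1 : ℤ) ≤ Lf Q ε := by exact_mod_cast hL1
    linarith
  have hu1 := hinf (u + 1)
  have key : ((pos (Q * ε) ε (r.Y ε) T : ℕ) : ℤ) < ((len (Lf Q ε) (r.Y ε) T : ℕ) : ℤ) := by
    by_cases h3 : u + 2 ≤ r.N u + n
    · have h4 := r.lt_next ε hQ hlam hJ hε hu hT hu1 (hT2 hu1) hn hc h1 h2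
      have h5 := (hA (u + 1) (by omega)).2
      have h6 : ((Lf Q ε : ℤ) - 1) * ((u + 2 : ℕ) : ℤ) ≤
          ((Lf Q ε : ℤ) - 1) * ((r.N u + n : ℕ) : ℤ) :=
        mul_le_mul_of_nonneg_left (by exact_mod_cast h3) hL1'
      rw [hlen]
      push_cast at h4 h6 ⊢
      linarith
    · have h4 : r.N u = u + 1 := by omega
      have h5 : n = 0 := by omega
      subst h5
      have h6 : 0 < (r.ch u).length := by
        have := r.N_succ hu
        omega
      have h7 := r.near ε hQ hlam hJ hε hu hT h6 hc h1 h2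
      have h8 := (hA u (by omega)).2
      have h9 : ((r.N u + 0 : ℕ) : ℤ) = (u : ℤ) + 1 := by rw [h4]; push_cast; ring
      rw [hlen, h9]
      linarith
  exact_mod_cast key

end

/-- **Main statement of part L.** -/
theorem pcp_of_run (J Q lam ε : ℕ) (E : ℕ → ℕ → Bool) (hQ : 2 ≤ Q) (hlam : 2 ≤ lam) (hJ : 1 ≤ J)
    (hε : (lam + 1) * J + 4 ≤ ε) (r : Run J Q lam E) :
    ∃ Y : ℕ → Bool, Y 0 = true ∧
      (∀ T, 1 ≤ T → (Y T = true ↔ Txt (Vf J Q lam ε E) (Lf Q ε) Y (pos (Q * ε) ε Y T))) ∧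
      ((∃ T, 1 ≤ T ∧ pos (Q * ε) ε Y T = len (Lf Q ε) Y T) ↔ ∃ u, r.N u ≤ u) := by
  refine ⟨r.Y ε, ?_, fun T hT => r.txt_iff ε hQ hlam hJ hε hT, ?_⟩
  · rw [r.Y_iff]
    exact ⟨0, r.ex_zero, by rw [r.tau_zero]; rfl⟩
  constructor
  · rintro ⟨T, hT, hpl⟩
    by_contra hcon
    push Not at hcon
    exact (r.pos_lt_len ε hQ hlam hJ hε hcon hT).ne hpl
  · intro hex
    classical
    obtain ⟨hLb, hL1⟩ := Lf_big ε hQ hlam hJ hε
    have hU := Nat.find_spec hex
    have hUmin : ∀ v, v < Nat.find hex → v < r.N v := fun v hv => by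
      have := Nat.find_min hex hv
      omega
    set U := Nat.find hex with hUdef
    have hU1 : 1 ≤ U := by
      rcases Nat.eq_zero_or_pos U with h | h
      · rw [h, r.N0] at hU
        omega
      · exact h
    have hε4 : 4 ≤ ε := by omega
    have hRU : 1 ≤ ε * (Q * ε) := Nat.mul_pos (by omega) (Nat.mul_pos (by omega) (by omega))
    have hcnt : cnt (r.Y ε) (ε * (Q * ε) * U) = U := by
      refine cnt_eq (r.tau ε) (fun w => w < r.N w) (fun v w hvw hw => r.ex_down hvw hw)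
        (fun w hw => r.tau_nonneg ε hQ hlam hJ hε hw)
        (fun v w hvw hw => r.tau_lt hQ hlam hJ ε hε hvw hw) (r.Y ε) (r.Y_iff ε) _ U ?_ ?_
      · intro w hw
        refine ⟨hUmin w hw, ?_⟩
        obtain ⟨z, hz, -, hz2⟩ := r.tau_res ε hlam (hUmin w hw)
        have hsl := r.sl_lt hJ (hUmin w hw)
        have htε : lam * r.sl w + z < ε := by
          have : lam * r.sl w + lam ≤ lam * J := by
            calc lam * r.sl w + lam = lam * (r.sl w + 1) := by ring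
              _ ≤ lam * J := Nat.mul_le_mul_left _ hsl
          nlinarith
        have hεR : ε ≤ ε * (Q * ε) := Nat.le_mul_of_pos_right _ (Nat.mul_pos (by omega) (by omega))
        rcases Nat.eq_zero_or_pos w with h | h
        · subst h
          rw [r.tau_zero]
          have : 0 < ε * (Q * ε) * U := Nat.mul_pos hRU hU1
          exact_mod_cast this
        · have hpar := (r.par_spec (hUmin w hw) h).1
          have h3 : ε * (Q * ε) * r.par w + ε * (Q * ε) ≤ ε * (Q * ε) * U := by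
            calc ε * (Q * ε) * r.par w + ε * (Q * ε) = ε * (Q * ε) * (r.par w + 1) := by ring
              _ ≤ ε * (Q * ε) * U := Nat.mul_le_mul_left _ (by omega)
          have h4 : (0 : ℤ) ≤ ((Q * ε : ℕ) : ℤ) * r.dl (r.par w) := by positivity
          have h5 : ((ε * (Q * ε) : ℕ) : ℤ) * r.par w + ((lam * r.sl w + z : ℕ) : ℤ) <
              ((ε * (Q * ε) * U : ℕ) : ℤ) := by
            have : ε * (Q * ε) * r.par w + (lam * r.sl w + z) < ε * (Q * ε) * U := by omega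
            exact_mod_cast this
          rw [hz2]
          linarith
      · intro h
        exact absurd h (by omega)
    refine ⟨ε * (Q * ε) * U, Nat.mul_pos hRU hU1, ?_⟩
    have hβε : ε ≤ Q * ε := Nat.le_mul_of_pos_left _ (by omega)
    have h1 := pos_cnt (Q * ε) ε hβε (r.Y ε) (ε * (Q * ε) * U)
    have h2 := len_cnt (Lf Q ε) hL1 (r.Y ε) (ε * (Q * ε) * U)
    rw [hcnt] at h1 h2
    have h3 := (Lf_spec Q ε hQ hε4).1
    have hβ1 : 1 ≤ Q * ε := by omega
    have h3' : (Lf Q ε : ℤ) + ε = ((Q * ε : ℤ) - 1) * (ε * (Q * ε)) + 1 := by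
      have := congrArg (fun n : ℕ => (n : ℤ)) h3
      push_cast [Nat.cast_sub hβ1] at this
      linarith
    have h1' : ((pos (Q * ε) ε (r.Y ε) (ε * (Q * ε) * U) : ℕ) : ℤ) + ε * U =
        Q * ε * (ε * (Q * ε) * U) := by exact_mod_cast h1
    have h2' : ((len (Lf Q ε) (r.Y ε) (ε * (Q * ε) * U) : ℕ) : ℤ) =
        ε * (Q * ε) * U + ((Lf Q ε : ℤ) - 1) * U := by
      rw [h2]
      push_cast [Nat.cast_sub hL1]
      ring
    have : ((pos (Q * ε) ε (r.Y ε) (ε * (Q * ε) * U) : ℕ) : ℤ) =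
        ((len (Lf Q ε) (r.Y ε) (ε * (Q * ε) * U) : ℕ) : ℤ) := by
      rw [h2']
      have h4 : (Lf Q ε : ℤ) = ((Q * ε : ℤ) - 1) * (ε * (Q * ε)) + 1 - ε := by linarith
      rw [h4]
      linear_combination h1'
    exact_mod_cast this

end Pool.Agent.H28.PCP
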