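import Mathlib
import Pool.Agent.H28.PCP.Basic

set_option autoImplicit false

/-!
# Module PA: parsing a solution of the four pairs

Pairs (G,H): `0 = (<V> minus its last β-ε-1 symbols (they are all 2), <x>)`, `1 = ([2],<x>)`,
`2 = ([1],<y>)`, `3 = ([2],<y>)` where `<x> = cd β true = 0 2^(β-1)`, `<y> = cd β false = 1 2^(β-1)`.

(→) Let `w ≠ []` with `G(w) = H(w)`.  `H(w) = S'.flatMap (cd β)` with `S'` the list of letters of
`w` (`0,1 ↦ true`, `2,3 ↦ false`), and `|S'| = |w|`.  Lemma (strong induction on the length of `w`):
if `G(w) = S'.flatMap (cd β)` for some list `S'` then there is `z : List Bool` and `w` is the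
concatenation over `b ∈ z` of blocks `[pair b] ++ skips` where `pair true = 0`, `pair false = 2`,
`skips` is a list of `dlt b - 1` pairs from `{1,3}`, and `S' = z.flatMap rr`.  Proof: if `w = []`
fine.  Else `S' ≠ []`, `G(w)` starts with 0 or 1, so the first pair is 0 or 2 (pairs 1, 3 give 2).
If it is 2: `S' = false :: S''`, the rest of `G` is `2^(β-1) ++ code(S'')`, so the next `β-1` pairs
give a 2 each (their words do not start with 0, 1), then induction.  If it is 0: the prefix
`<V>` minus `β-ε-1` symbols, longer than `(L-1)β`, determines the first `L` letters of `S'`: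
`S' = vl V L ++ S''`, the rest of `G` is `2^(β-ε-1) ++ code(S'')`.
Now `H(w) = G(w)` gives `S' = z.flatMap rr` = letters of `w`, `|w| = (z.map dlt).sum`, and the
letter of the first pair of the i-th block, at position `((z.take i).map dlt).sum` of `w`, is `z[i]`.

(←) Given `z`, let `S = z.flatMap rr`; build `w` block by block: `w` has length `|S|`; at position
`p` the pair is active (`0` if `S[p]`, else `2`) if `p = ((z.take i).map dlt).sum` for some
`i < z.length`, otherwise it is a skip pair (`1` if `S[p]`, else `3`).  `H(w) = code(S)` and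
`G(w) = ∏ (G(active) ++ 2^(dlt-1)) = ∏ code(rr z_i) = code(S)`.
-/

namespace Pool.Agent.H28.PCP

/-- output of a letter -/
def rr (V : ℕ → Bool) (L : ℕ) : Bool → List Bool
  | true => vl V L
  | false => [false]

/-- number of letters deleted -/
def dlt (β ε : ℕ) : Bool → ℕ
  | true => β - ε
  | false => β

/-- the letter coded by the second word of a pair -/
private def ltr : Fin 4 → Bool := ![true, true, false, false]

/-- first symbol of the code of a letter -/
private def cb (b : Bool) : ℕ := if b then 0 else 1

private theorem cb_ne (b : Bool) : cb b ≠ 2 := by cases b <;> decide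

private theorem cb_inj {b c : Bool} (h : cb b = cb c) : b = c := by
  revert h
  cases b <;> cases c <;> decide

private theorem snd_eq (V : ℕ → Bool) (L β ε : ℕ) (i : Fin 4) :
    (inst V L β ε i).2 = cd β (ltr i) := by
  fin_cases i <;> rfl

private theorem cd_length {β : ℕ} (hβ : 1 ≤ β) (b : Bool) : (cd β b).length = β := by
  simp only [cd, List.length_cons, List.length_replicate]
  omega

private theorem code_length {β : ℕ} (hβ : 1 ≤ β) (T : List Bool) :
    (T.flatMap (cd β)).length = T.length * β := by
  induction T with
  | nil => simp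
  | cons t T ih =>
    rw [List.flatMap_cons, List.length_append, ih, cd_length hβ, List.length_cons, Nat.succ_mul]
    omega

private theorem code_cons (β : ℕ) (t : Bool) (T : List Bool) :
    (t :: T).flatMap (cd β) = cb t :: (List.replicate (β - 1) 2 ++ T.flatMap (cd β)) := by
  rw [List.flatMap_cons, cd, List.cons_append]
  rfl

private theorem code_split {β d : ℕ} (hd : d + 1 ≤ β) {T : List Bool} (hT : T ≠ []) :
    ∃ A, A ≠ [] ∧ T.flatMap (cd β) = A ++ List.replicate d 2 ∧
      (T.flatMap (cd β)).take (T.length * β - d) = A := by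
  have hβ : 1 ≤ β := by omega
  have hlen := code_length hβ T
  obtain ⟨U, u, hU⟩ : ∃ U u, T = U ++ [u] :=
    ⟨T.dropLast, T.getLast hT, (List.dropLast_append_getLast _).symm⟩
  have h1 : cd β u = (cb u :: List.replicate (β - 1 - d) 2) ++ List.replicate d 2 := by
    rw [cd, List.cons_append, List.replicate_append_replicate]
    show _ = cb u :: _
    congr 2
    omega
  have h2 : T.flatMap (cd β) = (U.flatMap (cd β) ++
      (cb u :: List.replicate (β - 1 - d) 2)) ++ List.replicate d 2 := by
    rw [hU, List.flatMap_append, List.flatMap_singleton, h1, List.append_assoc]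
  refine ⟨_, by simp, h2, ?_⟩
  have h4 : (T.flatMap (cd β)).length = (U.flatMap (cd β) ++
    (cb u :: List.replicate (β - 1 - d) 2)).length + d := by
    rw [h2, List.length_append, List.length_replicate]
  rw [h2]
  apply List.take_left'
  omega

/-- a word which is the code of `T` without the last `d` symbols determines `T` -/
private theorem code_prefix {β d : ℕ} (hd : d + 1 ≤ β) : ∀ (T S : List Bool) (A X : List ℕ),
    T ≠ [] → T.flatMap (cd β) = A ++ List.replicate d 2 → A ++ X = S.flatMap (cd β) →
    ∃ S'', S = T ++ S'' ∧ X = List.replicate d 2 ++ S''.flatMap (cd β) := by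
  intro T
  induction T with
  | nil => intro S A X h; exact absurd rfl h
  | cons t T ih =>
    intro S A X _ h1 h2
    have hβ : 1 ≤ β := by omega
    have hl := code_length hβ (t :: T)
    have hl1 := congrArg List.length h1
    rw [hl, List.length_append, List.length_replicate, List.length_cons, Nat.succ_mul] at hl1
    obtain ⟨a, A', rfl⟩ : ∃ a A', A = a :: A' := by
      cases A with
      | nil => simp only [List.length_nil] at hl1; omega
      | cons a A' => exact ⟨a, A', rfl⟩
    rcases S with _ | ⟨s, S⟩
    · simp at h2
    rw [code_cons] at h1 h2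
    rw [List.cons_append, List.cons.injEq] at h1 h2
    obtain ⟨h3, h4⟩ := h1
    obtain ⟨h5, h6⟩ := h2
    have hst : t = s := cb_inj (h3.trans h5)
    subst hst
    rw [List.length_cons] at hl1
    rcases eq_or_ne T [] with rfl | hT
    · simp only [List.flatMap_nil, List.append_nil] at h4
      refine ⟨S, rfl, ?_⟩
      simp only [List.length_nil, zero_mul] at hl1
      have h7 : A' = List.replicate (β - 1 - d) 2 := by
        rw [List.eq_replicate_iff]
        refine ⟨by omega, fun b hb => ?_⟩
        have h8 : b ∈ List.replicate (β - 1) 2 := by rw [h4]; exact List.mem_append_left _ hb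
        exact List.eq_of_mem_replicate h8
      rw [h7] at h6
      have h9 : List.replicate (β - 1) 2 = List.replicate (β - 1 - d) 2 ++ List.replicate d 2 := by
        rw [List.replicate_append_replicate]
        congr 1
        omega
      rw [h9, List.append_assoc] at h6
      exact List.append_cancel_left h6
    · have hTl : 1 ≤ T.length := List.length_pos_iff.2 hT
      have hTl2 : β ≤ T.length * β := Nat.le_mul_of_pos_left β hTl
      rcases List.append_eq_append_iff.1 h4 with ⟨c, h7, h8⟩ | ⟨c, h7, h8⟩
      · rw [h7, List.append_assoc] at h6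
        obtain ⟨S'', h9, h10⟩ := ih S c X hT h8 (List.append_cancel_left h6)
        exact ⟨S'', by rw [h9]; rfl, h10⟩
      · exfalso
        have h9 := congrArg List.length h7
        rw [List.length_replicate, List.length_append] at h9
        omega

private theorem g0_spec (V : ℕ → Bool) {L β ε : ℕ} (hε : ε < β) (hL : 1 ≤ L) :
    (inst V L β ε 0).1 ≠ [] ∧
      (vl V L).flatMap (cd β) = (inst V L β ε 0).1 ++ List.replicate (β - ε - 1) 2 := by
  have hlen : (vl V L).length = L := by simp [vl]
  have hne : vl V L ≠ [] := by
    rw [← List.length_pos_iff, hlen]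
    exact hL
  obtain ⟨A, h1, h2, h3⟩ := code_split (β := β) (d := β - ε - 1) (by omega) hne
  rw [hlen] at h3
  have h4 : (inst V L β ε 0).1 = A := h3
  rw [h4]
  exact ⟨h1, h2⟩

private theorem g0_head (V : ℕ → Bool) {L β ε : ℕ} (hε : ε < β) (hL : 1 ≤ L) :
    ∃ b A, (inst V L β ε 0).1 = cb b :: A := by
  obtain ⟨h1, h2⟩ := g0_spec V hε hL
  obtain ⟨a, A, h3⟩ := List.exists_cons_of_ne_nil h1
  rw [h3] at h2 ⊢
  have hlen : (vl V L).length = L := by simp [vl]
  obtain ⟨t, T, h4⟩ : ∃ t T, vl V L = t :: T := List.exists_cons_of_ne_nil (by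
    rw [← List.length_pos_iff, hlen]
    exact hL)
  rw [h4, code_cons, List.cons_append, List.cons.injEq] at h2
  exact ⟨t, A, by rw [h2.1]⟩

private theorem skip (V : ℕ → Bool) {L β ε : ℕ} (hε : ε < β) (hL : 1 ≤ L) :
    ∀ (m : ℕ) (w : List (Fin 4)) (Y : List ℕ),
      w.flatMap (fun i => (inst V L β ε i).1) = List.replicate m 2 ++ Y →
      ∃ w1 w2, w = w1 ++ w2 ∧ w1.length = m ∧
        w2.flatMap (fun i => (inst V L β ε i).1) = Y := by
  intro m
  induction m with
  | zero =>
    intro w Y h
    exact ⟨[], w, rfl, rfl, by simpa using h⟩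
  | succ m ih =>
    intro w Y h
    rcases w with _ | ⟨a, w⟩
    · simp [List.replicate_succ] at h
    · rw [List.flatMap_cons, List.replicate_succ, List.cons_append] at h
      have key : (inst V L β ε a).1 = [2] → ∃ w1 w2, a :: w = w1 ++ w2 ∧ w1.length = m + 1 ∧
          w2.flatMap (fun i => (inst V L β ε i).1) = Y := by
        intro ha
        rw [ha, List.cons_append, List.nil_append, List.cons.injEq] at h
        obtain ⟨w1, w2, h1, h2, h3⟩ := ih w Y h.2
        exact ⟨a :: w1, w2, by rw [h1, List.cons_append], by rw [List.length_cons, h2], h3⟩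
      fin_cases a
      · exfalso
        obtain ⟨b, A, hb⟩ := g0_head V hε hL
        have hb' : (inst V L β ε ⟨0, by decide⟩).1 = cb b :: A := hb
        simp only [Fin.zero_eta, Fin.isValue] at h
        rw [hb, List.cons_append, List.cons.injEq] at h
        exact cb_ne b h.1
      · exact key rfl
      · exfalso
        have h1 : (inst V L β ε 2).1 = [1] := rfl
        simp only [Fin.reduceFinMk, Fin.isValue] at h
        rw [h1, List.cons_append, List.cons.injEq] at h
        exact absurd h.1 (by decide)
      · exact key rfl

private theorem parse_step (V : ℕ → Bool) {L β ε : ℕ} {b : Bool} {a : Fin 4} (ha : ltr a = b)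
    {w1 w2 : List (Fin 4)} (h1 : w1.length + 1 = dlt β ε b) {z S : List Bool}
    (hS : S = z.flatMap (rr V L)) (hl : w2.length = (z.map (dlt β ε)).sum)
    (hz : ∀ i (h : i < z.length), (w2.map ltr)[((z.take i).map (dlt β ε)).sum]? = some z[i]) :
    rr V L b ++ S = (b :: z).flatMap (rr V L) ∧
      (a :: (w1 ++ w2)).length = ((b :: z).map (dlt β ε)).sum ∧
      ∀ i (h : i < (b :: z).length),
        ((a :: (w1 ++ w2)).map ltr)[(((b :: z).take i).map (dlt β ε)).sum]? = some (b :: z)[i] := by
  refine ⟨by rw [hS, List.flatMap_cons], ?_, ?_⟩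
  · rw [List.length_cons, List.length_append, List.map_cons, List.sum_cons, hl, ← h1]
    omega
  · intro i h
    rcases i with _ | i
    · simp [ha]
    · rw [List.take_succ_cons, List.map_cons (f := dlt β ε), List.sum_cons,
        List.getElem_cons_succ, ← hz i (by simpa using h), ← h1]
      have h2 : (a :: (w1 ++ w2)).map ltr = ((a :: w1).map ltr) ++ w2.map ltr := by
        simp
      have h3 : ((a :: w1).map ltr).length = w1.length + 1 := by simp
      rw [h2, List.getElem?_append_right (by omega), h3, Nat.add_sub_cancel_left]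

private theorem parse (V : ℕ → Bool) {L β ε : ℕ} (hε : ε < β) (hL : 1 ≤ L) :
    ∀ (n : ℕ) (w : List (Fin 4)) (S : List Bool), w.length ≤ n →
      w.flatMap (fun i => (inst V L β ε i).1) = S.flatMap (cd β) →
      ∃ z : List Bool, S = z.flatMap (rr V L) ∧ w.length = (z.map (dlt β ε)).sum ∧
        ∀ i (h : i < z.length), (w.map ltr)[((z.take i).map (dlt β ε)).sum]? = some z[i] := by
  intro n
  induction n with
  | zero =>
    intro w S hn h
    obtain rfl : w = [] := List.length_eq_zero_iff.1 (by omega)
    rcases S with _ | ⟨s, S⟩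
    · exact ⟨[], rfl, rfl, fun i hi => absurd hi (by simp)⟩
    · rw [code_cons] at h
      simp at h
  | succ n ih =>
    intro w S hn h
    rcases w with _ | ⟨a, w⟩
    · rcases S with _ | ⟨s, S⟩
      · exact ⟨[], rfl, rfl, fun i hi => absurd hi (by simp)⟩
      · rw [code_cons] at h
        simp at h
    have hn' : w.length ≤ n := by simpa using hn
    rw [List.flatMap_cons] at h
    rcases S with _ | ⟨s, S⟩
    · exfalso
      rw [List.flatMap_nil, List.append_eq_nil_iff] at h
      have h2 := h.1
      fin_cases a
      · exact (g0_spec V hε hL).1 h2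
      · exact absurd (show ([2] : List ℕ) = [] from h2) (by decide)
      · exact absurd (show ([1] : List ℕ) = [] from h2) (by decide)
      · exact absurd (show ([2] : List ℕ) = [] from h2) (by decide)
    have bad : (inst V L β ε a).1 = [2] → False := by
      intro ha
      rw [ha, code_cons, List.cons_append, List.cons.injEq] at h
      exact cb_ne s h.1.symm
    fin_cases a
    · obtain ⟨h1, h2⟩ := g0_spec V hε hL
      have hne : vl V L ≠ [] := by
        rw [← List.length_pos_iff]
        have hlen : (vl V L).length = L := by simp [vl]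
        omega
      obtain ⟨S'', h3, h4⟩ := code_prefix (by omega) _ _ _ _ hne h2 h
      obtain ⟨w1, w2, h5, h6, h7⟩ := skip V hε hL _ _ _ h4
      subst h5
      rw [List.length_append] at hn'
      obtain ⟨z, h8, h9, h10⟩ := ih w2 S'' (by omega) h7
      rw [h3]
      exact ⟨true :: z, parse_step V (a := 0) (b := true) rfl (by rw [h6, dlt]; omega) h8 h9 h10⟩
    · exact (bad rfl).elim
    · have h1 : (inst V L β ε 2).1 = [1] := rfl
      simp only [Fin.reduceFinMk, Fin.isValue] at h
      rw [h1, code_cons, List.cons_append, List.nil_append, List.cons.injEq] at h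
      obtain ⟨h2, h3⟩ := h
      have h4 : s = false := (cb_inj (b := false) (c := s) h2).symm
      obtain ⟨w1, w2, h5, h6, h7⟩ := skip V hε hL _ _ _ h3
      subst h5
      rw [List.length_append] at hn'
      obtain ⟨z, h8, h9, h10⟩ := ih w2 S (by omega) h7
      rw [h4]
      exact ⟨false :: z, parse_step V (a := 2) (b := false) rfl (by rw [h6, dlt]; omega) h8 h9 h10⟩
    · exact (bad rfl).elim

/-- active pairs -/
private def act (b : Bool) : Fin 4 := if b then 0 else 2

/-- skip pairs -/
private def skp (b : Bool) : Fin 4 := if b then 1 else 3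

private theorem act_word (V : ℕ → Bool) {L β ε : ℕ} (hε : ε < β) (hL : 1 ≤ L) (b : Bool) :
    (inst V L β ε (act b)).1 ++ List.replicate (dlt β ε b - 1) 2 = (rr V L b).flatMap (cd β) := by
  cases b
  · have h1 : (inst V L β ε (act false)).1 = [1] := rfl
    rw [h1, rr, dlt, code_cons]
    simp [cb]
  · exact (g0_spec V hε hL).2.symm

private theorem build (V : ℕ → Bool) {L β ε : ℕ} (hε : ε < β) (hL : 1 ≤ L) :
    ∀ z S : List Bool, S.length = (z.map (dlt β ε)).sum →
      (∀ i (h : i < z.length), S[((z.take i).map (dlt β ε)).sum]? = some z[i]) →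
      ∃ w : List (Fin 4), w.map ltr = S ∧
        w.flatMap (fun i => (inst V L β ε i).1) = (z.flatMap (rr V L)).flatMap (cd β) := by
  intro z
  induction z with
  | nil =>
    intro S h1 _
    obtain rfl : S = [] := List.length_eq_zero_iff.1 (by simpa using h1)
    exact ⟨[], rfl, rfl⟩
  | cons b z ih =>
    intro S h1 h2
    have hd : 1 ≤ dlt β ε b := by cases b <;> simp only [dlt] <;> omega
    rw [List.map_cons, List.sum_cons] at h1
    obtain ⟨w2, h3, h4⟩ := ih (S.drop (dlt β ε b)) (by rw [List.length_drop]; omega) (by
      intro i hi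
      have h5 := h2 (i + 1) (by simpa using hi)
      rw [List.take_succ_cons, List.map_cons, List.sum_cons, List.getElem_cons_succ] at h5
      rw [List.getElem?_drop]
      exact h5)
    have h5 := h2 0 (by simp)
    simp only [List.take_zero, List.map_nil, List.sum_nil, List.getElem_cons_zero] at h5
    obtain ⟨S1, hS1⟩ : ∃ S1, S.take (dlt β ε b) = b :: S1 := by
      rcases S with _ | ⟨s, S⟩
      · simp at h5
      · have h6 : s = b := by simpa using h5
        obtain ⟨k, hk⟩ := Nat.exists_eq_add_of_le' hd
        exact ⟨S.take k, by rw [hk, List.take_succ_cons, h6]⟩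
    have hl1 : S1.length = dlt β ε b - 1 := by
      have h6 := congrArg List.length hS1
      rw [List.length_take, List.length_cons] at h6
      omega
    refine ⟨(act b :: S1.map skp) ++ w2, ?_, ?_⟩
    · rw [List.map_append, h3, List.map_cons, List.map_map]
      have h6 : (ltr ∘ skp) = id := by
        funext c
        cases c <;> rfl
      have h7 : ltr (act b) = b := by cases b <;> rfl
      rw [h6, List.map_id, h7, ← hS1, List.take_append_drop]
    · rw [List.flatMap_append, h4, List.flatMap_cons (x := b), List.flatMap_append]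
      congr 1
      rw [← act_word V hε hL b, List.flatMap_cons, ← hl1]
      congr 1
      clear hS1 hl1
      induction S1 with
      | nil => rfl
      | cons c S1 ih1 =>
        rw [List.map_cons, List.flatMap_cons, ih1, List.length_cons, List.replicate_succ]
        cases c <;> rfl

theorem hasSol_iff_list (V : ℕ → Bool) (L β ε : ℕ) (hε : ε < β) (hε1 : 1 ≤ ε) (hL : 1 ≤ L) :
    HasSol (inst V L β ε) ↔ ∃ z : List Bool, z ≠ [] ∧
      (z.flatMap (rr V L)).length = (z.map (dlt β ε)).sum ∧
      ∀ i (h : i < z.length),
        (z.flatMap (rr V L))[((z.take i).map (dlt β ε)).sum]? = some z[i] := by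
  constructor
  · rintro ⟨w, hw, h⟩
    have h1 : w.flatMap (fun i => (inst V L β ε i).2) = (w.map ltr).flatMap (cd β) := by
      rw [List.flatMap_map]
      simp only [snd_eq]
    rw [h1] at h
    obtain ⟨z, h2, h3, h4⟩ := parse V hε hL _ _ _ le_rfl h
    refine ⟨z, ?_, ?_, ?_⟩
    · rintro rfl
      apply hw
      exact List.length_eq_zero_iff.1 (by simpa using h3)
    · rw [← h2, List.length_map, h3]
    · rw [← h2]
      exact h4
  · rintro ⟨z, hz, h1, h2⟩
    obtain ⟨w, h3, h4⟩ := build V hε hL z _ h1 h2
    refine ⟨w, ?_, ?_⟩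
    · rintro rfl
      obtain ⟨b, z, rfl⟩ := List.exists_cons_of_ne_nil hz
      have hd : 1 ≤ dlt β ε b := by cases b <;> simp only [dlt] <;> omega
      rw [← h3, List.map_cons, List.sum_cons] at h1
      simp only [List.map_nil, List.length_nil] at h1
      omega
    · rw [h4, ← h3, List.flatMap_map]
      simp only [snd_eq]

end Pool.Agent.H28.PCP
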