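import Mathlib
import Pool.Agent.H28.PCP.PA

set_option autoImplicit false

/-!
# Module PB: from lists to functions on ℕ

`z : List Bool` corresponds to `X : ℕ → Bool`, `X T = z[T]` for `T < n = z.length` (`X T = false`
beyond, or arbitrary).  `((z.take i).map dlt).sum = pos β ε X i`, `((z.take i).flatMap rr).length =
len L X i`, and `(z.flatMap rr)[p]? = some b` for `p < len L X n` iff `b = true ↔ Txt V L X p`
(the letter at `p`; a `T` with `len L X T ≤ p < len L X n` is `< n`; the intervals
`[len L X T, len L X (T+1))` are disjoint, for `X T = false` the letter is `false`).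
In (←) direction take `z = (List.range n).map X`; `pos T < pos n = len n` for `T < n` since `β-ε ≥ 1`.
-/

namespace Pool.Agent.H28.PCP

theorem rmap_take (X : ℕ → Bool) (n i : ℕ) (h : i ≤ n) :
    ((List.range n).map X).take i = (List.range i).map X := by
  rw [← List.map_take, List.take_range, min_eq_left h]

theorem rmap_sum (β ε : ℕ) (X : ℕ → Bool) (i : ℕ) :
    (((List.range i).map X).map (dlt β ε)).sum = pos β ε X i := by
  induction i with
  | zero => simp [pos]
  | succ i ih =>
    rw [List.range_succ, List.map_append, List.map_append, List.sum_append, ih, pos]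
    cases h : X i <;> simp [h, dlt]

theorem rmap_len (V : ℕ → Bool) (L : ℕ) (X : ℕ → Bool) (i : ℕ) :
    (((List.range i).map X).flatMap (rr V L)).length = len L X i := by
  induction i with
  | zero => simp [len]
  | succ i ih =>
    rw [List.range_succ, List.map_append, List.flatMap_append, List.length_append, ih, len]
    cases h : X i <;> simp [h, rr, vl]

theorem txt_iff_cell (V : ℕ → Bool) (L : ℕ) (X : ℕ → Bool) (n p : ℕ)
    (h1 : len L X n ≤ p) (h2 : p < len L X (n + 1)) :
    Txt V L X p ↔ X n = true ∧ V (p - len L X n) = true := by
  constructor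
  · rintro ⟨T, hT, hl, hu, hV⟩
    have hTn : T = n := by
      rcases lt_trichotomy T n with h | h | h
      · exfalso
        have h3 : len L X (T + 1) ≤ len L X n := len_mono L X h
        have h4 : len L X (T + 1) = len L X T + L := by simp [len, hT]
        omega
      · exact h
      · exfalso
        have h3 : len L X (n + 1) ≤ len L X T := len_mono L X h
        omega
    subst hTn
    exact ⟨hT, hV⟩
  · rintro ⟨hX, hV⟩
    refine ⟨n, hX, h1, ?_, hV⟩
    have h4 : len L X (n + 1) = len L X n + L := by simp [len, hX]
    omega

open Classical in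
theorem rmap_get (V : ℕ → Bool) (L : ℕ) (X : ℕ → Bool) (n p : ℕ) (h : p < len L X n) :
    (((List.range n).map X).flatMap (rr V L))[p]? = some (decide (Txt V L X p)) := by
  induction n with
  | zero => simp [len] at h
  | succ n ih =>
    rw [List.range_succ, List.map_append, List.flatMap_append]
    by_cases hp : p < len L X n
    · rw [List.getElem?_append_left (by rw [rmap_len]; exact hp)]
      exact ih hp
    · have hp' : len L X n ≤ p := not_lt.mp hp
      rw [List.getElem?_append_right (by rw [rmap_len]; exact hp'), rmap_len]
      have hc := txt_iff_cell V L X n p hp' h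
      cases hX : X n
      · have h4 : len L X (n + 1) = len L X n + 1 := by simp [len, hX]
        have h5 : p - len L X n = 0 := by omega
        rw [h5]
        have h6 : ¬ Txt V L X p := by
          rw [hc, hX]
          simp
        simp [hX, rr, h6]
      · have h4 : len L X (n + 1) = len L X n + L := by simp [len, hX]
        have h5 : p - len L X n < L := by omega
        have h6 : Txt V L X p ↔ V (p - len L X n) = true := by
          rw [hc, hX]
          simp
        have h7 : decide (Txt V L X p) = V (p - len L X n) := by
          rw [Bool.eq_iff_iff, decide_eq_true_iff, h6]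
        rw [h7]
        simp [hX, rr, vl, h5]

theorem pos_lt_of_lt (β ε : ℕ) (hε : ε < β) (X : ℕ → Bool) {T T' : ℕ} (h : T < T') :
    pos β ε X T < pos β ε X T' := by
  refine lt_of_lt_of_le ?_ (pos_mono β ε X (Nat.succ_le_of_lt h))
  simp only [pos]
  split_ifs <;> omega

theorem list_iff_fun (V : ℕ → Bool) (L β ε : ℕ) (hε : ε < β) (hL : 1 ≤ L) :
    (∃ z : List Bool, z ≠ [] ∧
      (z.flatMap (rr V L)).length = (z.map (dlt β ε)).sum ∧
      ∀ i (h : i < z.length),
        (z.flatMap (rr V L))[((z.take i).map (dlt β ε)).sum]? = some z[i]) ↔
    ∃ n, 1 ≤ n ∧ ∃ X : ℕ → Bool, pos β ε X n = len L X n ∧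
      ∀ T < n, (X T = true ↔ Txt V L X (pos β ε X T)) := by
  classical
  constructor
  · rintro ⟨z, hz, hlen, hget⟩
    let X : ℕ → Bool := fun T => z.getD T false
    have hzX : z = (List.range z.length).map X := by
      apply List.ext_getElem
      · simp
      · intro i h1 h2
        simp [X, h1]
    have hn : 1 ≤ z.length := List.length_pos_iff.mpr hz
    refine ⟨z.length, hn, X, ?_, ?_⟩
    · rw [← rmap_len V L X z.length, ← rmap_sum, ← hzX, hlen]
    · intro T hT
      have h1 := hget T hT
      have h2 : ((z.take T).map (dlt β ε)).sum = pos β ε X T := by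
        conv_lhs => rw [hzX]
        rw [rmap_take X _ _ hT.le, rmap_sum]
      rw [h2] at h1
      have h3 : pos β ε X T < len L X z.length := by
        rw [← rmap_len V L X z.length, ← hzX]
        exact (List.getElem?_eq_some_iff.mp h1).1
      have h4 := rmap_get V L X z.length _ h3
      rw [← hzX, h1] at h4
      have h5 : z[T] = X T := by simp [X, hT]
      rw [h5] at h4
      have h6 := Option.some.inj h4
      rw [h6, decide_eq_true_iff]
  · rintro ⟨n, hn, X, hpl, hX⟩
    refine ⟨(List.range n).map X, ?_, ?_, ?_⟩
    · intro h
      have := congrArg List.length h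
      simp at this
      omega
    · rw [rmap_len, rmap_sum, hpl]
    · intro i hi
      have hi' : i < n := by simpa using hi
      rw [rmap_take X n i hi'.le, rmap_sum]
      have h3 : pos β ε X i < len L X n := by
        rw [← hpl]
        exact pos_lt_of_lt β ε hε X hi'
      rw [rmap_get V L X n _ h3]
      congr 1
      rw [Bool.eq_iff_iff, decide_eq_true_iff, ← hX i hi']
      simp

end Pool.Agent.H28.PCP
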