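import Mathlib
import Pool.Agent.H28.PCP.PB

set_option autoImplicit false

/-!
# Module PC: the fixed point argument

`D_T = len T - pos T` (integers).  `D` changes by `-(β-1)` if `X T = false` and by
`L - (β-ε) = (β-1)(R-1) > 0` if `X T = true`, so `D ≡ 0 mod (β-1)`.

(→) Take `n` minimal with a solution `(n, X)`.  Then `D_T ≠ 0` for `0 < T < n` (otherwise `(T, X)`
is a smaller solution, same `X`).  Let `I = {T < n : X T = true}`.  If `I = ∅` then
`D_n = -n(β-1) < 0`.  For `T ∈ I`, `Txt V L X (pos T)` gives a `γ(T)` with `X (γ T) = true`,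
`len (γ T) ≤ pos T < len (γ T) + L` (unique since `len` is monotone and `len (T'+1) = len T' + L`
for `X T' = true`), `V (pos T - len (γ T)) = true`, and `γ(T) < n` because `len (γ T) ≤ pos T <
pos n = len n`.  `γ` is monotone on `I`.  The set `{T ∈ I : T ≤ γ T}` contains `min I` (γ maps `I`
to `I`), let `T*` be its maximum; `γ T* > T*` would give `γ(γ T*) ≥ γ T*`, a larger element; so
`γ T* = T*`.  Then `V (pos T* - len T*) = true`, `pos T* - len T* = m (β-1)`, so `m = 0`, `D_T* = 0`,
`T* = 0`, i.e. `X 0 = true`.  Hence `D_1 > 0` and `D_T > 0` for all `0 < T < n` (a step down is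
exactly `β-1` and `D` is a multiple of `β-1`).  By strong induction `X T = X* T` for `T < n`:
`pos` and `len` up to `T` agree, `pos T < len T`, and `Txt V L X p` for `p < len L X T` only
depends on `X` below `T`.  So `pos X* n = len X* n`.

(←) Let `T ≥ 1` be minimal with `pos X* T = len X* T`.  As above `pos < len` for `0 < T' < T`.
`(T, X*)` is a solution: for `T' = 0` the letter is `V 0 = true = X* 0`.
-/

namespace Pool.Agent.H28.PCP

theorem agree_pos (β ε : ℕ) (X Y : ℕ → Bool) (T : ℕ) (h : ∀ s < T, X s = Y s) :
    pos β ε X T = pos β ε Y T := by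
  induction T with
  | zero => rfl
  | succ T ih =>
    simp only [pos]
    rw [ih fun s hs => h s (by omega), h T (by omega)]

theorem agree_len (L : ℕ) (X Y : ℕ → Bool) (T : ℕ) (h : ∀ s < T, X s = Y s) :
    len L X T = len L Y T := by
  induction T with
  | zero => rfl
  | succ T ih =>
    simp only [len]
    rw [ih fun s hs => h s (by omega), h T (by omega)]

theorem agree_txt (V : ℕ → Bool) (L : ℕ) (X Y : ℕ → Bool) (T p : ℕ) (h : ∀ s < T, X s = Y s)
    (hp : p < len L X T) (ht : Txt V L X p) : Txt V L Y p := by
  obtain ⟨s, h1, h2, h3, h4⟩ := ht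
  have hs : s < T := by
    by_contra hc
    have := len_mono L X (not_lt.mp hc)
    omega
  have hl : len L X s = len L Y s := agree_len L X Y s fun r hr => h r (by omega)
  refine ⟨s, ?_, ?_, ?_, ?_⟩
  · rw [← h s hs]; exact h1
  · rw [← hl]; exact h2
  · rw [← hl]; exact h3
  · rw [← hl]; exact h4

/-- the balance -/
theorem balance (L β ε R : ℕ) (hβ : 2 ≤ β) (hε : ε < β)
    (hL : L + ε = (β - 1) * R + 1) (X : ℕ → Bool) (T : ℕ) :
    pos β ε X T + (β - 1) * (R * cnt X T) = len L X T + (β - 1) * T := by
  induction T with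
  | zero => simp [pos, cnt, len]
  | succ T ih =>
    simp only [pos, cnt, len]
    cases h : X T
    · simp only [Bool.false_eq_true, if_false, add_zero]
      have : (β - 1) * (T + 1) = (β - 1) * T + (β - 1) := by ring
      rw [this]
      omega
    · simp only [if_true]
      have h1 : (β - 1) * (T + 1) = (β - 1) * T + (β - 1) := by ring
      have h2 : (β - 1) * (R * (cnt X T + 1)) = (β - 1) * (R * cnt X T) + (β - 1) * R := by ring
      rw [h1, h2]
      omega

theorem fun_iff_run (V : ℕ → Bool) (L β ε R : ℕ) (hβ : 2 ≤ β) (hε1 : 1 ≤ ε) (hε : ε < β)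
    (hR : 2 ≤ R) (hL : L + ε = (β - 1) * R + 1)
    (hV0 : V 0 = true) (hV : ∀ m, 1 ≤ m → V (m * (β - 1)) = false)
    (Y : ℕ → Bool) (hY0 : Y 0 = true)
    (hY : ∀ T, 1 ≤ T → (Y T = true ↔ Txt V L Y (pos β ε Y T))) :
    (∃ n, 1 ≤ n ∧ ∃ X : ℕ → Bool, pos β ε X n = len L X n ∧
      ∀ T < n, (X T = true ↔ Txt V L X (pos β ε X T))) ↔
    ∃ T, 1 ≤ T ∧ pos β ε Y T = len L Y T := by
  classical
  have hL1 : 1 ≤ L := by
    have : (β - 1) * 2 ≤ (β - 1) * R := Nat.mul_le_mul_left _ hR
    omega
  constructor
  · intro hex
    let n := Nat.find hex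
    obtain ⟨hn1, X, hpl, hX⟩ := Nat.find_spec hex
    change 1 ≤ n at hn1
    change pos β ε X n = len L X n at hpl
    change ∀ T < n, _ at hX
    have hmin : ∀ T, 1 ≤ T → T < n → pos β ε X T ≠ len L X T := by
      intro T hT hTn he
      exact Nat.find_min hex hTn ⟨hT, X, he, fun s hs => hX s (by omega)⟩
    have hb := balance L β ε R hβ hε hL X
    have hβ1 : 0 < β - 1 := by omega
    -- `γ`
    have hg : ∀ T < n, X T = true → ∃ g < n, X g = true ∧ len L X g ≤ pos β ε X T ∧
        pos β ε X T < len L X g + L ∧ V (pos β ε X T - len L X g) = true := by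
      intro T hT hXT
      obtain ⟨g, h1, h2, h3, h4⟩ := (hX T hT).mp hXT
      refine ⟨g, ?_, h1, h2, h3, h4⟩
      by_contra hc
      have h5 := len_mono L X (not_lt.mp hc)
      have h6 := pos_lt_of_lt β ε hε X hT
      omega
    have hmono : ∀ T T' g g', T ≤ T' → X g' = true → len L X g ≤ pos β ε X T →
        pos β ε X T' < len L X g' + L → g ≤ g' := by
      intro T T' g g' hT h1 h2 h3
      by_contra hc
      have h4 : len L X (g' + 1) ≤ len L X g := len_mono L X (not_le.mp hc)
      have h5 : len L X (g' + 1) = len L X g' + L := by simp [len, h1]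
      have h6 := pos_mono β ε X hT
      omega
    -- the set `S`
    let S : ℕ → Prop := fun T => T < n ∧ X T = true ∧ ∃ g < n, T ≤ g ∧ X g = true ∧
      len L X g ≤ pos β ε X T ∧ pos β ε X T < len L X g + L ∧
      V (pos β ε X T - len L X g) = true
    have hI : ∃ T, T < n ∧ X T = true := by
      by_contra hc
      push Not at hc
      have hc0 : ∀ T ≤ n, cnt X T = 0 := by
        intro T
        induction T with
        | zero => intro _; rfl
        | succ T ih =>
          intro hT
          rw [cnt, ih (by omega)]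
          simp [hc T (by omega)]
      have h1 := hb n
      rw [hc0 n le_rfl, hpl] at h1
      have h2 : 0 < (β - 1) * n := Nat.mul_pos hβ1 hn1
      simp only [mul_zero] at h1
      omega
    have hS : ∃ T, S T := by
      let T0 := Nat.find hI
      obtain ⟨h1, h2⟩ := Nat.find_spec hI
      obtain ⟨g, h3, h4, h5, h6, h7⟩ := hg T0 h1 h2
      exact ⟨T0, h1, h2, g, h3, Nat.find_min' hI ⟨h3, h4⟩, h4, h5, h6, h7⟩
    obtain ⟨T1, hT1⟩ := hS
    let Ts := Nat.findGreatest S n
    have hTs : S Ts := Nat.findGreatest_spec (P := S) hT1.1.le hT1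
    obtain ⟨t1, t2, g, t3, t4, t5, t6, t7, t8⟩ := hTs
    have hgT : g = Ts := by
      refine le_antisymm ?_ t4
      obtain ⟨g', u1, u2, u3, u4, u5⟩ := hg g t3 t5
      have hgg : g ≤ g' := hmono Ts g g g' t4 u2 t6 u4
      exact Nat.le_findGreatest t3.le ⟨t3, t5, g', u1, hgg, u2, u3, u4, u5⟩
    rw [hgT] at t6 t7 t8
    have hTs0 : Ts = 0 := by
      have h1 := hb Ts
      have h2 : pos β ε X Ts = len L X Ts := by
        by_contra hne
        have h3 : len L X Ts < pos β ε X Ts := lt_of_le_of_ne t6 (Ne.symm hne)
        have h4 : R * cnt X Ts < Ts := by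
          by_contra hc
          have := Nat.mul_le_mul_left (β - 1) (not_lt.mp hc)
          omega
        have h5 : pos β ε X Ts - len L X Ts = (Ts - R * cnt X Ts) * (β - 1) := by
          rw [Nat.mul_comm, Nat.mul_sub]
          omega
        rw [h5, hV _ (by omega)] at t8
        exact Bool.noConfusion t8
      by_contra hne
      exact hmin Ts (by omega) t1 h2
    have hX0 : X 0 = true := by
      rw [hTs0] at t2
      exact t2
    have hpos : ∀ T, 1 ≤ T → T < n → T < R * cnt X T := by
      intro T
      induction T with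
      | zero => intro h; omega
      | succ T ih =>
        intro _ hTn
        have hle : T + 1 ≤ R * cnt X (T + 1) := by
          rcases Nat.eq_zero_or_pos T with h0 | h0
          · subst h0
            simp [cnt, hX0]
            omega
          · have h1 := ih h0 (by omega)
            have h2 : cnt X T ≤ cnt X (T + 1) := cnt_mono X (Nat.le_succ T)
            have h3 := Nat.mul_le_mul_left R h2
            omega
        refine lt_of_le_of_ne hle ?_
        intro he
        have h1 := hb (T + 1)
        rw [← he] at h1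
        exact hmin (T + 1) (by omega) hTn (by omega)
    have hplt : ∀ T, 1 ≤ T → T < n → pos β ε X T < len L X T := by
      intro T h1 h2
      have h3 := hpos T h1 h2
      have h4 := hb T
      have h5 : (β - 1) * T < (β - 1) * (R * cnt X T) := Nat.mul_lt_mul_of_pos_left h3 hβ1
      omega
    have hag : ∀ T, T < n → X T = Y T := by
      intro T
      induction T using Nat.strong_induction_on with
      | _ T ih =>
        intro hT
        rcases Nat.eq_zero_or_pos T with h0 | h0
        · rw [h0, hX0, hY0]
        · have hag' : ∀ s < T, X s = Y s := fun s hs => ih s hs (by omega)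
          have hag'' : ∀ s < T, Y s = X s := fun s hs => (hag' s hs).symm
          rw [Bool.eq_iff_iff, hX T hT, hY T h0, ← agree_pos β ε X Y T hag']
          constructor
          · exact agree_txt V L X Y T _ hag' (hplt T h0 hT)
          · refine agree_txt V L Y X T _ hag'' ?_
            rw [← agree_len L X Y T hag']
            exact hplt T h0 hT
    refine ⟨n, hn1, ?_⟩
    rw [← agree_pos β ε X Y n fun s hs => hag s hs, ← agree_len L X Y n fun s hs => hag s hs]
    exact hpl
  · rintro ⟨T, hT, he⟩
    refine ⟨T, hT, Y, he, ?_⟩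
    intro s _
    rcases Nat.eq_zero_or_pos s with h0 | h0
    · subst h0
      refine ⟨fun _ => ⟨0, hY0, ?_, ?_, ?_⟩, fun _ => hY0⟩
      · simp [pos, len]
      · simp only [pos, len]; omega
      · simpa [pos, len] using hV0
    · exact hY s h0

end Pool.Agent.H28.PCP
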