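import Mathlib
import Pool.Agent.H28.PCP.PC
import Pool.Agent.H28.PCP.LF
import Pool.Agent.H28.PCP.TG
import Pool.Agent.H28.PCP.UA
import Pool.Agent.H28.PCP.KC
import Pool.Agent.H28.PCP.KB

set_option autoImplicit false

/-!
# PCP(4) is undecidable: assembly
-/

namespace Pool.Agent.H28.PCP

/-- token systems and four pairs -/
theorem pcp_of_ts (J Q lam ε : ℕ) (E : ℕ → ℕ → Bool) (hQ : 2 ≤ Q) (hlam : 2 ≤ lam) (hJ : 1 ≤ J)
    (hε : (lam + 1) * J + 4 ≤ ε) (hE : ∀ a, E a a = false)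
    (hok : ∀ u, OK J Q lam E ((stepQ J Q E)^[u] q0)) :
    HasSol (inst (Vf J Q lam ε E) (Lf Q ε) (Q * ε) ε) ↔ ∃ u, (stepQ J Q E)^[u] q0 = [] := by
  obtain ⟨r, hr⟩ := exists_run J Q lam E hok
  obtain ⟨Y, hY0, hY, hYH⟩ := pcp_of_run J Q lam ε E hQ hlam hJ hε r
  have hε4 : 4 ≤ ε := by omega
  obtain ⟨hL1, hL2⟩ := Lf_spec Q ε hQ hε4
  have hβε : ε < Q * ε := by nlinarith
  have hL : 1 ≤ Lf Q ε := by
    have : 1 ≤ Q * ε * (Q * ε + 1) := by
      have : 0 < Q * ε := by omega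
      nlinarith
    omega
  rw [hr, ← hYH, hasSol_iff_list _ _ _ _ hβε (by omega) hL, list_iff_fun _ _ _ _ hβε hL]
  exact fun_iff_run _ _ _ _ (ε * (Q * ε)) (by omega) (by omega) hβε (by nlinarith) hL1
    (Vf_zero _ _ _ _ _) (fun m hm => Vf_step J Q lam ε E hQ hlam hε (fun a _ => hE a) m hm) Y hY0 hY

/-- word automata and four pairs -/
theorem pcp_of_word {A : ℕ} {f : ℕ → ℕ → ℕ} (hyp : Hyp A f) (hl : ℕ → Bool) (w : List ℕ)
    (hw : ∀ a ∈ w, 1 ≤ a ∧ a < A) :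
    HasSol (instW A f hl w) ↔ ∃ t, ∃ a ∈ (stepW f)^[t] w, hl a = true := by
  obtain ⟨h1, h2⟩ := ts_ring hyp hl w hw
  rw [← h2]
  refine pcp_of_ts _ _ _ _ _ ?_ ?_ ?_ ?_ (Er_self hyp hl w) h1
  · rw [Qr]; omega
  · rw [lamr]; omega
  · rw [Jr, Qr]; nlinarith
  · exact le_rfl

/-- the words are nonempty -/
theorem instW_ne {A : ℕ} (f : ℕ → ℕ → ℕ) (hl : ℕ → Bool) (w : List ℕ) (i : Fin 4) :
    (instW A f hl w i).1 ≠ [] ∧ (instW A f hl w i).2 ≠ [] := by
  have hε : 4 ≤ epsr A w.length := by rw [epsr]; omega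
  have hQ : 2 ≤ Qr A w.length := by rw [Qr]; omega
  obtain ⟨-, hL2⟩ := Lf_spec _ _ hQ hε
  set ε := epsr A w.length
  set Q := Qr A w.length
  have hβ : 0 < Q * ε := by positivity
  fin_cases i
  · refine ⟨?_, by simp [instW, inst, cd]⟩
    simp only [instW, inst, Fin.zero_eta, Matrix.cons_val_zero, ne_eq, List.take_eq_nil_iff, not_or]
    constructor
    · have h1 : Lf Q ε * (Q * ε) ≥ Q * ε := by
        have : 1 ≤ Lf Q ε := by nlinarith
        nlinarith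
      change ¬ (Lf Q ε * (Q * ε) - (Q * ε - ε - 1) = 0)
      omega
    · intro h
      rw [List.flatMap_eq_nil_iff] at h
      have h3 := h (Vf (Jr A w.length) Q (lamr w.length) ε (Er A f hl w) 0) (by
        rw [vl, List.mem_map]
        exact ⟨0, List.mem_range.2 (by nlinarith), rfl⟩)
      simp [cd] at h3
  all_goals simp [instW, inst, cd]

/-- **PCP(n) is undecidable for every n ≥ 4.** -/
theorem pcp_undecidable (n : ℕ) (hn : 4 ≤ n) :
    ¬ ∃ d : (Fin n → List ℕ × List ℕ) → Bool, Computable d ∧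
      ∀ P : Fin n → List ℕ × List ℕ, (∀ i, (P i).1 ≠ [] ∧ (P i).2 ≠ []) →
        (d P = true ↔ HasSol P) := by
  rintro ⟨d, hd, hdP⟩
  obtain ⟨Γ, Λ, _, _, _, M, S, m, e, l, hS, hsup, hlc, hnc⟩ := tm0_undec
  obtain ⟨A, f, hl, code, hyp, hf1, hhl, hcode, hM⟩ := ca_of_tm0 M S hS hsup
  refine hnc ?_
  have hw : ∀ n, ∀ a ∈ wordOf code default (l n), 1 ≤ a ∧ a < A := by
    intro n a ha
    rw [wordOf, List.mem_map] at ha
    obtain ⟨j, -, rfl⟩ := ha
    exact hcode _ _ _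
  have hcomp : Computable (fun k => d (extend n (instW A f hl (wordOf code default (l k))))) :=
    hd.comp ((extend_computable n).comp ((instW_primrec A f hl (primrec_fin2 A f hf1)
      (primrec_fin1 A hl hhl)).to_comp.comp (wordOf_computable e code l hlc)))
  rw [ComputablePred.computable_iff]
  refine ⟨_, hcomp, ?_⟩
  funext k
  rw [← hM, ← pcp_of_word hyp hl _ (hw k), ← hasSol_extend n hn]
  refine propext ((hdP _ ?_).symm)
  intro i
  unfold extend
  split_ifs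
  · exact instW_ne f hl _ _
  · exact instW_ne f hl _ _

end Pool.Agent.H28.PCP
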